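import Pool.Agent.H9.GEN.Tgs7
import Pool.Agent.H75.STAT.ShG

/-!
# The good pairs of a radius and a window

`AttC P`: the pairs with linear growth of the thresholds and a good window. `attN_attC`: on every
line of direction `(1, 1)` almost all pairs are good. `con_ae`: the diagonals are continuous at
almost every window.
-/

set_option autoImplicit false

namespace Pool.FRN

open Finset Real MvPolynomial MeasureTheory
open Pool.Agent.H49.Ent Pool.Agent.H32.Dense Pool.STK Pool.KA Pool.KSAT Pool.K2S Pool.PB Pool.S6C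
open Pool.GEN
open Pool.LBT (ThrOf)
open Pool.LEV (Law)
open Pool.CHT (TmH chsys bet tau Up1 Rc)
open Pool.STR (AttN)

variable {m J : ℕ} {θ : ℝ} {S : PCl m} {P : List (Fin m) × Fin m → ℝ → ℝ → ℝ}

/-- **The good pairs.** -/
def AttC (P : List (Fin m) × Fin m → ℝ → ℝ → ℝ) : Set (ℝ × ℝ) :=
  {q : ℝ × ℝ | UpA P q.1 q.2 ∧ q.2 ∈ Wgd P}

/-- Almost every translate. -/
theorem ae_shift {p : ℝ → Prop} (h : ∀ᵐ t : ℝ, p t) (y : ℝ) : ∀ᵐ t : ℝ, p (y + t) :=
  (measurePreserving_add_left (volume : Measure ℝ) y).quasiMeasurePreserving.ae h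

/-- **Almost all pairs** of every line of direction `(1, 1)` are good. -/
theorem attN_attC (hP : ThrOf (chsys m θ) S P) : AttN (AttC P) := by
  intro x y hxy
  have h1 := Upd.dia (κ := Unit) P (fun _ => x - y) (fun _ => (0 : ℝ)) (1 - (x - y))
    fun i _ => law_diag hP i (by linarith)
  have h2 := wgd_ae hP
  rw [ae_restrict_iff' measurableSet_Ioo] at h1 h2
  filter_upwards [ae_shift h1 y, ae_shift h2 y] with t h3 h4 h5 h6
  refine ⟨fun i => ?_, h4 ⟨h5, by linarith⟩⟩
  obtain ⟨V, o₀, k1, k2, k3⟩ := h3 ⟨h5, by linarith⟩ i ()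
  refine ⟨V, o₀, k1, k2, fun o ho ho' => ?_⟩
  have h7 := k3 o ho ho'
  have e1 : x - y + (y + t) + o = x + t + o := by ring
  have e2 : 0 + (y + t) + o = y + t + o := by ring
  have e3 : x - y + (y + t) = x + t := by ring
  have e4 : 0 + (y + t) = y + t := by ring
  rw [e1, e2, e3, e4] at h7
  exact h7

theorem Lg.con {f : ℝ → ℝ} {t : ℝ} (h : Upd.Lg f t) : ContinuousAt f t := by
  obtain ⟨V, o₀, hV, ho, h⟩ := h
  rw [Metric.continuousAt_iff]
  intro ε hε
  refine ⟨min o₀ (ε / (V + 1)), lt_min ho (by positivity), fun x hx => ?_⟩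
  rw [Real.dist_eq] at hx ⊢
  have h1 := h (x - t) (hx.trans_le (min_le_left _ _))
  rw [add_sub_cancel] at h1
  have h2 := hx.trans_le (min_le_right _ _)
  rw [lt_div_iff₀ (by positivity)] at h2
  have h3 := abs_nonneg (x - t)
  have h4 : V * |x - t| ≤ |x - t| * (V + 1) := by linarith only [h3]
  linarith only [h1, h2, h4]

/-- **Continuity of countably many diagonals** at almost every window. -/
theorem con_law {ι : Type*} [Countable ι] {f : ι → ℝ → ℝ → ℝ} (hf : ∀ i, Law (f i)) :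
    ∀ᵐ v : ℝ, 0 < v → v < 1 → ∀ i, ContinuousAt (fun x => f i x x) v := by
  have h1 := Upd.upd (fun i x => f i x x) 0 1 fun i x hx y hy hxy =>
    (hf i).mono hx.1 le_rfl hxy hxy le_rfl hy.2
  rw [ae_restrict_iff' measurableSet_Ioo] at h1
  filter_upwards [h1] with v h2 h3 h4 i
  exact Lg.con (h2 ⟨h3, h4⟩ i)

end Pool.FRN
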