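import Pool.Agent.H9.GEN.Dia

/-!
# The order of the coordinates at almost every window

`hG_ae`: at almost every window below a row which is not full there is a list of the other
coordinates over which the threshold of the target on the diagonal is the threshold of all the
labels of the target. Input: no good labels where the rows are not full (`TopS`), and the thresholds
of the chains for a sequence of exponents of the gradients tending to zero.
-/

set_option autoImplicit false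

namespace Pool.FRN

open Finset Real MvPolynomial MeasureTheory
open Pool.Agent.H49.Ent Pool.Agent.H32.Dense Pool.STK Pool.KA Pool.KSAT Pool.K2S Pool.PB Pool.S6C
open Pool.GEN
open Pool.LBT (ThrOf)
open Pool.ONE (tgs)
open Pool.ALL (RateOf)
open Pool.CHT (TmH chsys bet tau)
open Pool.TOP (T1c T2c)
open Pool.CHB (chsysB)

variable {m : ℕ} {S : PCl m}

/-- **The order is right at almost every window.** -/
theorem hG_ae (hne : S.Ne) (hS : TmH S) {k : Fin m} {Pt : ℝ → ℝ → ℝ} {r : ℝ → ℝ}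
    (hPt : ThrOf (tgs k) S (fun _ => Pt)) (hr : MonotoneOn r (Set.Icc 0 1))
    (hTop : ∀ α α' Q c : ℝ, 0 ≤ α → α < α' → α' ≤ 1 → Pt α' α' ≤ Q → 0 < c →
      c ≤ 1 - Q - (r 1 - r Q) → T1c S k α (1 - c) ∧ T2c S k α Q (1 - c))
    {θ : ℕ → ℝ} (hθ : ∀ j, 0 < θ j) (hθ0 : ∀ ε : ℝ, 0 < ε → ∃ j, θ j < ε)
    {P : ℕ → List (Fin m) × Fin m → ℝ → ℝ → ℝ} (hP : ∀ j, ThrOf (chsys m (θ j)) S (P j))
    {κ : Type} {β PB : ℕ → κ → List (Fin m) × Fin m → ℝ → ℝ → ℝ}
    (hβ : ∀ j b i v, 0 < v → v < 1 → β j b i v v = P j i v v)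
    (hPB : ∀ j b, ThrOf (chsysB m none (β j b)) S (PB j b)) :
    ∀ᵐ g : ℝ, 0 < g → g < 1 →
      (∃ a', g < a' ∧ a' ≤ 1 ∧ r 1 - r (Pt a' a') < 1 - Pt a' a') →
      ∃ (j : ℕ) (c : ℕ → Fin m), g ∈ Wgd (P j) ∧ Gdy (P j) k g g c ∧
        (∀ l < m - 1, bet (P j) c l g g + θ j < 1) ∧
        ∀ b a', g < a' → a' ≤ 1 → Pt g g ≤ PB j b ((List.range (m - 1)).map c, k) a' a' := by
  have h1 : ∀ᵐ g : ℝ, ∀ j, 0 < g → g < 1 → g ∈ Wgd (P j) := by
    refine ae_all_iff.2 fun j => ?_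
    have h2 := wgd_ae (hP j)
    rw [ae_restrict_iff' measurableSet_Ioo] at h2
    filter_upwards [h2] with g h3 h4 h5
    exact h3 ⟨h4, h5⟩
  filter_upwards [h1] with g hW hg0 hg1
  rintro ⟨a', ha, ha1, hD⟩
  obtain ⟨Q, hQ⟩ : ∃ Q, Q = Pt a' a' := ⟨_, rfl⟩
  obtain ⟨c, hc⟩ : ∃ c, c = 1 - Q - (r 1 - r Q) := ⟨_, rfl⟩
  rw [← hQ] at hD
  have hc0 : 0 < c := by linarith only [hc, hD]
  have ha0 : 0 < a' := hg0.trans ha
  have hQa : a' ≤ Q := by rw [hQ]; exact hPt.low () a' a' ha0.le le_rfl ha1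
  have hQ1 : Q ≤ 1 := by rw [hQ]; exact hPt.up () a' a' ha0.le le_rfl ha1
  have hrQ : r Q ≤ r 1 := hr ⟨by linarith only [hQa, ha0], hQ1⟩ ⟨zero_le_one, le_rfl⟩ hQ1
  have hQc : Q ≤ 1 - c := by linarith only [hc, hrQ]
  obtain ⟨j, hj⟩ := hθ0 c hc0
  obtain ⟨α, hα⟩ : ∃ α, α = (g + a') / 2 := ⟨_, rfl⟩
  have hα1 : g < α := by linarith only [hα, ha]
  have hα2 : α < a' := by linarith only [hα, ha]
  obtain ⟨hT1, hT2⟩ := hTop α a' Q c (by linarith only [hα1, hg0]) hα2 ha1 hQ.ge hc0 hc.le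
  have hPg : Pt g g ≤ Q := by
    rw [hQ]
    exact (hPt.law ()).mono hg0.le le_rfl ha.le ha.le le_rfl ha1
  obtain ⟨o, ho⟩ := gdy_ex (P j) k g g
  have hsg : 0 ≤ 1 - c := by linarith only [hQc, hQa, ha0]
  refine ⟨j, o, hW j hg0 hg1, ho, fun l hl => ?_, fun b x hx hx1 => ?_⟩
  · have h2 := ho.bd hne (hP j) (hθ j) hS hT1 (hα2.le.trans ha1) hsg (by linarith only [hj]) hg0
      le_rfl hα1 l hl
    linarith only [h2, hj]
  · have h2 := ho.diag hne (hP j) (hθ j) hS hPt hT1 hT2 (hα2.le.trans ha1)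
      (by linarith only [hj]) hQc hg0 hα1 hPg (hW j hg0 hg1)
      (fun i => hβ j b i g hg0 hg1) (hPB j b) x hx hx1
    have h3 : bet (PB j b) o (m - 1) x x = PB j b ((List.range (m - 1)).map o, k) x x := by
      unfold bet
      rw [ho.top]
    rw [h3] at h2
    refine le_trans (le_min ?_ ?_) h2
    · exact hPt.up () g g hg0.le le_rfl hg1.le
    · linarith only [hx]

end Pool.FRN
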