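import Pool.Agent.H9.GEN.AttC
import Pool.Agent.H9.GEN.DiaN
import Pool.Agent.H62.GEN.JatC
import Pool.Agent.H87.GEN.Pkg

/-!
# The labels at the good windows of a class

For a class with its numbers (`Pool.PKG.Pk`) and the facts at a good window `g` of an order
(`Pool.PKG.Fac`): the good pairs (`attN_att`), the order is greedy (`Fac.gdy`), the labels of the
last coordinate at the good pairs near `g` (`Fac.tgP`), the joint chains at finitely many good pairs
near `g` (`Fac.jatN`), and the diagonal (`Fac.diag`).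
-/

set_option autoImplicit false

namespace Pool.PKG

open MeasureTheory Set Filter Topology
open Pool.Agent.H49.Ent Pool.Agent.H32.Dense Pool.STK Pool.KA Pool.KSAT Pool.K2S Pool.PB
open Pool.GEN Pool.S6C Pool.STAT Pool.CHT Pool.GRW Pool.ONE Pool.STA
open Pool.LBT (LSys ThrOf)
open Pool.LBN (cof)
open Pool.ALL (RateOf)
open Pool.TOP (T1c T2c TopS)
open Pool.STR (AttN)
open Pool.FRN (AttC UpA Wgd Gdy attN_attC tgP_of')
open Pool.JTN (TgP Cen jatN_of)

variable {n : ℕ} {hn : 2 ≤ n} {S : PCl n} {P : ℝ → ℝ → ℝ} {r : ℝ → ℝ}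
  {P' : ℕ → List (Fin n) × Fin n → ℝ → ℝ → ℝ} {Λ : Finset (Fin n) → Fin n → ℝ → ℝ → ℝ}
  {o : Od n} {g α Q c : ℝ}

/-- **The good pairs**: almost all pairs on every line of direction `(1, 1)`. -/
theorem Pk.attN (H : Pk hn S P r P' Λ) (o : Od n) : AttN (AttC (P' o.2)) := attN_attC (H.cht o.2)

theorem cc_top (hn : 2 ≤ n) (σ : Equiv.Perm (Fin (n - 1))) : cc hn σ (n - 1) = lst hn :=
  cc_ge hn σ le_rfl

theorem cc_inj1 (hn : 2 ≤ n) (σ : Equiv.Perm (Fin (n - 1))) :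
    Set.InjOn (cc hn σ) (Set.Iio (n - 1)) :=
  (cc_inj hn σ).mono fun x hx => by
    rw [Set.mem_Iio] at hx ⊢
    omega

theorem cc_cov (hn : 2 ≤ n) (σ : Equiv.Perm (Fin (n - 1))) :
    ∀ i, i ≠ cc hn σ (n - 1) → ∃ j < n - 1, cc hn σ j = i := by
  rw [cc_top]
  intro i hi
  exact cc_all hn σ hi

theorem range_cc (hn : 2 ≤ n) (σ : Equiv.Perm (Fin (n - 1))) :
    (List.range (n - 1)).map (cc hn σ) = lis σ := by
  refine List.ext_getElem (by simp [lis]) fun i h1 h2 => ?_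
  have h3 : i < n - 1 := by simpa using h1
  rw [List.getElem_map, List.getElem_range, cc_lt hn σ h3]
  simp [lis]

/-- **The order is greedy.** -/
theorem Fac.gdy (F : Fac hn S P r P' o g α Q c) :
    Gdy (P' o.2) (lst hn) g g (cc hn o.1.1) where
  inj := cc_inj1 hn _
  ne l hl := cc_ne hn _ hl
  top := cc_top hn _
  gre l hl x hx hxl := by
    obtain ⟨i, hi, rfl⟩ := cc_all hn o.1.1 hx
    have hli : l ≤ i := by
      by_contra hcon
      exact hxl i (by omega) rfl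
    exact F.gre i hi l hli

theorem Fac.gα' (F : Fac hn S P r P' o g α Q c) : 0 < α := F.g0.trans F.gα

theorem Fac.c1 (F : Fac hn S P r P' o g α Q c) : 0 < 1 - c := F.Q0.trans_le F.Q1

theorem Fac.vis (F : Fac hn S P r P' o g α Q c) : 1 - c + tht o.2 < 1 := by
  have := F.thc
  linarith

/-- **The labels of the last coordinate** at the good pairs below `α`. -/
theorem Fac.tgP (F : Fac hn S P r P' o g α Q c) (H : Pk hn S P r P' Λ) {a w : ℝ} (hw : 0 < w)
    (hwa : w ≤ a) (ha : a < α) (haw : (a, w) ∈ AttC (P' o.2)) :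
    TgP S (cc hn o.1.1) (n - 1) (P a w) a w (1 - c) := by
  have h1 : ThrOf (tgs (cc hn o.1.1 (n - 1))) S (fun _ => P) := by
    rw [cc_top]
    exact H.tgs
  have h2 : T1c S (cc hn o.1.1 (n - 1)) α (1 - c) := by
    rw [cc_top]
    exact F.t1
  have h3 : T2c S (cc hn o.1.1 (n - 1)) α Q (1 - c) := by
    rw [cc_top]
    exact F.t2
  exact tgP_of' H.ne (H.cht o.2) (tht_pos _) H.tmh (cc_cov hn _) h1 h2 h3 F.α1 F.vis F.Q1 hw hwa ha
    (F.PQ a w hw hwa ha) haw.1 haw.2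

/-- **The facts at the centre.** -/
theorem Fac.cen (F : Fac hn S P r P' o g α Q c) {E : ℝ} (hE0 : 0 < E) (hE : 1 - c < E + P g g) :
    Cen (P' o.2) (tht o.2) (cc hn o.1.1) (n - 1) P g (1 - c) E where
  x0 := F.g0
  x1 := F.g1
  con i _ l _ := F.con _
  conQ := F.conP
  gre i hi l hl := F.gre i hi l hl.le
  vis i hi := by
    have h1 := F.le i hi g g F.g0 le_rfl F.gα
    have h2 : tht o.2 * g ≤ tht o.2 := mul_le_of_le_one_right (tht_pos _).le F.g1.le
    have h3 := F.thc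
    linarith
  E0 := hE0
  top := Or.inl hE

/-- **The joint chains** at finitely many good pairs near `g`. -/
theorem Fac.jatN (F : Fac hn S P r P' o g α Q c) (H : Pk hn S P r P' Λ) {E : ℝ} (hE0 : 0 < E)
    (hE : 1 - c < E + P g g) : ∃ ρ₀ : ℝ, 0 < ρ₀ ∧ ∀ ρ : ℝ, ρ ≤ ρ₀ →
      Pool.TRC.JatN S (cc hn o.1.1) (n - 1) (fun l => LL hn P P' o (l + 1)) g (AttC (P' o.2)) ρ
        E := by
  have hlow : ∀ l < n - 1, LL hn P P' o (l + 1) = bet (P' o.2) (cc hn o.1.1) l := fun l hl => by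
    rw [LL_low (by omega) (by omega), Nat.add_sub_cancel]
  have hlst : LL hn P P' o (n - 1 + 1) = P := LL_lst
  have hα := F.gα
  refine jatN_of (S := S) (θ := tht o.2) (P := P' o.2) H.ne (H.cht o.2) (tht_pos _) H.tmh
    (cc_inj1 hn _) (β := fun l => LL hn P P' o (l + 1)) hlow ?_ ?_ (x := g) (sg := 1 - c) ?_
    (fun a w haw _ _ ha1 => ⟨fun i _ l _ => haw.1.rc ha1 _ l i, fun i _ => haw.1.up _ i⟩)
    (ρT := (α - g) / 2) (by linarith) ?_
  · show Pool.LEV.Law (LL hn P P' o (n - 1 + 1))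
    rw [hlst]
    exact H.tgs.law ()
  · intro a w hw hwa ha1
    show a ≤ LL hn P P' o (n - 1 + 1) a w
    rw [hlst]
    exact H.tgs.low () a w hw.le hwa ha1
  · show Cen _ _ _ _ (LL hn P P' o (n - 1 + 1)) g (1 - c) E
    rw [hlst]
    exact F.cen hE0 hE
  · intro a w haw hw hwa ha1 hag _
    show TgP S _ _ (LL hn P P' o (n - 1 + 1) a w) a w (1 - c)
    rw [hlst]
    refine F.tgP H hw hwa ?_ haw
    have := (abs_le.1 hag).2
    linarith

/-- **The diagonal**: over the list of the order, with sides of any shape. -/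
theorem Fac.diag (F : Fac hn S P r P' o g α Q c) (H : Pk hn S P r P' Λ) (hg : g ∈ Wgd (P' o.2))
    {β PB : List (Fin n) × Fin n → ℝ → ℝ → ℝ} (hβ : ∀ i, β i g g = P' o.2 i g g)
    (hPB : ThrOf (Pool.CHB.chsysB n none β) S PB) {a' : ℝ} (ha : g < a') (ha1 : a' ≤ 1) :
    P g g ≤ PB (lis o.1.1, lst hn) a' a' := by
  have h1 := F.gdy.diag H.ne (H.cht o.2) (tht_pos _) H.tmh H.tgs F.t1 F.t2 F.α1 F.vis F.Q1 F.g0
    F.gα (F.PQ g g F.g0 le_rfl F.gα) hg hβ hPB a' ha ha1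
  have h2 : bet PB (cc hn o.1.1) (n - 1) a' a' = PB (lis o.1.1, lst hn) a' a' := by
    unfold bet
    rw [range_cc, cc_top]
  rw [h2] at h1
  refine le_trans (le_min ?_ ?_) h1
  · exact H.tgs.up () g g F.g0.le le_rfl F.g1.le
  · linarith

/-- Almost every window is good. -/
theorem Pk.wgd (H : Pk hn S P r P' Λ) : ∀ᵐ g : ℝ, 0 < g → g < 1 → ∀ j, g ∈ Wgd (P' j) := by
  have h1 : ∀ᵐ g : ℝ, ∀ j, 0 < g → g < 1 → g ∈ Wgd (P' j) := by
    refine ae_all_iff.2 fun j => ?_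
    have h2 := Pool.FRN.wgd_ae (H.cht j)
    rw [ae_restrict_iff' measurableSet_Ioo] at h2
    filter_upwards [h2] with g h3 h4 h5
    exact h3 ⟨h4, h5⟩
  filter_upwards [h1] with g h2 h3 h4 j
  exact h2 j h3 h4

end Pool.PKG
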