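import Pool.Agent.H9.GEN.For
import Pool.Agent.H60.ZCL.BTail

/-!
# Good points of a class

`GPt S c r β a w`: at the point `(a, w)` the class has, on a part of every member, a chain of
two-sided labels of the coordinates `c 0, …, c (r - 1)` with the precisions `β`, with small
gradients, without relations.
-/

set_option autoImplicit false

namespace Pool.FRN

open Finset Real MvPolynomial
open Pool.Agent.H49.Ent Pool.Agent.H32.Dense Pool.STK Pool.KA Pool.KSAT Pool.K2S Pool.PB Pool.S6C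
open Pool.GEN

variable {m : ℕ}

/-- **A good point.** -/
def GPt (S : PCl m) (c : ℕ → Fin m) (r : ℕ) (β : ℕ → ℝ) (a w : ℝ) : Prop :=
  ∀ (D : ℕ) (η : ℝ), 0 < η → ∃ (Kc : ℕ) (K₁ : ℝ), 0 < K₁ ∧ ∀ κ η' : ℝ, 0 < κ → 0 < η' →
    Bas S (fun J F A => ∃ (B : F.Ω → Prop) (q : ℕ → ℕ)
      (G : PtT F → ℕ → MvPolynomial (Option (Fin m)) ℝ)
      (H : LnT F → ℕ → MvPolynomial (Option (Fin m)) ℝ), Sub B A ∧
      Pe F.p A ≤ K₁ * Pe F.p B ∧ (∀ l < r, |(q l : ℝ) - β l * J| ≤ η * J) ∧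
      ChOK F c r (fun _ => Kc) ⌊a * J⌋₊ ⌊w * J⌋₊ ⌊η * J⌋₊ q B G H ∧
      Relv F c r ⌊a * J⌋₊ ⌊w * J⌋₊ q B G D ⌈η * J⌉₊ κ η')

theorem GPt.sub {S S' : PCl m} {c : ℕ → Fin m} {r : ℕ} {β : ℕ → ℝ} {a w : ℝ}
    (h : GPt S c r β a w) (hs : ∀ (τ : ℝ) (J : ℕ) (F : Fam m J) (A : F.Ω → Prop),
      S'.St τ J F A → S.St τ J F A) : GPt S' c r β a w := by
  intro D η hη
  obtain ⟨Kc, K₁, h1, h2⟩ := h D η hη
  exact ⟨Kc, K₁, h1, fun κ η' h3 h4 => Bas.sub hs (h2 κ η' h3 h4)⟩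

end Pool.FRN
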