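import Pool.Agent.H9.GEN.Dia
import Pool.Agent.H2.GEN.AttK

/-!
# The thresholds of the coordinates of the order on the diagonal

`Gdy.diagl`: at almost every window below a row which is not full, the number of the coordinate `l`
of the greedy order is at most its threshold over the list of the preceding coordinates, for labels
with gradients of any size, with sides at least those of the chains, at all larger windows.
-/

set_option autoImplicit false

namespace Pool.FRN

open Finset Real MvPolynomial MeasureTheory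
open Pool.Agent.H49.Ent Pool.Agent.H32.Dense Pool.STK Pool.KA Pool.KSAT Pool.K2S Pool.PB Pool.S6C
open Pool.GEN
open Pool.LBT (ThrOf)
open Pool.ONE (tgs)
open Pool.CHT (TmH chsys bet tau Up1 Rc Pts Ptq bas_ev jatt)
open Pool.TOP (T1c T2c t1n)
open Pool.CHB (chsysB no_B)

variable {m J : ℕ} {θ : ℝ} {S : PCl m} {P : List (Fin m) × Fin m → ℝ → ℝ → ℝ}

/-- **The diagonal of a coordinate of the order.** -/
theorem Gdy.diagl {k : Fin m} {v : ℝ} {c : ℕ → Fin m} (h : Gdy P k v v c) (hne : S.Ne)
    (hP : ThrOf (chsys m θ) S P) (hθ : 0 < θ) (hS : TmH S) {α sg : ℝ} (hT1 : T1c S k α sg)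
    (hα : α ≤ 1) (hsg : 0 ≤ sg) (hsgθ : sg + θ < 1) (hv : 0 < v) (hvα : v < α) (hwd : v ∈ Wgd P)
    {β PB : List (Fin m) × Fin m → ℝ → ℝ → ℝ} (hβ : ∀ i, β i v v = P i v v)
    (hPB : ThrOf (chsysB m none β) S PB) {l : ℕ} (hl : l < m - 1) :
    ∀ a', v < a' → a' ≤ 1 → min 1 (bet P c l v v + (a' - v)) ≤ bet PB c l a' a' := by
  have hv1 : v < 1 := hvα.trans_le hα
  have hsg1 : sg < 1 := by linarith
  have hup : UpA P v v := Wgd.self hwd hv1
  have hbd := h.bd hne hP hθ hS hT1 hα hsg hsgθ hv le_rfl hvα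
  have hθv : 0 < θ * v := mul_pos hθ hv
  have hptq : Ptq S P θ c (m - 1) 1 (fun _ => v) (fun _ => v) (fun _ => 0) (fun _ => θ * v / 2) := by
    refine Ptq.of_up hne hP hθ hS h.inj (fun _ _ => le_rfl) (fun _ _ => by positivity)
      (fun _ _ => hv) (fun _ _ => le_rfl) (fun _ _ => hv1) (fun _ _ => ?_)
      (fun _ _ i _ l _ => hup.rc hv1 c l i) (fun _ _ i _ => hup.up c i) (fun _ _ i hi => ?_)
      fun _ _ i hi l hl => ?_
    · linarith only [hθv]
    · have h4 := hbd i hi
      have h5 : θ * v ≤ θ * 1 := mul_le_mul_of_nonneg_left hv1.le hθ.le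
      linarith only [h4, h5, hsgθ]
    · rw [add_zero]
      exact h.tau hi hl
  have hpts : Pts S P θ c (m - 1) 1 (fun _ => v) (fun _ => v) 0 (θ * v / 2) :=
    ⟨hptq.pos, hptq.wa, hptq.lt, hptq.rc, hptq.vis, hptq.gre, hptq.srt, hptq.rel⟩
  -- rational windows
  have hrat : ∀ (a' : ℚ), v ≤ a' → a' ≤ 1 → ∀ φ : ℝ, 0 < φ →
      min 1 (bet P c l v v + (a' - v)) - φ ≤ bet PB c l a' a' := by
    intro a' ha ha1 φ hφ
    obtain ⟨K, d, δ, K₁, hK₁, -, hd, -, hb⟩ := jatt hP hθ hS h.inj le_rfl hpts (m - 1) le_rfl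
      (fun _ _ => φ) (fun _ _ => hφ) (θ * v / 2) (by rw [mul_zero]; positivity) le_rfl
    obtain ⟨μ, hμ, hμd⟩ : ∃ μ : ℝ, 0 < μ ∧ ∀ l < m - 1, μ ≤ d l := by
      obtain ⟨l₀, hl₀, hmin⟩ := Finset.exists_min_image (range (m - 1)) d
        ⟨0, mem_range.2 (by omega)⟩
      exact ⟨d l₀, (hd l₀ (mem_range.1 hl₀)).1, fun l hl => hmin l (mem_range.2 hl)⟩
    have h1 := le_Bs hne hPB c l K (a := v) (w := v) (a' := a') (w' := a')
      (δ := μ) (q := bet P c l v v - d l) hK₁ hv.le le_rfl ha ha le_rfl ha1 hμ (by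
        refine hb.mono 0 ?_
        rintro J - F A ⟨B, G, H, k1, k2, k3⟩
        have hJ0 : (0 : ℝ) ≤ J := Nat.cast_nonneg J
        refine ⟨B, k1, k2, _, _, fun i hi => ?_, fun i hi => ?_, ?_,
          ⟨G 0, H 0, (k3.ok 0 one_pos).mono (show l + 1 ≤ m - 1 by omega) (fun _ => le_rfl) le_rfl
            le_rfl⟩⟩
        · refine Pool.LBT.fl_le' ?_ J
          have k4 := (hd i (by omega)).1
          have k5 := hbd i (by omega)
          linarith only [k4, k5, hsg1]
        · have e1 : bet β c i v v = bet P c i v v := hβ _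
          rw [e1]
          have k6 := hμd i (by omega)
          rcases le_or_gt 0 (bet P c i v v - d i) with h5 | h5
          · refine (Nat.floor_le (mul_nonneg h5 hJ0)).trans (le_max_of_le_right ?_)
            exact mul_le_mul_of_nonneg_right (by linarith only [k6]) hJ0
          · rw [Nat.floor_of_nonpos (mul_nonpos_of_nonpos_of_nonneg h5.le hJ0), Nat.cast_zero]
            exact le_max_left _ _
        · exact (Nat.lt_floor_add_one _).le)
    have h2 := (hd l hl).2
    refine le_trans ?_ h1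
    rw [sub_le_iff_le_add, ← min_add_add_right]
    refine le_min ((min_le_left _ _).trans (by linarith only [hφ])) ((min_le_right _ _).trans ?_)
    linarith only [h2]
  -- real windows
  intro a' ha ha1
  refine le_of_forall_pos_le_add fun ε hε => ?_
  obtain ⟨x, hx1, hx2⟩ := exists_rat_btwn (show max v (a' - ε / 2) < a' from
    max_lt ha (by linarith only [hε]))
  have hx3 : v ≤ x := ((le_max_left _ _).trans_lt hx1).le
  have hx4 : a' - ε / 2 ≤ x := ((le_max_right _ _).trans_lt hx1).le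
  have hx5 : (x : ℝ) ≤ 1 := hx2.le.trans ha1
  have h1 := hrat x hx3 (by exact_mod_cast hx5) (ε / 2) (by linarith only [hε])
  have h2 : bet PB c l x x ≤ bet PB c l a' a' :=
    (hPB.law _).mono (hv.le.trans hx3) le_rfl hx2.le hx2.le le_rfl ha1
  have h3 : min 1 (bet P c l v v + (a' - v)) ≤ min 1 (bet P c l v v + (x - v)) + ε / 2 := by
    rw [← min_add_add_right]
    refine le_min ((min_le_left _ _).trans (by linarith only [hε])) ((min_le_right _ _).trans ?_)
    linarith only [hx4]
  linarith only [h1, h2, h3]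

end Pool.FRN
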