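import Pool.Agent.H9.GEN.PBle
import Pool.Agent.H90.ISO.StA

/-!
# The thresholds over the fattest boxes are at most the natural thresholds

`PkT.pble`: the literal `PBle` of a class with the thresholds over the fattest boxes.
-/

set_option autoImplicit false

namespace Pool.PKG

open Pool.Agent.H49.Ent Pool.Agent.H32.Dense Pool.STK Pool.KA Pool.KSAT Pool.K2S Pool.PB Pool.S6C
open Pool.GEN Pool.CHT Pool.GRW Pool.PBL
open Pool.ISO (PtD)

variable {n : ℕ} {hn : 2 ≤ n} {S : PCl n} {P : ℝ → ℝ → ℝ} {r : ℝ → ℝ}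
  {P' : ℕ → List (Fin n) × Fin n → ℝ → ℝ → ℝ} {Λ : Finset (Fin n) → Fin n → ℝ → ℝ → ℝ}
  {PB : ℕ → List (Fin n) × Fin n → ℝ → ℝ → ℝ}

/-- **The thresholds over the fattest boxes are at most the natural thresholds**, at the pairs with
path data. -/
theorem PkT.pble (H : PkT hn S P r P' Λ PB) : PBle hn S P P' PB := by
  intro o i hi a w ρ vs e E c S₀ Q' h he
  refine thrB_le H.ne (H.cht o.2) (H.thb o.2) (tht_pos o.2) H.tmh (cc_inj1 hn _) (ptC_of h)
    (fun l hl => ?_) hi
  have h1 := h.self.pts.vis 0 one_pos l hl l le_rfl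
  change bet (P' o.2) (cc hn o.1.1) l a w + tht o.2 * w < 1 at h1
  linarith

end Pool.PKG
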