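import Pool.Agent.H9.GEN.Tgs1
import Pool.Agent.H2.GEN.AttG

/-!
# The target on the top of the chain of a good point, in a class

`StC`: no steep closed labels of the target, in a class. `Inc`: an incoming label of the target.
`OutS`: the target on the top. `pt_core`: from `Inc` to `OutS` at a good point.
-/

set_option autoImplicit false

namespace Pool.FRN

open Finset Real MvPolynomial
open Pool.Agent.H49.Ent Pool.Agent.H32.Dense Pool.STK Pool.KA Pool.KSAT Pool.K2S Pool.PB Pool.S6C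
open Pool.GEN

variable {m J : ℕ}

/-- **No steep closed labels** of the coordinate `k`, closed at the windows `2 ^ (-α J)`, of
precisions at most `2 ^ (-Q J)`: the precision and the own gradient have at most `sg J` digits. -/
def StC (S : PCl m) (k : Fin m) (α Q sg : ℝ) : Prop :=
  ∀ (K : ℕ) (ε : ℝ), 0 < ε →
    Bas S (fun J F A => Stp F k ⌊α * J⌋₊ ⌊Q * J⌋₊ K ⌈(sg + ε) * J⌉₊ A)

/-- **An incoming label** of the coordinate `k` on the natural boxes over the coordinates `c`: it is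
two-sided if there are no relations. -/
def Inc (F : Fam m J) (k : Fin m) (c : ℕ → Fin m) (r a w K L₁ u P : ℕ) (ρ κ κ₀ : ℝ)
    (A : F.Ω → Prop) : Prop :=
  ∀ (B₀ : F.Ω → Prop) (q : ℕ → ℕ) (G : PtT F → ℕ → MvPolynomial (Option (Fin m)) ℝ) (h : ℕ),
    Sub B₀ A → κ₀ * Pe F.p A ≤ Pe F.p B₀ → 0 < Pe F.p B₀ →
    Relv F c r a w q B₀ G K h κ (1 / 2) →
    ∃ (B₁ : F.Ω → Prop) (Gt : PtT F → MvPolynomial (Option (Fin m)) ℝ)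
      (Ht : LnT F → MvPolynomial (Option (Fin m)) ℝ), Sub B₁ B₀ ∧ ρ * Pe F.p B₀ ≤ Pe F.p B₁ ∧
      (∀ y, (Gt y).totalDegree ≤ K) ∧ (∀ s, (Ht s).totalDegree ≤ K) ∧
      (∀ y, DepC c r (Gt y)) ∧ (∀ s, DepC c r (Ht s)) ∧
      (∀ ω, B₁ ω → |F.x ω k - eval (bt F ω) (Gt (ptr F J ω))| ≤ 2 ^ (L₁ * (h + u + 1)) / 2 ^ P) ∧
      ∀ ω, B₁ ω → ∀ b, NBx c (G (ptr F J ω)) q a (F.t ω) r b →
        |eval b (Gt (ptr F J ω)) - eval b (Ht (slam F w ω))| ≤ 2 ^ (L₁ * (h + u + 1)) / 2 ^ P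

/-- **The target on the top** of a chain of the coordinates `c`, with the precision `2 ^ (-p)`; all
the labels are visible up to `E`. -/
def OutS (c : ℕ → Fin m) (r : ℕ) (k : Fin m) (K : ℕ) (a w E : ℝ) (p : ℕ) : Stat m :=
  fun J F A => ∃ (e : ℕ) (g : ℕ → ℕ) (G : PtT F → ℕ → MvPolynomial (Option (Fin m)) ℝ)
    (H : LnT F → ℕ → MvPolynomial (Option (Fin m)) ℝ),
    ChOK F (fun l => if l < r then c l else k) (r + 1) (fun _ => K) ⌊a * J⌋₊ ⌊w * J⌋₊ e g A G H ∧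
      g r = p ∧ ∀ l ≤ r, ((e + g l : ℕ) : ℝ) ≤ E * J

/-- **At a good point** of a class. -/
theorem pt_core {S : PCl m} (hS : Pool.CHT.TmH S) {k : Fin m} {c : ℕ → Fin m} {r : ℕ}
    {β : ℕ → ℝ} {α ω₀ Q sg : ℝ} (hω : 0 < ω₀) (hωα : ω₀ ≤ α) (hα : α < 1)
    (hinj : Set.InjOn c (Set.Iio r)) (hck : ∀ l < r, c l ≠ k) (hβ : ∀ l < r, β l ≤ sg)
    (hsort : ∀ i < r, ∀ l ≤ i, β l ≤ β i) (hQ0 : 0 ≤ Q) (hQ : Q ≤ sg) (hG : GPt S c r β α ω₀)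
    (hT : StC S k α Q sg) {K L₁ : ℕ} {ρ κ : ℝ} (hρ : 0 < ρ) (hκ : 0 < κ)
    (Φ : ∀ (J : ℕ) (F : Fam m J), (F.Ω → Prop) → ℕ → Prop)
    (hΦ : ∀ κ₀ εu : ℝ, 0 < κ₀ → 0 < εu → Bas S (fun J F A => ∀ P : ℕ, Φ J F A P →
      ∃ u : ℕ, (u : ℝ) ≤ εu * J ∧ Inc F k c r ⌊α * J⌋₊ ⌊ω₀ * J⌋₊ K L₁ u P ρ κ κ₀ A))
    {ε lam : ℝ} (hε : 0 < ε) (hlam : 0 < lam) : ∃ (K' : ℕ) (K₁ : ℝ), 0 < K₁ ∧
      Bas S (fun J F A => ∀ P : ℕ, lam * J ≤ P → (P : ℝ) ≤ Q * J → Φ J F A P →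
        ∃ (B : F.Ω → Prop) (p' : ℕ), Sub B A ∧ Pe F.p A ≤ K₁ * Pe F.p B ∧ p' ≤ P ∧
          (P : ℝ) ≤ p' + ε * J ∧ OutS c r k K' α ω₀ (sg + ε) p' J F B) := by
  have hα0 : 0 < α := hω.trans_le hωα
  have hsg : 0 ≤ sg := hQ0.trans hQ
  obtain ⟨η, hη⟩ : ∃ η : ℝ, η = min (ε / (8 * (3 * r + 8))) (min ε lam / (4 * (L₁ + 1))) :=
    ⟨_, rfl⟩
  have hη0 : 0 < η := by
    rw [hη]
    exact lt_min (by positivity) (div_pos (lt_min hε hlam) (by positivity))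
  have hη1 : η * (8 * (3 * r + 8)) ≤ ε := by
    rw [← le_div_iff₀ (by positivity), hη]
    exact min_le_left _ _
  have hη2 : η * (4 * (L₁ + 1)) ≤ min ε lam := by
    rw [← le_div_iff₀ (by positivity), hη]
    exact min_le_right _ _
  have hη3 : η * (4 * (L₁ + 1)) ≤ ε := hη2.trans (min_le_left _ _)
  have hη4 : η * (4 * (L₁ + 1)) ≤ lam := hη2.trans (min_le_right _ _)
  obtain ⟨Kc, K₁, hK₁, hG⟩ := hG K η hη0
  obtain ⟨K'', L, hK'', htop⟩ := top_fam r K Kc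
  obtain ⟨κ₂, hκ₂⟩ : ∃ κ₂ : ℝ, κ₂ = 1 / (2 * ((r + 1) * K'')) := ⟨_, rfl⟩
  have hK''0 : (0 : ℝ) < K'' := by
    have : 0 < K'' := by omega
    exact_mod_cast this
  have hκ₂0 : 0 < κ₂ := by rw [hκ₂]; positivity
  have hκ₂1 : κ₂ * (r * K'') ≤ 1 / 2 := by
    rw [hκ₂, div_mul_eq_mul_div, div_le_iff₀ (by positivity)]
    linarith only [hK''0]
  obtain ⟨κ₁, hκ₁⟩ : ∃ κ₁ : ℝ, κ₁ = min κ ((1 / 2) ^ (r + 1) * ρ) := ⟨_, rfl⟩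
  have hκ₁0 : 0 < κ₁ := by rw [hκ₁]; exact lt_min hκ (by positivity)
  obtain ⟨J₁, hJ₁⟩ := Pool.CHT.big ((2 * L₁ + L : ℕ) : ℝ) (show 0 < lam / 2 by positivity)
  obtain ⟨J₂, hJ₂⟩ := Pool.CHT.big ((2 * L₁ + 5 + 2 * L + 3 * (r + 1) : ℕ) : ℝ)
    (show 0 < ε / 8 by positivity)
  refine ⟨max K Kc, K₁ * (2 ^ (r + 1) / ρ), by positivity, ?_⟩
  refine Bas.mono (max J₁ J₂) (((hG κ₁ (1 / 2) hκ₁0 (by norm_num)).and
    (hΦ (1 / K₁) η (by positivity) hη0)).and ((Pool.CHT.bas_ev (hT K'' (ε / 4) (by positivity))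
      (κ := κ₂ * ρ / K₁) (by positivity)).and
      (⟨1, one_pos, 0, fun J _ F A hA => hS.1 1 J F A hA⟩ : Bas S (fun _ F A => 0 < Pe F.p A)))) ?_
  rintro J hJ F A ⟨⟨⟨B₀, q, G, H, h1, h2, h3, h4, h5⟩, hIn⟩, hSt, hPA⟩ P hP1 hP2 hφ
  have hJ0 : (0 : ℝ) ≤ J := Nat.cast_nonneg J
  have b1 := hJ₁ J ((le_max_left _ _).trans hJ)
  have b2 := hJ₂ J ((le_max_right _ _).trans hJ)
  push_cast at b1 b2
  obtain ⟨u, hu, hIn⟩ := hIn P hφ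
  have hPB₀ : 0 < Pe F.p B₀ := by
    by_contra hcon
    have h6 : K₁ * Pe F.p B₀ ≤ 0 := mul_nonpos_of_nonneg_of_nonpos hK₁.le (not_lt.1 hcon)
    linarith only [h6, h2, hPA]
  have hκR : Relv F c r ⌊α * J⌋₊ ⌊ω₀ * J⌋₊ q B₀ G K ⌈η * J⌉₊ κ (1 / 2) :=
    h5.sub (fun _ h => h) (mul_le_mul_of_nonneg_right (by rw [hκ₁]; exact min_le_left _ _)
      hPB₀.le) le_rfl le_rfl le_rfl
  obtain ⟨B₁, Gt, Ht, k1, k2, k3, k4, k5, k6, k7, k8⟩ := hIn B₀ q G ⌈η * J⌉₊ h1 (by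
    rw [div_mul_eq_mul_div, one_mul, div_le_iff₀ hK₁]
    linarith only [h2]) hPB₀ hκR
  obtain ⟨n1, n2⟩ := num_q hβ hsort h3
  obtain ⟨m1, m2, m3, m4, m5, m6⟩ := num_pt (r := r) (L₁ := L₁) (L := L) (J := J) (u := u)
    (P := P) hη0 hη1 hη3 hη4 hQ rfl rfl rfl hsg rfl rfl b1 b2 hu hP1 hP2
  obtain ⟨x, hx⟩ : ∃ x : ℕ, x = L₁ * (⌈η * J⌉₊ + u + 1) := ⟨_, rfl⟩
  rw [← hx] at m1 m2 k7 k8
  rw [pow_sub_le (by omega : x ≤ P)] at k7 k8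
  obtain ⟨B, e', c1, c2, c3, c4⟩ := htop (κ := κ₂) (κ' := κ₁) (ρ := ρ) (D := K)
    (Q := ⌈(sg + η) * J⌉₊) (Qn := ⌊Q * J⌋₊) (σ := ⌈(sg + ε / 4) * J⌉₊ + L) (p := P - x)
    (ν := ⌈2 * η * J⌉₊) hinj hck
    (Nat.floor_le_floor (mul_le_mul_of_nonneg_right hωα hJ0))
    (Pool.LBT.fl_le' hα.le J) le_rfl h4 n1 n2 h5 hρ.le (by rw [hκ₁]; exact min_le_right _ _)
    k1 k2 k3 k4 k5 k6 k7 k8 hκ₂1 (by omega)
    ((Nat.sub_le _ _).trans (Nat.le_floor hP2)) (by omega) m4 (fun B' d1 d2 => by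
      rw [Nat.add_sub_cancel]
      refine hSt B' (fun ω h => h1 ω (k1 ω (d1 ω h))) ?_
      have h6 : ρ * (Pe F.p A / K₁) ≤ Pe F.p B₁ :=
        (mul_le_mul_of_nonneg_left (by rw [div_le_iff₀ hK₁]; linarith only [h2]) hρ.le).trans k2
      calc κ₂ * ρ / K₁ * Pe F.p A = κ₂ * (ρ * (Pe F.p A / K₁)) := by ring
        _ ≤ κ₂ * Pe F.p B₁ := mul_le_mul_of_nonneg_left h6 hκ₂0.le
        _ ≤ _ := d2)
  refine ⟨B, P - x, fun ω hω => h1 ω (k1 ω (c1 ω hω)), ?_, Nat.sub_le _ _, m2, e', _, _, _, c3,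
    if_neg (lt_irrefl r), fun l hl => ?_⟩
  · have h6 : ρ * Pe F.p B₀ ≤ 2 ^ (r + 1) * Pe F.p B := by
      have h7 : (2 : ℝ) ^ (r + 1) * ((1 / 2) ^ (r + 1) * Pe F.p B₁) = Pe F.p B₁ := by
        rw [← mul_assoc, ← mul_pow]
        norm_num
      calc ρ * Pe F.p B₀ ≤ Pe F.p B₁ := k2
        _ = 2 ^ (r + 1) * ((1 / 2) ^ (r + 1) * Pe F.p B₁) := h7.symm
        _ ≤ _ := mul_le_mul_of_nonneg_left c2 (by positivity)
    calc Pe F.p A ≤ K₁ * Pe F.p B₀ := h2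
      _ = K₁ * ((ρ * Pe F.p B₀) / ρ) := by field_simp
      _ ≤ K₁ * ((2 ^ (r + 1) * Pe F.p B) / ρ) :=
          mul_le_mul_of_nonneg_left (div_le_div_of_nonneg_right h6 hρ.le) hK₁.le
      _ = _ := by ring
  · have h8 : max (⌈(sg + ε / 4) * J⌉₊ + L + 1) (max ⌈(sg + η) * J⌉₊ (P - x)) ≤
        ⌈(sg + ε / 4) * J⌉₊ + L + 1 :=
      max_le le_rfl (max_le (by omega) (by omega))
    have h9 := (c4 l hl).trans (Nat.add_le_add_left h8 _)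
    refine le_trans ?_ m6
    exact_mod_cast h9

end Pool.FRN
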