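import Pool.Agent.H9.GEN.Tgs2
import Pool.Agent.H39.GEN.LabN
import Pool.Agent.H62.GN.For

/-!
# Incoming labels

`inc_mem`: a label of the target over any list, with larger sides, is an incoming label at the
natural boxes over all the other coordinates.
`inc_up`: the label of the target on the top of a chain, with larger sides, is an incoming label; it
is recentred.
-/

set_option autoImplicit false

namespace Pool.FRN

open Finset Real MvPolynomial
open Pool.Agent.H49.Ent Pool.Agent.H32.Dense Pool.STK Pool.KA Pool.KSAT Pool.K2S Pool.PB Pool.S6C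
open Pool.GEN
open Pool.LBN (cof cof_lt cof_ge cof_len)
open Pool.RCT (coarse coarse_at for_lab)
open Pool.FLF (Fam.sub)

variable {m J : ℕ}

theorem length_le {k : Fin m} {c : ℕ → Fin m} {r : ℕ} {l : List (Fin m)}
    (hc : ∀ i, i ≠ k → ∃ j < r, c j = i) (hl : l.Nodup) (hk : k ∉ l) : l.length ≤ r := by
  classical
  have h1 : l.toFinset ⊆ (range r).image c := by
    intro i hi
    rw [List.mem_toFinset] at hi
    obtain ⟨j, hj, rfl⟩ := hc i fun h => hk (h ▸ hi)
    exact mem_image.2 ⟨j, mem_range.2 hj, rfl⟩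
  calc l.length = l.toFinset.card := (List.toFinset_card_of_nodup hl).symm
    _ ≤ ((range r).image c).card := Finset.card_le_card h1
    _ ≤ (range r).card := Finset.card_image_le
    _ = r := card_range r

theorem cof_inj {k : Fin m} {l : List (Fin m)} (hl : l.Nodup) (hk : k ∉ l) :
    Set.InjOn (cof l k) (Set.Iio (l.length + 1)) := by
  intro i hi j hj h
  have hi' : i < l.length + 1 := hi
  have hj' : j < l.length + 1 := hj
  rcases Nat.lt_or_ge i l.length with h1 | h1 <;> rcases Nat.lt_or_ge j l.length with h2 | h2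
  · rw [cof_lt h1, cof_lt h2] at h
    exact (hl.getElem_inj_iff).1 h
  · rw [cof_lt h1, cof_ge h2] at h
    exact absurd (h ▸ List.getElem_mem h1) hk
  · rw [cof_ge h1, cof_lt h2] at h
    exact absurd (h.symm ▸ List.getElem_mem h2) hk
  · omega

/-- **Labels over any list.** -/
theorem inc_mem (r K' : ℕ) : ∃ L : ℕ, ∀ {m J : ℕ} {F : Fam m J} {c : ℕ → Fin m} {k : Fin m}
    {l : List (Fin m)} {a w a₀ w₀ e P : ℕ} {g : ℕ → ℕ} {A : F.Ω → Prop} {κ₀ : ℝ},
    (∀ i, i ≠ k → ∃ j < r, c j = i) → l.Nodup → k ∉ l → a₀ ≤ a → w₀ ≤ w → w ≤ J →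
    P ≤ g l.length → ChN F (cof l k) (l.length + 1) (fun _ => K') a₀ w₀ e g A →
    Inc F k c r a w (max K' 1) L 0 P ((1 / 2) ^ (r + 1)) ((1 / 2) ^ (r + 1)) κ₀ A := by
  obtain ⟨L, hL⟩ := foreign r K'
  refine ⟨L, ?_⟩
  intro m J F c k l a w a₀ w₀ e P g A κ₀ hc hl hk ha hw hwJ hP hch B₀ q G h hB _ hPB hR
  obtain ⟨G', H', hch⟩ := hch
  have hlr := length_le hc hl hk
  have hlist : ∀ i < l.length, ∃ j < r, cof l k i = c j := by
    intro i hi
    rw [cof_lt hi]
    obtain ⟨j, hj, h1⟩ := hc l[i] fun h => hk (h ▸ List.getElem_mem hi)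
    exact ⟨j, hj, h1.symm⟩
  have hle : ((1 : ℝ) / 2) ^ (r + 1) ≤ (1 - 1 / 2) ^ l.length := by
    have e1 : (1 : ℝ) - 1 / 2 = 1 / 2 := by norm_num
    rw [e1]
    exact pow_le_pow_of_le_one (by norm_num) (by norm_num) (by omega)
  have hch' := hch.sub hB
  obtain ⟨B, b1, b2, b3⟩ := hL (D := max K' 1) hlr
    ((cof_inj hl hk).mono fun i hi => Nat.lt_succ_of_lt hi) hlist ha hw hwJ le_rfl
    (by norm_num) (by norm_num) hle hR hch'
  refine ⟨B, fun y => G' y l.length, coarse (w - w₀) (fun s => H' s l.length), b1,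
    (mul_le_mul_of_nonneg_right hle hPB.le).trans b2,
    fun y => (hch.degG y _).trans (le_max_left _ _),
    fun s => (hch.degH _ _).trans (le_max_left _ _),
    fun y => DepC.of_list (hch.depG y _) hlist, fun s => DepC.of_list (hch.depH _ _) hlist,
    fun ω hω => ?_, fun ω hω b hb => ?_⟩
  · have h1 := hch'.pos ω (b1 ω hω) l.length (Nat.lt_succ_self _)
    rw [cof_len] at h1
    refine h1.trans ?_
    rw [div_le_div_iff₀ (by positivity) (by positivity), one_mul, ← pow_add]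
    exact pow_le_pow_right₀ (by norm_num) (by omega)
  · rw [coarse_at _ hw hwJ]
    refine ((b3 ω hω b hb).2).trans ?_
    rw [div_le_div_iff₀ (by positivity) (by positivity), ← pow_add, ← pow_add]
    refine pow_le_pow_right₀ (by norm_num) ?_
    have : L * (h + 1) ≤ L * (h + 0 + 1) := by rw [Nat.add_zero]
    omega

theorem top_inj {k : Fin m} {c : ℕ → Fin m} {r : ℕ} (hinj : Set.InjOn c (Set.Iio r))
    (hck : ∀ l < r, c l ≠ k) :
    Set.InjOn (fun l => if l < r then c l else k) (Set.Iio (r + 1)) := by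
  intro i hi j hj h
  have hi' : i < r + 1 := hi
  have hj' : j < r + 1 := hj
  simp only at h
  rcases Nat.lt_or_ge i r with h1 | h1 <;> rcases Nat.lt_or_ge j r with h2 | h2
  · rw [if_pos h1, if_pos h2] at h
    exact hinj h1 h2 h
  · rw [if_pos h1, if_neg (by omega)] at h
    exact absurd h (hck i h1)
  · rw [if_neg (by omega), if_pos h2] at h
    exact absurd h.symm (hck j h2)
  · omega

/-- **Labels on the top of a chain**, recentred. -/
theorem inc_up (m r K' : ℕ) : ∃ (C₁ : ℝ) (c₀ L : ℕ), 1 ≤ C₁ ∧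
    ∀ {J : ℕ} {F : Fam m J} {c d : ℕ → Fin m} {k : Fin m} {a w a₀ w₀ e u P : ℕ} {g : ℕ → ℕ}
      {A : F.Ω → Prop} {κ₀ θ : ℝ} {G' : PtT F → ℕ → MvPolynomial (Option (Fin m)) ℝ}
      {H' : LnT F → ℕ → MvPolynomial (Option (Fin m)) ℝ},
    (∀ i, i ≠ k → ∃ j < r, c j = i) → Set.InjOn d (Set.Iio r) → (∀ l < r, d l ≠ k) →
    w₀ ≤ a₀ → a₀ ≤ a → w₀ ≤ w → w ≤ J → P ≤ g r + (a - a₀) →
    (∀ l ≤ r, e + g l + (a - a₀) + c₀ ≤ J) → 0 ≤ θ →
    C₁ * (θ + 1) ≤ ((J : ℝ) - w₀) * Real.log 2 → Real.exp (C₁ * (θ + 1)) ≤ 2 ^ u →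
    (∀ B : F.Ω → Prop, Sub B A → κ₀ * Pe F.p A ≤ Pe F.p B → ∀ hB : 0 < Pe F.p B,
      (Fam.sub F B hB).Tm θ) →
    ChOK F (fun l => if l < r then d l else k) (r + 1) (fun _ => K') a₀ w₀ e g A G' H' →
    Inc F k c r a w (max K' 1) L u P ((1 / 2) ^ (r + 1)) ((1 / 2) ^ (r + 1)) κ₀ A := by
  obtain ⟨C₁, c₀, L, hC₁, hfor⟩ := for_lab m r K'
  refine ⟨C₁, c₀, L, hC₁, ?_⟩
  intro J F c d k a w a₀ w₀ e u P g A κ₀ θ G' H' hc hinj hdk hwa haa hww hwJ hP hJ hθ hN hu hTm hch
    B₀ q G h hB hκB hPB hR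
  have hlist : ∀ i < r, ∃ j < r, (fun l => if l < r then d l else k) i = c j := by
    intro i hi
    obtain ⟨j, hj, h1⟩ := hc (d i) (hdk i hi)
    exact ⟨j, hj, by simp only [if_pos hi, h1]⟩
  have e1 : (1 : ℝ) - 1 / 2 = 1 / 2 := by norm_num
  have hle : ((1 : ℝ) / 2) ^ (r + 1) ≤ (1 - 1 / 2) ^ r / 2 := by
    rw [e1, pow_succ]
    exact le_of_eq (by ring)
  obtain ⟨Gt, Ht, k1, k2, k3, k4, k5, B, b1, b2, b3⟩ := hfor (D := max K' 1) (i := r)
    (c' := fun l => if l < r then d l else k) hPB le_rfl (top_inj hinj hdk) hlist hwa haa hww hwJ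
    le_rfl (by norm_num) (by norm_num) hle (fun l hl => hJ l (by omega)) hθ
    (hTm B₀ hB hκB hPB) hN hu hR (hch.sub hB)
  refine ⟨B, Gt, Ht, b1, (mul_le_mul_of_nonneg_right hle hPB.le).trans b2, k1, k2,
    fun y => DepC.of_list (k3 y) hlist, fun s => DepC.of_list (k4 s) hlist, fun ω hω => ?_,
    fun ω hω b hb => ?_⟩
  · have h1 := k5 ω (b1 ω hω)
    rw [if_neg (lt_irrefl r)] at h1
    exact h1.trans (div_le_div_of_nonneg_left (by positivity) (by positivity)
      (pow_le_pow_right₀ (by norm_num) hP))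
  · exact (b3 ω hω b hb).trans (div_le_div_of_nonneg_left (by positivity) (by positivity)
      (pow_le_pow_right₀ (by norm_num) hP))

end Pool.FRN
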