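import Pool.Agent.H9.GEN.PkJ
import Pool.Agent.H33.TRC.LabD

/-!
# The labels of universal degree at the good windows of a class

`Fac.labIn`: the typed input `Pool.STA.LabIn` of the static theorem, at every good window of a class
with its numbers.
-/

set_option autoImplicit false

namespace Pool.PKG

open MeasureTheory Set Filter Topology
open Pool.Agent.H49.Ent Pool.Agent.H32.Dense Pool.STK Pool.KA Pool.KSAT Pool.K2S Pool.PB
open Pool.GEN Pool.S6C Pool.STAT Pool.CHT Pool.GRW Pool.ONE Pool.STA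
open Pool.LBT (LSys ThrOf)
open Pool.FRN (AttC)
open Pool.TRC (CenL labIn_cls)

variable {n : ℕ} {hn : 2 ≤ n} {S : PCl n} {P : ℝ → ℝ → ℝ} {r : ℝ → ℝ}
  {P' : ℕ → List (Fin n) × Fin n → ℝ → ℝ → ℝ} {Λ : Finset (Fin n) → Fin n → ℝ → ℝ → ℝ}
  {o : Od n} {g α Q c : ℝ}

/-- **The facts at the centre**, in the form of the labels of universal degree. -/
theorem Fac.cenL (F : Fac hn S P r P' o g α Q c) (H : Pk hn S P r P' Λ) :
    CenL (P' o.2) (tht o.2) (ee hn o) (n - 1) (LL hn P P' o) g (1 - c) where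
  a0 := F.g0
  a1 := F.g1
  num l hl := by
    rw [LL_low (by omega) (by omega)]
    rfl
  con i _ l _ := F.con _
  conQ := by
    show ContinuousAt (fun v => LL hn P P' o (n - 1 + 1) v v) g
    rw [LL_lst]
    exact F.conP
  gre i hi l hl := F.gre i hi l hl.le
  vis i hi := by
    have h1 := F.le i hi g g F.g0 le_rfl F.gα
    have h2 : tht o.2 * g ≤ tht o.2 := mul_le_of_le_one_right (tht_pos _).le F.g1.le
    have h3 := F.thc
    show bet (P' o.2) (cc hn o.1.1) i g g + tht o.2 * g < 1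
    linarith
  lawQ := by
    rw [LL_lst]
    exact H.tgs.law ()
  lowQ y w h1 h2 h3 := by
    rw [LL_lst]
    exact H.tgs.low () y w h1 h2 h3
  sg1 := by
    have h1 := F.thc
    have h2 := tht_pos o.2
    linarith
  les i h1 h2 := by
    rcases Nat.lt_or_ge i n with h3 | h3
    · rw [LL_low h1 (by omega)]
      exact F.le (i - 1) (by omega) g g F.g0 le_rfl F.gα
    · have h4 : i = n - 1 + 1 := by omega
      rw [h4, LL_lst]
      exact (F.PQ g g F.g0 le_rfl F.gα).trans F.Q1

/-- **The labels of universal degree** at every good window. -/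
theorem Fac.labIn (F : Fac hn S P r P' o g α Q c) (H : Pk hn S P r P' Λ) (σ : ℕ → ℝ)
    (W : Set ℝ) : LabIn S (ee hn o) (n - 1) (LL hn P P' o) σ g W (AttC (P' o.2)) := by
  have hα := F.gα
  refine labIn_cls H.ne (H.cht o.2) (tht_pos _) H.tmh
    (fun i hi j hj h => cc_inj' hn o.1.1 (by omega) (by omega) h) (F.cenL H)
    (fun x w hxw _ _ hx1 => ⟨fun i _ l _ => hxw.1.rc hx1 _ l i, fun i _ => hxw.1.up _ i⟩)
    (ρT := (α - g) / 2) (by linarith) (fun x w hxw hw hwx hx1 hxg _ => ?_) σ W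
  rw [LL_lst]
  refine F.tgP H hw hwx ?_ hxw
  have := (abs_le.1 hxg).2
  linarith

end Pool.PKG
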