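import Pool.Agent.H9.GEN.For
import Pool.Agent.H2.GEN.ChU

/-!
# A label with small own gradients on the top of a chain

`own_ext`: a two-sided label of the target over the natural box of a chain of two-sided labels with
the property `Relv`, whose gradients at the samples are bounded; then it may be put on the top of
the chain, outside a small part of the event.
-/

set_option autoImplicit false

namespace Pool.FRN

open Finset Real MvPolynomial
open Pool.Agent.H49.Ent Pool.Agent.H32.Dense Pool.STK Pool.KA Pool.KSAT Pool.K2S Pool.PB Pool.S6C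
open Pool.GEN
open Pool.CHT (dgp one_le_dgp)

theorem deg_pderiv_le {σ : Type*} {P : MvPolynomial σ ℝ} {K : ℕ} (h : P.totalDegree ≤ K) (i : σ) :
    (pderiv i P).totalDegree ≤ K := by
  classical
  refine Finset.sup_le fun s hs => ?_
  rw [mem_support_iff, coeff_pderiv] at hs
  have h1 : coeff (s + Finsupp.single i 1) P ≠ 0 := fun h0 => hs (by rw [h0, zero_mul])
  have h2 := (le_totalDegree (mem_support_iff.2 h1)).trans h
  have h3 : (s.sum fun _ e => e) ≤ ((s + Finsupp.single i 1).sum fun _ e => e) := by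
    rw [Finsupp.sum_add_index' (fun _ => rfl) (fun _ _ _ => rfl)]
    exact Nat.le_add_right _ _
  exact h3.trans h2

/-- **Own gradients.** -/
theorem own_ext (r₀ K' Kc : ℕ) : ∃ L : ℕ, ∀ {m J : ℕ} {F : Fam m J} {c : ℕ → Fin m}
    {r a w e h D ν p σ e' : ℕ} {K q : ℕ → ℕ} {A : F.Ω → Prop} {κ η : ℝ}
    {G : PtT F → ℕ → MvPolynomial (Option (Fin m)) ℝ}
    {H : LnT F → ℕ → MvPolynomial (Option (Fin m)) ℝ} {k : Fin m}
    {Gt : PtT F → MvPolynomial (Option (Fin m)) ℝ} {Ht : LnT F → MvPolynomial (Option (Fin m)) ℝ},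
    r ≤ r₀ → Set.InjOn c (Set.Iio r) → (∀ l, K l ≤ Kc) → K' ≤ D →
    0 ≤ η → η ≤ 1 → κ ≤ (1 - η) ^ r →
    ChOK F c r K a w e q A G H → (∀ i < r, ∀ l < i, nlp q l i ≤ ν) →
    Relv F c r a w q A G D h κ η →
    (∀ y, (Gt y).totalDegree ≤ K') → (∀ s, (Ht s).totalDegree ≤ K') →
    (∀ y, DepC c r (Gt y)) → (∀ s, DepC c r (Ht s)) →
    (∀ ω, A ω → |F.x ω k - eval (bt F ω) (Gt (ptr F J ω))| ≤ 1 / 2 ^ p) →
    (∀ ω, A ω → ∀ b, NBx c (G (ptr F J ω)) q a (F.t ω) r b →
      |eval b (Gt (ptr F J ω)) - eval b (Ht (slam F w ω))| ≤ 1 / 2 ^ p) →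
    (∀ ω, A ω → ∀ l < r, |eval (bt F ω) (pderiv (some (c l)) (Gt (ptr F J ω)))| ≤
      2 ^ σ / 2 ^ p) →
    e ≤ e' → h + L + (e + ν + 2) * (r₀ + 1) ≤ e' → h + σ ≤ e' + max (q (r - 1)) p →
    ∃ B : F.Ω → Prop, Sub B A ∧ (1 - η) ^ r * Pe F.p A ≤ Pe F.p B ∧
      ChOK F (fun l => if l < r then c l else k) (r + 1) (fun l => if l < r then K l else K') a w
        e' (fun l => if l < r then q l else p) B
        (fun y l => if l < r then G y l else Gt y)
        (fun s l => if l < r then H s l else Ht s) := by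
  obtain ⟨C₁, hC₁, hsl⟩ := Pool.CHT.slope_tri (K' * (max Kc 1) ^ r₀)
  obtain ⟨c₀, hc₀⟩ := pow_unbounded_of_one_lt C₁ (one_lt_two (α := ℝ))
  refine ⟨c₀, ?_⟩
  intro m J F c r a w e h D ν p σ e' K q A κ η G H k Gt Ht hr hinj hKc hKD hη0 hη1 hκ hch hν hR
    dG dH eG eH pos agr own hee he1 he2
  have hPA := Pe_nonneg F.isLaw A
  obtain ⟨Q, hQ⟩ : ∃ Q, Q = (range r).sup q := ⟨_, rfl⟩
  have hqQ : ∀ j < r, q j ≤ Q := fun j hj => by
    rw [hQ]
    exact Finset.le_sup (f := q) (mem_range.2 hj)
  obtain ⟨T, hT⟩ : ∃ T, T = max σ (c₀ + Q + (e + ν + 2) * r₀) := ⟨_, rfl⟩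
  -- the gradients of the two sides
  have hgr : ∀ ω, A ω → ∀ b, NBx c (G (ptr F J ω)) q a (F.t ω) r b → ∀ j < r,
      |eval b (pderiv (some (c j)) (Gt (ptr F J ω))) -
        eval b (pderiv (some (c j)) (Ht (slam F w ω)))| ≤ 2 ^ T / 2 ^ p := by
    intro ω hω b hb j hj
    have hS : ∀ l < r, ∀ l' < l, |eval b (pderiv (some (c l')) (G (ptr F J ω) l))| ≤
        2 ^ (e + ν) := by
      intro l hl l' hl'
      refine (hch.lip ω hω l hl b (hb.mono le_rfl hl.le) l' hl').trans ?_
      exact pow_le_pow_right₀ (by norm_num) (Nat.add_le_add_left (hν l hl l' hl') _)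
    have k1 := hsl (c := c) (i := r) (D₀ := K') (K := K) (G := G (ptr F J ω))
      (Q := Gt (ptr F J ω) - Ht (slam F w ω)) (Qs := fun _ => 0) (g := q) (a := a)
      (t := F.t ω) (M := 2 ^ Q / 2 ^ p) (S := 2 ^ (e + ν)) (b := b) hinj
      (hch.degG _) (hch.depG _)
      (fun b b' hn hb => by rw [map_sub, map_sub, eG _ b b' hn hb, eH _ b b' hn hb])
      (fun j hj b b' hn hb => by rw [map_zero, map_zero])
      ((totalDegree_sub _ _).trans (max_le (dG _) (dH _))) (fun j hj => by
        rw [totalDegree_zero]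
        exact Nat.zero_le _)
      (fun j hj => by
        refine Nat.mul_le_mul_left _ ?_
        unfold dgp
        calc ∏ l ∈ Ico (j + 1) r, max (K l) 1 ≤ ∏ l ∈ Ico (j + 1) r, max Kc 1 :=
              Finset.prod_le_prod' fun l _ => max_le_max_right 1 (hKc l)
          _ ≤ _ := by
            rw [Finset.prod_const, Nat.card_Ico]
            exact Nat.pow_le_pow_right (lt_of_lt_of_le one_pos (le_max_right _ _)) (by omega))
      (by positivity) (by positivity) hb hS (fun j hj b' hb' => by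
        rw [map_sub, map_zero, sub_zero]
        refine (agr ω hω b' hb').trans ?_
        rw [div_div, div_le_div_iff₀ (by positivity) (by positivity), one_mul, mul_comm]
        exact mul_le_mul_of_nonneg_right (pow_le_pow_right₀ (by norm_num) (hqQ j hj))
          (by positivity)) j hj
    rw [map_sub, map_sub] at k1
    refine k1.trans ?_
    have h3 : (2 * (1 + (2 : ℝ) ^ (e + ν))) ^ (r - 1 - j) ≤ 2 ^ ((e + ν + 2) * r₀) := by
      have h4 : (2 * (1 + (2 : ℝ) ^ (e + ν))) ≤ 2 ^ (e + ν + 2) := by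
        have : (1 : ℝ) ≤ 2 ^ (e + ν) := one_le_pow₀ (by norm_num)
        have e2 : (2 : ℝ) ^ (e + ν + 2) = 4 * 2 ^ (e + ν) := by rw [pow_add]; ring
        linarith
      calc (2 * (1 + (2 : ℝ) ^ (e + ν))) ^ (r - 1 - j) ≤ (2 ^ (e + ν + 2)) ^ (r - 1 - j) :=
            pow_le_pow_left₀ (by positivity) h4 _
        _ = 2 ^ ((e + ν + 2) * (r - 1 - j)) := by rw [← pow_mul]
        _ ≤ _ := pow_le_pow_right₀ (by norm_num) (Nat.mul_le_mul_left _ (by omega))
    calc C₁ * (2 ^ Q / 2 ^ p) * (2 * (1 + (2 : ℝ) ^ (e + ν))) ^ (r - 1 - j) ≤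
        2 ^ c₀ * (2 ^ Q / 2 ^ p) * 2 ^ ((e + ν + 2) * r₀) := by
          refine mul_le_mul (mul_le_mul_of_nonneg_right hc₀.le (by positivity)) h3
            (by positivity) (by positivity)
      _ = 2 ^ (c₀ + Q + (e + ν + 2) * r₀) / 2 ^ p := by
          rw [pow_add, pow_add]
          ring
      _ ≤ 2 ^ T / 2 ^ p := by
          refine div_le_div_of_nonneg_right (pow_le_pow_right₀ (by norm_num) ?_) (by positivity)
          rw [hT]
          exact le_max_right _ _
  -- the gradients on the box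
  have key : ∀ l ≤ r, ∃ B : F.Ω → Prop, Sub B A ∧ (1 - η) ^ l * Pe F.p A ≤ Pe F.p B ∧
      ∀ ω, B ω → ∀ b, NBx c (G (ptr F J ω)) q a (F.t ω) r b → ∀ j < l,
        |eval b (pderiv (some (c j)) (Gt (ptr F J ω)))| ≤ 2 ^ (h + T) / 2 ^ p := by
    intro l
    induction l with
    | zero =>
      intro _
      refine ⟨A, fun _ h => h, by rw [pow_zero, one_mul], fun ω _ b _ j hj =>
        absurd hj (Nat.not_lt_zero j)⟩
    | succ l ih =>
      intro hl
      obtain ⟨B, h1, h2, h3⟩ := ih (by omega)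
      have hl' : l < r := by omega
      have hz0 : (0 : ℝ) < 1 / 2 ^ T := by positivity
      have hzT : (1 / 2 ^ T : ℝ) * (2 ^ T / 2 ^ p) = 1 / 2 ^ p := by
        field_simp
      obtain ⟨B', k1, k2, k3⟩ := hR B h1 (le_trans (mul_le_mul_of_nonneg_right
        (hκ.trans (pow_le_pow_of_le_one (by linarith) (by linarith) hl'.le)) hPA) h2)
        (fun y => C (1 / 2 ^ T : ℝ) * pderiv (some (c l)) (Gt y))
        (fun s => C (1 / 2 ^ T : ℝ) * pderiv (some (c l)) (Ht s)) p
        (fun y => by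
          refine (totalDegree_mul _ _).trans ?_
          rw [totalDegree_C, zero_add]
          exact (deg_pderiv_le (dG y) _).trans hKD)
        (fun s => by
          refine (totalDegree_mul _ _).trans ?_
          rw [totalDegree_C, zero_add]
          exact (deg_pderiv_le (dH s) _).trans hKD)
        (fun y b b' hn hb => by
          rw [map_mul, map_mul, eval_C, eval_C, (eG y).pderiv l b b' hn hb])
        (fun s b b' hn hb => by
          rw [map_mul, map_mul, eval_C, eval_C, (eH s).pderiv l b b' hn hb])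
        (fun ω hω => by
          constructor
          · rw [map_mul, eval_C, abs_mul, abs_of_pos hz0, ← hzT]
            refine mul_le_mul_of_nonneg_left ((own ω (h1 ω hω) l hl').trans ?_) hz0.le
            refine div_le_div_of_nonneg_right (pow_le_pow_right₀ (by norm_num) ?_) (by positivity)
            rw [hT]
            exact le_max_left _ _
          · intro b hb
            rw [map_mul, map_mul, eval_C, ← mul_sub, abs_mul, abs_of_pos hz0, ← hzT]
            exact mul_le_mul_of_nonneg_left (hgr ω (h1 ω hω) b hb l hl') hz0.le)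
      refine ⟨B', fun ω hω => h1 ω (k1 ω hω), ?_, fun ω hω b hb j hj => ?_⟩
      · refine le_trans ?_ k2
        rw [pow_succ']
        calc (1 - η) * (1 - η) ^ l * Pe F.p A = (1 - η) * ((1 - η) ^ l * Pe F.p A) := by ring
          _ ≤ _ := mul_le_mul_of_nonneg_left h2 (by linarith)
      · rcases Nat.lt_or_ge j l with h4 | h4
        · exact h3 ω (k1 ω hω) b hb j h4
        · have : j = l := by omega
          subst this
          have h6 := k3 ω hω b hb
          rw [map_mul, eval_C, abs_mul, abs_of_pos hz0, one_div, inv_mul_le_iff₀ (by positivity)]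
            at h6
          refine h6.trans (le_of_eq ?_)
          rw [pow_add]
          ring
  obtain ⟨B, b1, b2, b3⟩ := key r le_rfl
  refine ⟨B, b1, b2, ?_⟩
  refine ext_top (hch.mono le_rfl (fun _ => le_rfl) le_rfl hee) b1 k dG dH eG eH
    (fun ω hω => pos ω (b1 ω hω)) (fun ω hω b hb => agr ω (b1 ω hω) b hb)
    fun ω hω b hb l hl => ?_
  refine (b3 ω hω b hb l hl).trans ?_
  rw [div_le_iff₀ (by positivity), ← pow_add]
  refine pow_le_pow_right₀ (by norm_num) ?_
  -- the exponents
  obtain ⟨U, hU⟩ : ∃ U, U = (Finset.Icc l r).sup fun l => if l < r then q l else p := ⟨_, rfl⟩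
  have e1 : nlp (fun l => if l < r then q l else p) l r = U - p := by
    unfold nlp
    rw [← hU]
    show U - (if r < r then q r else p) = U - p
    rw [if_neg (lt_irrefl r)]
  have hUp : p ≤ U := by
    rw [hU]
    have h1 := Finset.le_sup (f := fun l => if l < r then q l else p)
      (Finset.mem_Icc.2 ⟨hl.le, le_rfl⟩)
    rw [if_neg (lt_irrefl r)] at h1
    exact h1
  have hUq : q (r - 1) ≤ U := by
    rw [hU]
    have h1 := Finset.le_sup (f := fun l => if l < r then q l else p)
      (Finset.mem_Icc.2 ⟨show l ≤ r - 1 by omega, show r - 1 ≤ r by omega⟩)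
    rw [if_pos (show r - 1 < r by omega)] at h1
    exact h1
  have hQq : Q ≤ q (r - 1) + ν := by
    rw [hQ]
    refine Finset.sup_le fun j hj => ?_
    rw [mem_range] at hj
    rcases Nat.lt_or_ge j (r - 1) with h2 | h2
    · have h3 := hν (r - 1) (by omega) j h2
      have h4 := Finset.le_sup (f := q) (Finset.mem_Icc.2 ⟨le_rfl, h2.le⟩)
      unfold nlp at h3
      omega
    · have : j = r - 1 := by omega
      rw [this]
      omega
  rw [e1]
  have hm : max (q (r - 1)) p ≤ U := max_le hUq hUp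
  have h5 : h + T ≤ e' + U := by
    rw [hT]
    rcases le_total σ (c₀ + Q + (e + ν + 2) * r₀) with h6 | h6
    · rw [max_eq_right h6]
      have h7 : ν + (e + ν + 2) * r₀ ≤ (e + ν + 2) * (r₀ + 1) := by nlinarith
      omega
    · rw [max_eq_left h6]
      omega
  omega

end Pool.FRN
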