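import Pool.Agent.H9.GEN.Grw

/-!
# Labels over foreign lists

`Relv`: in the natural box of a chain, two-sided relations which are small at the sample are small
on the whole box.
`foreign`: let `G', H'` be a chain of two-sided labels over any list of coordinates of the chain, of
any sides, of any gradients, on a larger radius and a larger window; the natural box of the chain is
contained in the natural box of the foreign chain, up to a loss, and the two sides of the last label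
of the foreign chain agree on the natural box of the chain, up to a loss. The loss is linear in the
loss of `Relv`; the factor is a function of the length and of the degree of the foreign chain.
-/

set_option autoImplicit false

namespace Pool.FRN

open Finset Real MvPolynomial
open Pool.Agent.H49.Ent Pool.Agent.H32.Dense Pool.STK Pool.KA Pool.KSAT Pool.K2S Pool.PB Pool.S6C
open Pool.GEN
open Pool.CHT (dgp one_le_dgp)

variable {m J : ℕ}

/-- **Two-sided relations**: `Dx` is a polynomial in the time and in the coordinates `c l`, `l < r`,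
which is a function of the point, `Dl` is a function of the line and of the window. If they agree on
the natural box up to `2 ^ (-N)`, and if the value of `Dx` at the sample is at most `2 ^ (-N)`, then
`Dx` is at most `2 ^ h * 2 ^ (-N)` on the natural box, outside a part `η` of the event. -/
def Relv (F : Fam m J) (c : ℕ → Fin m) (r a w : ℕ) (q : ℕ → ℕ) (A : F.Ω → Prop)
    (G : PtT F → ℕ → MvPolynomial (Option (Fin m)) ℝ) (D h : ℕ) (κ η : ℝ) : Prop :=
  ∀ A' : F.Ω → Prop, Sub A' A → κ * Pe F.p A ≤ Pe F.p A' →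
    ∀ (Dx : PtT F → MvPolynomial (Option (Fin m)) ℝ)
      (Dl : LnT F → MvPolynomial (Option (Fin m)) ℝ) (N : ℕ),
    (∀ y, (Dx y).totalDegree ≤ D) → (∀ s, (Dl s).totalDegree ≤ D) →
    (∀ y, DepC c r (Dx y)) → (∀ s, DepC c r (Dl s)) →
    (∀ ω, A' ω → |eval (bt F ω) (Dx (ptr F J ω))| ≤ 1 / 2 ^ N ∧
      ∀ b, NBx c (G (ptr F J ω)) q a (F.t ω) r b →
        |eval b (Dx (ptr F J ω)) - eval b (Dl (slam F w ω))| ≤ 1 / 2 ^ N) →
    ∃ B : F.Ω → Prop, Sub B A' ∧ (1 - η) * Pe F.p A' ≤ Pe F.p B ∧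
      ∀ ω, B ω → ∀ b, NBx c (G (ptr F J ω)) q a (F.t ω) r b →
        |eval b (Dx (ptr F J ω))| ≤ 2 ^ h / 2 ^ N

theorem Relv.sub {F : Fam m J} {c : ℕ → Fin m} {r a w : ℕ} {q : ℕ → ℕ} {A B : F.Ω → Prop}
    {G : PtT F → ℕ → MvPolynomial (Option (Fin m)) ℝ} {D D' h h' : ℕ} {κ κ' η η' : ℝ}
    (H : Relv F c r a w q A G D h κ η) (hB : Sub B A) (hκ : κ * Pe F.p A ≤ κ' * Pe F.p B)
    (hD : D' ≤ D) (hh : h ≤ h') (hη : η ≤ η') : Relv F c r a w q B G D' h' κ' η' := by
  intro A' h1 h2 Dx Dl N h3 h4 h5 h6 h7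
  obtain ⟨C, k1, k2, k3⟩ := H A' (fun ω hω => hB ω (h1 ω hω)) (hκ.trans h2) Dx Dl N
    (fun y => (h3 y).trans hD) (fun s => (h4 s).trans hD) h5 h6 h7
  refine ⟨C, k1, le_trans ?_ k2, fun ω hω b hb => (k3 ω hω b hb).trans ?_⟩
  · exact mul_le_mul_of_nonneg_right (by linarith) (Pe_nonneg F.isLaw A')
  · exact div_le_div_of_nonneg_right (pow_le_pow_right₀ (by norm_num) hh) (by positivity)

/-- The losses. -/
def hh (c₀ h E l : ℕ) : ℕ := (c₀ + h) * (1 + E) ^ l

theorem hh_sum (c₀ h E l : ℕ) : c₀ + h + ∑ j ∈ range l, hh c₀ h E j * E = hh c₀ h E l := by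
  induction l with
  | zero => simp [hh]
  | succ l ih =>
    rw [sum_range_succ, ← add_assoc, ih]
    unfold hh
    rw [pow_succ]
    ring

theorem hh_le {c₀ h E l r : ℕ} (hl : l ≤ r) :
    hh c₀ h E l ≤ ((c₀ + 1) * (1 + E) ^ r) * (h + 1) := by
  unfold hh
  have h1 : (1 + E) ^ l ≤ (1 + E) ^ r := Nat.pow_le_pow_right (by omega) hl
  calc (c₀ + h) * (1 + E) ^ l ≤ ((c₀ + 1) * (h + 1)) * (1 + E) ^ r :=
        Nat.mul_le_mul (by nlinarith) h1
    _ = _ := by ring

theorem dgp_const_le (K : ℕ) {j k r : ℕ} (hk : k ≤ r) :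
    dgp (fun _ => K) j k ≤ (max K 1) ^ r := by
  unfold dgp
  rw [Finset.prod_const, Nat.card_Ico]
  exact Nat.pow_le_pow_right (lt_of_lt_of_le one_pos (le_max_right K 1)) (by omega)

/-- The foreign coordinates are coordinates of the chain. -/
theorem DepC.of_list {c c' : ℕ → Fin m} {r i : ℕ} {P : MvPolynomial (Option (Fin m)) ℝ}
    (h : DepC c' i P) (hc : ∀ l < i, ∃ j < r, c' l = c j) : DepC c r P := by
  intro b b' hn hb
  refine h b b' hn fun l hl => ?_
  obtain ⟨j, hj, e⟩ := hc l hl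
  rw [e]
  exact hb j hj

/-- **Labels over foreign lists.** -/
theorem foreign (r₀ K' : ℕ) : ∃ L : ℕ, ∀ {m J : ℕ} {F : Fam m J} {c c' : ℕ → Fin m}
    {r i a w a₀ w₀ e' h D : ℕ} {q g' : ℕ → ℕ} {A : F.Ω → Prop} {κ η : ℝ}
    {G G' : PtT F → ℕ → MvPolynomial (Option (Fin m)) ℝ}
    {H' : LnT F → ℕ → MvPolynomial (Option (Fin m)) ℝ},
    i ≤ r₀ → Set.InjOn c' (Set.Iio i) → (∀ l < i, ∃ j < r, c' l = c j) → a₀ ≤ a → w₀ ≤ w →
    w ≤ J → max K' 1 ≤ D → 0 ≤ η → η ≤ 1 → κ ≤ (1 - η) ^ i →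
    Relv F c r a w q A G D h κ η →
    ChOK F c' (i + 1) (fun _ => K') a₀ w₀ e' g' A G' H' →
    ∃ B : F.Ω → Prop, Sub B A ∧ (1 - η) ^ i * Pe F.p A ≤ Pe F.p B ∧
      ∀ ω, B ω → ∀ b, NBx c (G (ptr F J ω)) q a (F.t ω) r b →
        (∀ l < i, |b (some (c' l)) - eval b (G' (ptr F J ω) l)| ≤ 2 ^ (L * (h + 1)) / 2 ^ g' l) ∧
        |eval b (G' (ptr F J ω) i) - eval b (H' (slam F w₀ ω) i)| ≤
          2 ^ (L * (h + 1)) / 2 ^ g' i := by
  obtain ⟨E, hE⟩ : ∃ E, E = K' * (max K' 1) ^ r₀ := ⟨_, rfl⟩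
  obtain ⟨C₁, hC, hgr⟩ := nbr_grow E r₀
  obtain ⟨c₀, hc₀⟩ := pow_unbounded_of_one_lt C₁ (one_lt_two (α := ℝ))
  refine ⟨(c₀ + 1) * (1 + E) ^ r₀, ?_⟩
  intro m J F c c' r i a w a₀ w₀ e' h D q g' A κ η G G' H' hir hinj hlist ha hw hwJ hD hη0 hη1 hκ
    hR hch
  have hPA := Pe_nonneg F.isLaw A
  -- the exponents
  obtain ⟨s, hs⟩ : ∃ s : ℕ → ℕ, s = fun l => c₀ + ∑ j ∈ range l, hh c₀ h E j * E := ⟨_, rfl⟩
  have hsh : ∀ l, s l + h = hh c₀ h E l := by
    intro l
    rw [hs, ← hh_sum]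
    ring
  -- the two sides on the natural box
  have two : ∀ l ≤ i, ∀ ω, A ω → ∀ b, NBx c (G (ptr F J ω)) q a (F.t ω) r b →
      (∀ l' < l, |b (some (c' l')) - eval b (G' (ptr F J ω) l')| ≤
        2 ^ hh c₀ h E l' / 2 ^ g' l') →
      |eval b (G' (ptr F J ω) l) - eval b (H' (slam F w₀ ω) l)| ≤ 2 ^ s l / 2 ^ g' l := by
    intro l hl ω hω b hb hbl
    have h1 := hgr (K := fun _ => K') (c := c') (i := l)
      (G := G' (ptr F J ω)) (Q := G' (ptr F J ω) l - H' (slam F w₀ ω) l)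
      (σ := fun l => 1 / 2 ^ g' l) (n := hh c₀ h E) (α := 1 / 2 ^ a₀) (D₀ := K') (t := F.t ω)
      (M := 1 / 2 ^ g' l) (hl.trans hir) (hinj.mono fun x hx => lt_of_lt_of_le hx hl)
      (hch.degG _) (hch.depG _)
      (fun b b' hn hb => by
        rw [map_sub, map_sub, hch.depG _ l b b' hn hb, hch.depH _ l b b' hn hb])
      ((totalDegree_sub _ _).trans (max_le (hch.degG _ l) (hch.degH _ l)))
      (fun j hj => by
        rw [hE]
        exact Nat.mul_le_mul_left _ (dgp_const_le K' (hl.trans hir)))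
      (by positivity)
      (fun b hb => by rw [map_sub]; exact hch.agr ω hω l (by omega) b hb) b
      ⟨hb.1.trans (inv_mono ha), fun l' hl' => by
        refine (hbl l' hl').trans (le_of_eq ?_)
        show (2 : ℝ) ^ hh c₀ h E l' / 2 ^ g' l' = 2 ^ hh c₀ h E l' * (1 / 2 ^ g' l')
        rw [mul_one_div]⟩
    rw [map_sub] at h1
    refine h1.trans ?_
    rw [mul_one_div]
    refine div_le_div_of_nonneg_right ?_ (by positivity)
    rw [hs]
    show C₁ * 2 ^ (∑ j ∈ range l, hh c₀ h E j * (K' * dgp (fun _ => K') j l)) ≤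
      2 ^ (c₀ + ∑ j ∈ range l, hh c₀ h E j * E)
    rw [pow_add]
    refine mul_le_mul hc₀.le (pow_le_pow_right₀ (by norm_num) ?_) (by positivity) (by positivity)
    refine Finset.sum_le_sum fun j _ => Nat.mul_le_mul_left _ ?_
    rw [hE]
    exact Nat.mul_le_mul_left _ (dgp_const_le K' (hl.trans hir))
  -- the induction
  have key : ∀ l ≤ i, ∃ B : F.Ω → Prop, Sub B A ∧ (1 - η) ^ l * Pe F.p A ≤ Pe F.p B ∧
      ∀ ω, B ω → ∀ b, NBx c (G (ptr F J ω)) q a (F.t ω) r b →
        ∀ l' < l, |b (some (c' l')) - eval b (G' (ptr F J ω) l')| ≤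
          2 ^ hh c₀ h E l' / 2 ^ g' l' := by
    intro l
    induction l with
    | zero =>
      intro _
      refine ⟨A, fun _ h => h, by rw [pow_zero, one_mul], fun ω _ b _ l' hl' =>
        absurd hl' (Nat.not_lt_zero l')⟩
    | succ l ih =>
      intro hl
      obtain ⟨B, h1, h2, h3⟩ := ih (by omega)
      have hl1 : l < i := by omega
      obtain ⟨j, hj, hcj⟩ := hlist l hl1
      have hdepX : DepC c r (X (some (c' l)) : MvPolynomial (Option (Fin m)) ℝ) := by
        intro b b' _ hb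
        rw [eval_X, eval_X, hcj]
        exact hb j hj
      have hsub : ∀ P : MvPolynomial (Option (Fin m)) ℝ, DepC c' l P → DepC c r
          (C (1 / 2 ^ s l : ℝ) * (X (some (c' l)) - P)) := by
        intro P hP b b' hn hb
        rw [map_mul, map_mul, eval_C, eval_C, map_sub, map_sub, hdepX b b' hn hb,
          DepC.of_list hP (fun l' hl' => hlist l' (by omega)) b b' hn hb]
      have hdg : ∀ P : MvPolynomial (Option (Fin m)) ℝ, P.totalDegree ≤ K' →
          (C (1 / 2 ^ s l : ℝ) * (X (some (c' l)) - P)).totalDegree ≤ D := by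
        intro P hP
        refine (totalDegree_mul _ _).trans ?_
        rw [totalDegree_C, zero_add]
        refine (totalDegree_sub _ _).trans (le_trans ?_ hD)
        rw [totalDegree_X, max_comm]
        exact max_le_max_right 1 hP
      have hs0 : (0 : ℝ) < 2 ^ s l := by positivity
      have hs1 : (1 : ℝ) ≤ 2 ^ s l := one_le_pow₀ (by norm_num)
      obtain ⟨B', k1, k2, k3⟩ := hR B h1 (le_trans (mul_le_mul_of_nonneg_right
        (hκ.trans (pow_le_pow_of_le_one (by linarith) (by linarith) hl1.le)) hPA) h2)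
        (fun y => C (1 / 2 ^ s l : ℝ) * (X (some (c' l)) - G' y l))
        (fun s' => C (1 / 2 ^ s l : ℝ) * (X (some (c' l)) -
          H' (s'.1, s'.2.1, s'.2.2 / 2 ^ (w - w₀)) l)) (g' l)
        (fun y => hdg _ (hch.degG y l)) (fun s' => hdg _ (hch.degH _ l))
        (fun y => hsub _ (hch.depG y l)) (fun s' => hsub _ (hch.depH _ l)) (by
          intro ω hω
          constructor
          · rw [map_mul, eval_C, map_sub, eval_X, abs_mul, abs_of_pos (by positivity)]
            have h4 := hch.pos ω (h1 ω hω) l (by omega)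
            calc 1 / 2 ^ s l * |bt F ω (some (c' l)) - eval (bt F ω) (G' (ptr F J ω) l)| ≤
                1 * (1 / 2 ^ g' l) := mul_le_mul ((div_le_one hs0).2 hs1) h4 (abs_nonneg _)
                  (by norm_num)
              _ = _ := one_mul _
          · intro b hb
            have h4 := two l hl1.le ω (h1 ω hω) b hb fun l' hl' => h3 ω hω b hb l' hl'
            have e1 := slam_coarse F hw hwJ ω
            show |eval b (C (1 / 2 ^ s l : ℝ) * (X (some (c' l)) - G' (ptr F J ω) l)) -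
              eval b (C (1 / 2 ^ s l : ℝ) * (X (some (c' l)) - H' ((slam F w ω).1,
                (slam F w ω).2.1, (slam F w ω).2.2 / 2 ^ (w - w₀)) l))| ≤ 1 / 2 ^ g' l
            rw [← e1, map_mul, map_mul, eval_C, map_sub, map_sub, eval_X, ← mul_sub, abs_mul,
              abs_of_pos (by positivity), sub_sub_sub_cancel_left, abs_sub_comm]
            calc 1 / 2 ^ s l * |eval b (G' (ptr F J ω) l) - eval b (H' (slam F w₀ ω) l)| ≤
                1 / 2 ^ s l * (2 ^ s l / 2 ^ g' l) := mul_le_mul_of_nonneg_left h4 (by positivity)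
              _ = 1 / 2 ^ g' l := by
                rw [mul_div_assoc', one_div_mul_cancel hs0.ne'])
      refine ⟨B', fun ω hω => h1 ω (k1 ω hω), ?_, fun ω hω b hb l' hl' => ?_⟩
      · refine le_trans ?_ k2
        rw [pow_succ']
        calc (1 - η) * (1 - η) ^ l * Pe F.p A = (1 - η) * ((1 - η) ^ l * Pe F.p A) := by ring
          _ ≤ _ := mul_le_mul_of_nonneg_left h2 (by linarith)
      · rcases Nat.lt_or_ge l' l with h5 | h5
        · exact h3 ω (k1 ω hω) b hb l' h5
        · have : l' = l := by omega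
          subst this
          have h6 := k3 ω hω b hb
          rw [map_mul, eval_C, map_sub, eval_X, abs_mul, abs_of_pos (by positivity)] at h6
          rw [← hsh, pow_add]
          rw [one_div, inv_mul_le_iff₀ hs0] at h6
          refine h6.trans (le_of_eq ?_)
          ring
  obtain ⟨B, h1, h2, h3⟩ := key i le_rfl
  refine ⟨B, h1, h2, fun ω hω b hb => ⟨fun l hl => ?_, ?_⟩⟩
  · refine (h3 ω hω b hb l hl).trans (div_le_div_of_nonneg_right ?_ (by positivity))
    exact pow_le_pow_right₀ (by norm_num) (hh_le (hl.le.trans hir))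
  · refine (two i le_rfl ω (h1 ω hω) b hb fun l' hl' => h3 ω hω b hb l' hl').trans
      (div_le_div_of_nonneg_right ?_ (by positivity))
    refine pow_le_pow_right₀ (by norm_num) ?_
    have h4 := hsh i
    have h5 := hh_le (c₀ := c₀) (h := h) (E := E) hir
    omega

/-- **Uniqueness**, with a tolerance: two labels of the coordinate `k`, two-sided on the natural box
up to `2 ^ s * 2 ^ (-p)`, are equal on the natural box up to a loss, outside a part `η` of the
event. -/
theorem uni_s {F : Fam m J} {c : ℕ → Fin m} {r a w D h p s : ℕ} {q : ℕ → ℕ}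
    {A A' : F.Ω → Prop} {κ η : ℝ} {G : PtT F → ℕ → MvPolynomial (Option (Fin m)) ℝ} {k : Fin m}
    (hR : Relv F c r a w q A G D h κ η) (hA : Sub A' A) (hκ : κ * Pe F.p A ≤ Pe F.p A')
    {G₁ G₂ : PtT F → MvPolynomial (Option (Fin m)) ℝ}
    {H₁ H₂ : LnT F → MvPolynomial (Option (Fin m)) ℝ}
    (d1 : ∀ y, (G₁ y).totalDegree ≤ D) (d2 : ∀ y, (G₂ y).totalDegree ≤ D)
    (d3 : ∀ s, (H₁ s).totalDegree ≤ D) (d4 : ∀ s, (H₂ s).totalDegree ≤ D)
    (e1 : ∀ y, DepC c r (G₁ y)) (e2 : ∀ y, DepC c r (G₂ y))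
    (e3 : ∀ s, DepC c r (H₁ s)) (e4 : ∀ s, DepC c r (H₂ s))
    (pos : ∀ ω, A' ω → |F.x ω k - eval (bt F ω) (G₁ (ptr F J ω))| ≤ 2 ^ s / 2 ^ p ∧
      |F.x ω k - eval (bt F ω) (G₂ (ptr F J ω))| ≤ 2 ^ s / 2 ^ p)
    (agr : ∀ ω, A' ω → ∀ b, NBx c (G (ptr F J ω)) q a (F.t ω) r b →
      |eval b (G₁ (ptr F J ω)) - eval b (H₁ (slam F w ω))| ≤ 2 ^ s / 2 ^ p ∧
      |eval b (G₂ (ptr F J ω)) - eval b (H₂ (slam F w ω))| ≤ 2 ^ s / 2 ^ p) :
    ∃ B : F.Ω → Prop, Sub B A' ∧ (1 - η) * Pe F.p A' ≤ Pe F.p B ∧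
      ∀ ω, B ω → ∀ b, NBx c (G (ptr F J ω)) q a (F.t ω) r b →
        |eval b (G₁ (ptr F J ω)) - eval b (G₂ (ptr F J ω))| ≤ 2 ^ (h + s + 1) / 2 ^ p := by
  obtain ⟨z, hz⟩ : ∃ z : ℝ, z = 1 / 2 ^ (s + 1) := ⟨_, rfl⟩
  have hz0 : 0 < z := by rw [hz]; positivity
  have hz1 : z * (2 ^ s / 2 ^ p + 2 ^ s / 2 ^ p) = 1 / 2 ^ p := by
    rw [hz, pow_succ]
    field_simp
    ring
  have hd : ∀ P Q : MvPolynomial (Option (Fin m)) ℝ, P.totalDegree ≤ D → Q.totalDegree ≤ D →
      (C z * (P - Q)).totalDegree ≤ D := by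
    intro P Q hP hQ
    refine (totalDegree_mul _ _).trans ?_
    rw [totalDegree_C, zero_add]
    exact (totalDegree_sub _ _).trans (max_le hP hQ)
  have he : ∀ P Q : MvPolynomial (Option (Fin m)) ℝ, DepC c r P → DepC c r Q →
      DepC c r (C z * (P - Q)) := by
    intro P Q hP hQ b b' hn hb
    rw [map_mul, map_mul, map_sub, map_sub, eval_C, eval_C, hP b b' hn hb, hQ b b' hn hb]
  obtain ⟨B, h1, h2, h3⟩ := hR A' hA hκ (fun y => C z * (G₁ y - G₂ y))
    (fun s => C z * (H₁ s - H₂ s)) p (fun y => hd _ _ (d1 y) (d2 y))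
    (fun s => hd _ _ (d3 s) (d4 s)) (fun y => he _ _ (e1 y) (e2 y))
    (fun s => he _ _ (e3 s) (e4 s)) (by
      intro ω hω
      have h4 := pos ω hω
      constructor
      · rw [map_mul, map_sub, eval_C, abs_mul, abs_of_pos hz0]
        have h5 : |eval (bt F ω) (G₁ (ptr F J ω)) - eval (bt F ω) (G₂ (ptr F J ω))| ≤
            2 ^ s / 2 ^ p + 2 ^ s / 2 ^ p := by
          have a1 := abs_le.1 h4.1
          have a2 := abs_le.1 h4.2
          rw [abs_le]
          constructor <;> linarith only [a1.1, a1.2, a2.1, a2.2]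
        exact (mul_le_mul_of_nonneg_left h5 hz0.le).trans hz1.le
      · intro b hb
        have h6 := agr ω hω b hb
        rw [map_mul, map_mul, map_sub, map_sub, eval_C, ← mul_sub, abs_mul, abs_of_pos hz0]
        have h5 : |eval b (G₁ (ptr F J ω)) - eval b (G₂ (ptr F J ω)) -
            (eval b (H₁ (slam F w ω)) - eval b (H₂ (slam F w ω)))| ≤
              2 ^ s / 2 ^ p + 2 ^ s / 2 ^ p := by
          have a1 := abs_le.1 h6.1
          have a2 := abs_le.1 h6.2
          rw [abs_le]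
          constructor <;> linarith only [a1.1, a1.2, a2.1, a2.2]
        exact (mul_le_mul_of_nonneg_left h5 hz0.le).trans hz1.le)
  refine ⟨B, h1, h2, fun ω hω b hb => ?_⟩
  have h4 := h3 ω hω b hb
  rw [map_mul, map_sub, eval_C, abs_mul, abs_of_pos hz0] at h4
  rw [hz, one_div, inv_mul_le_iff₀ (by positivity)] at h4
  refine h4.trans (le_of_eq ?_)
  rw [show h + s + 1 = (s + 1) + h by ring, pow_add _ (s + 1) h]
  ring

/-- **Uniqueness**: two labels of the coordinate `k`, two-sided on the natural box up to `2 ^ (-p)`,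
are equal on the natural box up to a loss, outside a part `η` of the event. -/
theorem uni {F : Fam m J} {c : ℕ → Fin m} {r a w D h p : ℕ} {q : ℕ → ℕ} {A A' : F.Ω → Prop}
    {κ η : ℝ} {G : PtT F → ℕ → MvPolynomial (Option (Fin m)) ℝ} {k : Fin m}
    (hR : Relv F c r a w q A G D h κ η) (hA : Sub A' A) (hκ : κ * Pe F.p A ≤ Pe F.p A')
    {G₁ G₂ : PtT F → MvPolynomial (Option (Fin m)) ℝ}
    {H₁ H₂ : LnT F → MvPolynomial (Option (Fin m)) ℝ}
    (d1 : ∀ y, (G₁ y).totalDegree ≤ D) (d2 : ∀ y, (G₂ y).totalDegree ≤ D)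
    (d3 : ∀ s, (H₁ s).totalDegree ≤ D) (d4 : ∀ s, (H₂ s).totalDegree ≤ D)
    (e1 : ∀ y, DepC c r (G₁ y)) (e2 : ∀ y, DepC c r (G₂ y))
    (e3 : ∀ s, DepC c r (H₁ s)) (e4 : ∀ s, DepC c r (H₂ s))
    (pos : ∀ ω, A' ω → |F.x ω k - eval (bt F ω) (G₁ (ptr F J ω))| ≤ 1 / 2 ^ p ∧
      |F.x ω k - eval (bt F ω) (G₂ (ptr F J ω))| ≤ 1 / 2 ^ p)
    (agr : ∀ ω, A' ω → ∀ b, NBx c (G (ptr F J ω)) q a (F.t ω) r b →
      |eval b (G₁ (ptr F J ω)) - eval b (H₁ (slam F w ω))| ≤ 1 / 2 ^ p ∧
      |eval b (G₂ (ptr F J ω)) - eval b (H₂ (slam F w ω))| ≤ 1 / 2 ^ p) :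
    ∃ B : F.Ω → Prop, Sub B A' ∧ (1 - η) * Pe F.p A' ≤ Pe F.p B ∧
      ∀ ω, B ω → ∀ b, NBx c (G (ptr F J ω)) q a (F.t ω) r b →
        |eval b (G₁ (ptr F J ω)) - eval b (G₂ (ptr F J ω))| ≤ 2 ^ (h + 1) / 2 ^ p := by
  have h1 := uni_s (s := 0) (p := p) (k := k) hR hA hκ d1 d2 d3 d4 e1 e2 e3 e4
    (by simpa using pos) (by simpa using agr)
  simpa using h1

/-- **A label on the top of a chain.** -/
theorem ext_top {F : Fam m J} {c : ℕ → Fin m} {r a w e p Kt : ℕ} {K q : ℕ → ℕ}
    {A B : F.Ω → Prop} {G : PtT F → ℕ → MvPolynomial (Option (Fin m)) ℝ}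
    {H : LnT F → ℕ → MvPolynomial (Option (Fin m)) ℝ} (h : ChOK F c r K a w e q A G H)
    (hB : Sub B A) (k : Fin m) {Gt : PtT F → MvPolynomial (Option (Fin m)) ℝ}
    {Ht : LnT F → MvPolynomial (Option (Fin m)) ℝ}
    (d1 : ∀ y, (Gt y).totalDegree ≤ Kt) (d2 : ∀ s, (Ht s).totalDegree ≤ Kt)
    (e1 : ∀ y, DepC c r (Gt y)) (e2 : ∀ s, DepC c r (Ht s))
    (pos : ∀ ω, B ω → |F.x ω k - eval (bt F ω) (Gt (ptr F J ω))| ≤ 1 / 2 ^ p)
    (agr : ∀ ω, B ω → ∀ b, NBx c (G (ptr F J ω)) q a (F.t ω) r b →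
      |eval b (Gt (ptr F J ω)) - eval b (Ht (slam F w ω))| ≤ 1 / 2 ^ p)
    (lip : ∀ ω, B ω → ∀ b, NBx c (G (ptr F J ω)) q a (F.t ω) r b → ∀ l < r,
      |eval b (pderiv (some (c l)) (Gt (ptr F J ω)))| ≤
        2 ^ (e + nlp (fun l => if l < r then q l else p) l r)) :
    ChOK F (fun l => if l < r then c l else k) (r + 1) (fun l => if l < r then K l else Kt) a w e
      (fun l => if l < r then q l else p) B (fun y l => if l < r then G y l else Gt y)
      (fun s l => if l < r then H s l else Ht s) := by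
  have hdep : ∀ i, ∀ P : MvPolynomial (Option (Fin m)) ℝ, DepC c (min i r) P →
      DepC (fun l => if l < r then c l else k) i P := by
    intro i P hP b b' hn hb
    refine hP b b' hn fun l hl => ?_
    have h1 := hb l (lt_of_lt_of_le hl (min_le_left i r))
    simp only [if_pos (lt_of_lt_of_le hl (min_le_right i r))] at h1
    exact h1
  have hbx : ∀ {y : PtT F} {t : ℝ} {i : ℕ} {b : Option (Fin m) → ℝ}, i ≤ r →
      NBx (fun l => if l < r then c l else k) (fun l => if l < r then G y l else Gt y)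
        (fun l => if l < r then q l else p) a t i b → NBx c (G y) q a t i b := by
    intro y t i b hi hb
    refine ⟨hb.1, fun l hl => ?_⟩
    have h1 := hb.2 l hl
    simp only [if_pos (hl.trans_le hi)] at h1
    exact h1
  refine ⟨fun y i => ?_, fun s i => ?_, fun y i => ?_, fun s i => ?_, fun ω hω i hi => ?_,
    fun ω hω i hi b hb => ?_, fun ω hω i hi b hb l hl => ?_⟩
  · show (if i < r then G y i else Gt y).totalDegree ≤ if i < r then K i else Kt
    split_ifs
    · exact h.degG y i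
    · exact d1 y
  · show (if i < r then H s i else Ht s).totalDegree ≤ if i < r then K i else Kt
    split_ifs
    · exact h.degH s i
    · exact d2 s
  · show DepC _ i (if i < r then G y i else Gt y)
    split_ifs with hi
    · refine hdep i _ ?_
      rw [min_eq_left hi.le]
      exact h.depG y i
    · refine hdep i _ ?_
      rw [min_eq_right (not_lt.1 hi)]
      exact e1 y
  · show DepC _ i (if i < r then H s i else Ht s)
    split_ifs with hi
    · refine hdep i _ ?_
      rw [min_eq_left hi.le]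
      exact h.depH s i
    · refine hdep i _ ?_
      rw [min_eq_right (not_lt.1 hi)]
      exact e2 s
  · show |F.x ω (if i < r then c i else k) - eval (bt F ω)
      (if i < r then G (ptr F J ω) i else Gt (ptr F J ω))| ≤ 1 / 2 ^ (if i < r then q i else p)
    split_ifs with h1
    · exact h.pos ω (hB ω hω) i h1
    · exact pos ω hω
  · show |eval b (if i < r then G (ptr F J ω) i else Gt (ptr F J ω)) -
      eval b (if i < r then H (slam F w ω) i else Ht (slam F w ω))| ≤
        1 / 2 ^ (if i < r then q i else p)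
    split_ifs with h1
    · exact h.agr ω (hB ω hω) i h1 b (hbx h1.le hb)
    · have : i = r := by omega
      subst this
      exact agr ω hω b (hbx le_rfl hb)
  · show |eval b (pderiv (some (if l < r then c l else k))
      (if i < r then G (ptr F J ω) i else Gt (ptr F J ω)))| ≤ _
    rcases Nat.lt_or_ge i r with h1 | h1
    · rw [if_pos h1, if_pos (hl.trans h1)]
      refine (h.lip ω (hB ω hω) i h1 b (hbx h1.le hb) l hl).trans (le_of_eq ?_)
      have e3 : nlp q l i = nlp (fun l => if l < r then q l else p) l i := by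
        unfold nlp
        simp only [if_pos h1]
        rw [Finset.sup_congr rfl fun j hj => ?_]
        rw [if_pos ((Finset.mem_Icc.1 hj).2.trans_lt h1)]
      rw [e3]
    · have : i = r := by omega
      subst this
      rw [if_neg (lt_irrefl _), if_pos hl]
      exact lip ω hω b (hbx le_rfl hb) l hl

end Pool.FRN
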