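import Pool.Agent.H63.STAT.CloF
import Pool.Agent.H74.STAT.NTop
import Pool.Agent.H9.GEN.Own

/-!
# Closed labels from labels on the top of a chain

`clo_top`: a label of the target, two-sided over the natural box of a chain of two-sided labels, is
near a closed label on the natural box, on an event of probability at least a constant. No
information about the gradients of the label is used.
`clo_grad`: the gradients at the samples of the two labels are near each other.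
-/

set_option autoImplicit false

namespace Pool.FRN

open Finset Real MvPolynomial
open Pool.Agent.H49.Ent Pool.Agent.H32.Dense Pool.STK Pool.KA Pool.KSAT Pool.K2S Pool.PB Pool.S6C
open Pool.GEN Pool.STAT
open Pool.STAT.CLO (Inj Raw LV tp tl tp_eq tl_eq t_cell crs crs_eq Gs Hs gg sy sy_zero sy_succ
  sy_tri sy_deg tr tr_vars tr_deg vr vr_some Bxr Nr dil bxr_cell nbx_of_bxr eval_sy eval_tr core)
open Pool.CHT (dgp one_le_dgp)

variable {m J : ℕ}

/-- `Pool.STAT.CLO.raw_of`, without the gradients. -/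
theorem raw_w (n K : ℕ) : ∃ s₀ : ℕ, ∀ (m J : ℕ) (F : Fam m J) (c : ℕ → Fin m)
    (a w₀ : ℕ) (g : ℕ → ℕ) (A : F.Ω → Prop) (G : PtT F → ℕ → MvPolynomial (Option (Fin m)) ℝ)
    (H : LnT F → ℕ → MvPolynomial (Option (Fin m)) ℝ), w₀ ≤ a → a ≤ J → Inj c n →
    (∀ y, ∀ i < n, (G y i).totalDegree ≤ K) → (∀ s, ∀ i < n, (H s i).totalDegree ≤ K) →
    (∀ y i, DepC c i (G y i)) → (∀ s i, DepC c i (H s i)) →
    (∀ ω, A ω → ∀ i < n, ∀ b, NBx c (G (ptr F J ω)) g a (F.t ω) i b →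
      |eval b (G (ptr F J ω) i) - eval b (H (slam F w₀ ω) i)| ≤ 1 / 2 ^ g i) →
    Raw n K (2 ^ s₀) A (ptr F J) (slam F a) (tp a) (tl a) (gg a g) (Gs c n a G)
      (fun s => Hs c n H (crs w₀ a s)) := by
  obtain ⟨C, hC, hdil⟩ := dil n K
  obtain ⟨K₁, hK₁⟩ : ∃ K₁, K₁ = K * (K + 1) ^ (n + 1) := ⟨_, rfl⟩
  rw [← hK₁] at hdil
  obtain ⟨s₀, hs₀⟩ := pow_unbounded_of_one_lt (C * 2 ^ K₁) (one_lt_two (α := ℝ))
  refine ⟨s₀, ?_⟩
  intro m J F c a w₀ g A G H hw ha hc hGK hHK depG depH agr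
  refine ⟨fun y => sy_tri, fun y i => sy_deg (hGK y) i, fun s => sy_tri, fun s i =>
    sy_deg (hHK _) i, fun y => sy_zero, fun ω _ => by rw [tp_eq, tl_eq], ?_⟩
  intro ω hω i hi1 hi b hb
  obtain ⟨i, rfl⟩ : ∃ i', i = i' + 1 := ⟨i - 1, by omega⟩
  have h1 := bxr_cell ha ω (by omega) hb
  rw [crs_eq F hw ha ω]
  have h2 : gg a g (i + 1) = g i := if_neg (by omega)
  obtain ⟨D, hD⟩ : ∃ D, D = tr c i (G (ptr F J ω) i) - tr c i (H (slam F w₀ ω) i) := ⟨_, rfl⟩
  have h3 : eval b (Gs c n a G (ptr F J ω) (i + 1)) - eval b (Hs c n H (slam F w₀ ω) (i + 1)) =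
      eval b D := by
    unfold Gs Hs
    rw [sy_succ (by omega), sy_succ (by omega), hD, map_sub]
  rw [h3, h2]
  have h4 := hdil (sy c n (F.t ω) (G (ptr F J ω))) (gg a g) D (i + 1) (1 / 2 ^ g i) 2 sy_tri
    (sy_deg (hGK _)) (by omega) (by
      rw [hD]
      exact AdxRow.vars_sub_le (tr_vars _ _ _) (tr_vars _ _ _)) (by
      rw [hD]
      exact (totalDegree_sub _ _).trans (max_le ((tr_deg _ _ _).trans (hGK _ _ (by omega)))
        ((tr_deg _ _ _).trans (hHK _ _ (by omega))))) (by norm_num) (fun b' hb' => by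
      have h5 := nbx_of_bxr hc (depG _) (by omega) hb'
      have h6 := agr ω hω i (by omega) _ h5
      have h7 : eval b' (tr c i (G (ptr F J ω) i)) =
          eval (fun o => eval b' (vr c i o)) (G (ptr F J ω) i) := by
        rw [← sy_succ (n := n) (t := 0) (by omega)]
        exact eval_sy hc (depG _) (by omega) b'
      have h8 : eval b' (tr c i (H (slam F w₀ ω) i)) =
          eval (fun o => eval b' (vr c i o)) (H (slam F w₀ ω) i) := by
        rw [← sy_succ (n := n) (t := 0) (by omega)]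
        exact eval_sy hc (depH _) (by omega) b'
      rw [hD, map_sub, h7, h8]
      exact h6) b h1
  refine h4.trans ?_
  rw [mul_one_div, div_mul_eq_mul_div]
  exact div_le_div_of_nonneg_right hs₀.le (by positivity)

/-- **The closed label.** -/
theorem clo_top (r K : ℕ) : ∃ K'' s₀ : ℕ, 1 ≤ K'' ∧ ∀ {m J : ℕ} {F : Fam m J} {c : ℕ → Fin m}
    {a w e p : ℕ} {Kv q : ℕ → ℕ} {A : F.Ω → Prop}
    {G : PtT F → ℕ → MvPolynomial (Option (Fin m)) ℝ}
    {H : LnT F → ℕ → MvPolynomial (Option (Fin m)) ℝ} {k : Fin m}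
    {Gt : PtT F → MvPolynomial (Option (Fin m)) ℝ} {Ht : LnT F → MvPolynomial (Option (Fin m)) ℝ},
    Set.InjOn c (Set.Iio r) → (∀ l < r, c l ≠ k) → (∀ l, Kv l ≤ K) → w ≤ a → a ≤ J →
    ChOK F c r Kv a w e q A G H →
    (∀ y, (Gt y).totalDegree ≤ K) → (∀ s, (Ht s).totalDegree ≤ K) →
    (∀ y, DepC c r (Gt y)) → (∀ s, DepC c r (Ht s)) →
    (∀ ω, A ω → ∀ b, NBx c (G (ptr F J ω)) q a (F.t ω) r b →
      |eval b (Gt (ptr F J ω)) - eval b (Ht (slam F w ω))| ≤ 1 / 2 ^ p) →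
    ∃ (B : F.Ω → Prop) (z : PtT F → LV) (z' : LnT F → LV)
      (Gc : LV → MvPolynomial (Option (Fin m)) ℝ), Sub B A ∧ Pe F.p A ≤ K'' * Pe F.p B ∧
      (∀ v, (Gc v).totalDegree ≤ K'') ∧ (∀ v, DepC c r (Gc v)) ∧
      (∀ ω, B ω → z (ptr F J ω) = z' (slam F a ω)) ∧
      ∀ ω, B ω → ∀ b, NBx c (G (ptr F J ω)) q a (F.t ω) r b →
        |eval b (Gt (ptr F J ω)) - eval b (Gc (z (ptr F J ω)))| ≤ 2 ^ s₀ / 2 ^ p := by
  obtain ⟨s₁, hraw⟩ := raw_w (r + 1) K
  obtain ⟨c₁, hc₁, hcore⟩ := core (r + 1) K (r + 2) le_rfl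
  obtain ⟨s₀, hs₀⟩ := pow_unbounded_of_one_lt ((c₁ * 2 ^ s₁ * 2 : ℝ) ^ c₁) (one_lt_two (α := ℝ))
  refine ⟨c₁, s₀, hc₁, ?_⟩
  intro m J F c a w e p Kv q A G H k Gt Ht hinj hck hKv hwa haJ hch dG dH eG eH agr
  classical
  -- the chain with the target on the top
  obtain ⟨c', hc'⟩ : ∃ c' : ℕ → Fin m, c' = fun l => if l < r then c l else k := ⟨_, rfl⟩
  obtain ⟨g, hg⟩ : ∃ g : ℕ → ℕ, g = fun l => if l < r then q l else p := ⟨_, rfl⟩
  obtain ⟨Gx, hGx⟩ : ∃ Gx : PtT F → ℕ → MvPolynomial (Option (Fin m)) ℝ,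
    Gx = fun y l => if l < r then G y l else Gt y := ⟨_, rfl⟩
  obtain ⟨Hx, hHx⟩ : ∃ Hx : LnT F → ℕ → MvPolynomial (Option (Fin m)) ℝ,
    Hx = fun s l => if l < r then H s l else Ht s := ⟨_, rfl⟩
  have cl : ∀ l < r, c' l = c l := fun l hl => by rw [hc']; exact if_pos hl
  have gl : ∀ l < r, g l = q l := fun l hl => by rw [hg]; exact if_pos hl
  have Gl : ∀ y, ∀ l < r, Gx y l = G y l := fun y l hl => by rw [hGx]; exact if_pos hl
  have Hl : ∀ s, ∀ l < r, Hx s l = H s l := fun s l hl => by rw [hHx]; exact if_pos hl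
  have Gr : ∀ y l, r ≤ l → Gx y l = Gt y := fun y l hl => by rw [hGx]; exact if_neg (by omega)
  have Hr : ∀ s l, r ≤ l → Hx s l = Ht s := fun s l hl => by rw [hHx]; exact if_neg (by omega)
  have gr : g r = p := by rw [hg]; exact if_neg (lt_irrefl r)
  have hdep : ∀ (l : ℕ) (P : MvPolynomial (Option (Fin m)) ℝ), DepC c (min l r) P →
      DepC c' l P := by
    intro l P hP b b' hn hb
    refine hP b b' hn fun j hj => ?_
    have h1 := hb j (lt_of_lt_of_le hj (min_le_left l r))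
    rw [cl j (lt_of_lt_of_le hj (min_le_right l r))] at h1
    exact h1
  have hcI : Inj c' (r + 1) := by
    intro l hl l' hl' h
    rcases Nat.lt_or_ge l r with h1 | h1 <;> rcases Nat.lt_or_ge l' r with h2 | h2
    · rw [cl l h1, cl l' h2] at h
      exact hinj h1 h2 h
    · rw [cl l h1, hc'] at h
      simp only [if_neg (Nat.not_lt.2 h2)] at h
      exact absurd h (hck l h1)
    · rw [cl l' h2, hc'] at h
      simp only [if_neg (Nat.not_lt.2 h1)] at h
      exact absurd h.symm (hck l' h2)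
    · omega
  have depG : ∀ y i, DepC c' i (Gx y i) := by
    intro y i
    rcases Nat.lt_or_ge i r with h1 | h1
    · rw [Gl y i h1]
      refine hdep i _ ?_
      rw [min_eq_left h1.le]
      exact hch.depG y i
    · rw [Gr y i h1]
      refine hdep i _ ?_
      rw [min_eq_right h1]
      exact eG y
  have depH : ∀ s i, DepC c' i (Hx s i) := by
    intro s i
    rcases Nat.lt_or_ge i r with h1 | h1
    · rw [Hl s i h1]
      refine hdep i _ ?_
      rw [min_eq_left h1.le]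
      exact hch.depH s i
    · rw [Hr s i h1]
      refine hdep i _ ?_
      rw [min_eq_right h1]
      exact eH s
  have nbx : ∀ {y : PtT F} {t : ℝ} {i : ℕ} {b : Option (Fin m) → ℝ}, i ≤ r →
      NBx c' (Gx y) g a t i b → NBx c (G y) q a t i b := by
    intro y t i b hi hb
    refine ⟨hb.1, fun l hl => ?_⟩
    have h1 := hb.2 l hl
    rw [cl l (by omega), Gl y l (by omega), gl l (by omega)] at h1
    exact h1
  have hR := hraw m J F c' a w g A Gx Hx hwa haJ hcI (fun y i _ => by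
      rcases Nat.lt_or_ge i r with h1 | h1
      · rw [Gl y i h1]
        exact (hch.degG y i).trans (hKv i)
      · rw [Gr y i h1]
        exact dG y) (fun s i _ => by
      rcases Nat.lt_or_ge i r with h1 | h1
      · rw [Hl s i h1]
        exact (hch.degH s i).trans (hKv i)
      · rw [Hr s i h1]
        exact dH s) depG depH (fun ω hω i hi b hb => by
      rcases Nat.lt_or_ge i r with h1 | h1
      · rw [Gl _ i h1, Hl _ i h1, gl i h1]
        exact hch.agr ω hω i h1 b (nbx h1.le hb)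
      · have : i = r := by omega
        subst this
        rw [Gr _ i le_rfl, Hr _ i le_rfl, gr]
        exact agr ω hω b (nbx le_rfl hb))
  obtain ⟨z, z', P, B, hB, hPe, hcl⟩ := hcore F.Ω (PtT F) (LnT F) F.p (2 ^ s₁) A (ptr F J)
    (slam F a) (tp a) (tl a) (gg a g) (Gs c' (r + 1) a Gx)
    (fun s => Hs c' (r + 1) Hx (crs w a s)) F.isLaw (one_le_pow₀ (by norm_num)) hR
  obtain ⟨e', he'⟩ : ∃ e' : ℕ → Fin m, e' = fun j => c' (j - 1) := ⟨_, rfl⟩
  refine ⟨B, z, z', fun v => NL.ren e' (P v (r + 1)), hB, hPe, fun v =>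
    (NL.ren_deg _ _).trans (hcl.deg v _), fun v => ?_, hcl.cls, fun ω hω b hb => ?_⟩
  · have h1 := NL.ren_dep (i := r + 1) e' (hcl.tri v (r + 1))
    intro b b' hn hb
    refine h1 b b' hn fun l hl => ?_
    have h2 : e' (l + 1) = c l := by
      rw [he']
      exact cl l (by omega)
    show b (some (e' (l + 1))) = b' (some (e' (l + 1)))
    rw [h2]
    exact hb l (by omega)
  · rw [NL.eval_ren]
    obtain ⟨x, hx⟩ : ∃ x : ℕ → ℝ, x = fun j => b (NL.nu e' j) := ⟨_, rfl⟩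
    have x0 : x 0 = b none := by rw [hx]; rfl
    have xl : ∀ l < r, x (l + 1) = b (some (c l)) := fun l hl => by
      rw [hx]
      show b (NL.nu e' (l + 1)) = _
      unfold NL.nu
      rw [if_neg (by omega), he']
      show b (some (c' (l + 1 - 1))) = _
      rw [Nat.add_sub_cancel, cl l hl]
    rw [← hx]
    have hbx : Bxr 2 (gg a g) (Gs c' (r + 1) a Gx (ptr F J ω)) (r + 1) x := by
      intro j hj
      rcases Nat.eq_zero_or_pos j with rfl | h1
      · unfold Gs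
        rw [sy_zero, eval_C, tp_eq, x0]
        have h2 := t_cell F haJ ω
        have h3 := hb.1
        have h4 : gg a g 0 = a := if_pos rfl
        rw [h4]
        have h5 : (2 : ℝ) / 2 ^ a = 1 / 2 ^ a + 1 / 2 ^ a := by ring
        rw [h5]
        rw [abs_le] at h2 h3 ⊢
        constructor <;> linarith only [h2.1, h2.2, h3.1, h3.2]
      · obtain ⟨j, rfl⟩ : ∃ j', j = j' + 1 := ⟨j - 1, by omega⟩
        have h4 : gg a g (j + 1) = g j := if_neg (by omega)
        have hjr : j < r := by omega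
        unfold Gs
        rw [sy_succ (by omega), h4, gl j hjr, xl j hjr,
          eval_tr (B := b) hcI (by omega) (depG _ j) x0.symm (fun l hl => by
            rw [cl l (by omega)]
            exact (xl l (by omega)).symm), Gl _ j hjr]
        refine (hb.2 j hjr).trans (div_le_div_of_nonneg_right (by norm_num) (by positivity))
    have h1 := (hcl.near ω hω).2 (r + 1) (by omega) (by omega) 2 (by norm_num) x hbx
    have h4 : gg a g (r + 1) = p := by
      show (if r + 1 = 0 then a else g (r + 1 - 1)) = p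
      rw [if_neg (by omega), Nat.add_sub_cancel, gr]
    unfold Gs at h1
    rw [sy_succ (by omega), h4, eval_tr (B := b) hcI (by omega) (depG _ r) x0.symm
      (fun l hl => by
        rw [cl l hl]
        exact (xl l hl).symm), Gr _ r le_rfl, abs_sub_comm] at h1
    exact h1.trans (div_le_div_of_nonneg_right hs₀.le (by positivity))

/-- **The gradients** of a polynomial which is small on the natural box. -/
theorem clo_grad (r K : ℕ) : ∃ c₀ : ℕ, ∀ {m J : ℕ} {F : Fam m J} {c : ℕ → Fin m}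
    {a w e ν Q s p : ℕ} {Kv q : ℕ → ℕ} {A : F.Ω → Prop}
    {G : PtT F → ℕ → MvPolynomial (Option (Fin m)) ℝ}
    {H : LnT F → ℕ → MvPolynomial (Option (Fin m)) ℝ} {P : MvPolynomial (Option (Fin m)) ℝ}
    {ω : F.Ω}, Set.InjOn c (Set.Iio r) → (∀ l, Kv l ≤ K) → ChOK F c r Kv a w e q A G H →
    (∀ i < r, ∀ l < i, nlp q l i ≤ ν) → (∀ l < r, q l ≤ Q) → A ω → P.totalDegree ≤ K →
    DepC c r P → (∀ b, NBx c (G (ptr F J ω)) q a (F.t ω) r b → |eval b P| ≤ 2 ^ s / 2 ^ p) →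
    ∀ b, NBx c (G (ptr F J ω)) q a (F.t ω) r b → ∀ j < r,
      |eval b (pderiv (some (c j)) P)| ≤ 2 ^ (c₀ + s + Q + (e + ν + 2) * r) / 2 ^ p := by
  obtain ⟨C₁, hC₁, hsl⟩ := Pool.CHT.slope_tri (K * (max K 1) ^ r)
  obtain ⟨c₀, hc₀⟩ := pow_unbounded_of_one_lt C₁ (one_lt_two (α := ℝ))
  refine ⟨c₀, ?_⟩
  intro m J F c a w e ν Q s p Kv q A G H P ω hinj hKv hch hν hQ hω hdeg hdep hP b hb j hj
  have hS : ∀ l < r, ∀ l' < l, |eval b (pderiv (some (c l')) (G (ptr F J ω) l))| ≤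
      2 ^ (e + ν) := by
    intro l hl l' hl'
    refine (hch.lip ω hω l hl b (hb.mono le_rfl hl.le) l' hl').trans ?_
    exact pow_le_pow_right₀ (by norm_num) (Nat.add_le_add_left (hν l hl l' hl') _)
  have k1 := hsl (c := c) (i := r) (D₀ := K) (K := Kv) (G := G (ptr F J ω))
    (Q := P) (Qs := fun _ => 0) (g := q) (a := a)
    (t := F.t ω) (M := 2 ^ (s + Q) / 2 ^ p) (S := 2 ^ (e + ν)) (b := b) hinj
    (hch.degG _) (hch.depG _) hdep
    (fun j hj b b' hn hb => by rw [map_zero, map_zero]) hdeg (fun j hj => by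
      rw [totalDegree_zero]
      exact Nat.zero_le _)
    (fun j hj => by
      refine Nat.mul_le_mul_left _ ?_
      unfold dgp
      calc ∏ l ∈ Ico (j + 1) r, max (Kv l) 1 ≤ ∏ l ∈ Ico (j + 1) r, max K 1 :=
            Finset.prod_le_prod' fun l _ => max_le_max_right 1 (hKv l)
        _ ≤ _ := by
          rw [Finset.prod_const, Nat.card_Ico]
          exact Nat.pow_le_pow_right (lt_of_lt_of_le one_pos (le_max_right _ _)) (by omega))
    (by positivity) (by positivity) hb hS (fun j hj b' hb' => by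
      rw [map_zero, sub_zero]
      refine (hP b' hb').trans ?_
      rw [div_div, div_le_div_iff₀ (by positivity) (by positivity), pow_add]
      have h1 : (2 : ℝ) ^ q j ≤ 2 ^ Q := pow_le_pow_right₀ (by norm_num) (hQ j hj)
      have h2 : (2 : ℝ) ^ s * (2 ^ p * 2 ^ q j) ≤ 2 ^ s * (2 ^ p * 2 ^ Q) :=
        mul_le_mul_of_nonneg_left (mul_le_mul_of_nonneg_left h1 (by positivity)) (by positivity)
      calc (2 : ℝ) ^ s * (2 ^ p * 2 ^ q j) ≤ 2 ^ s * (2 ^ p * 2 ^ Q) := h2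
        _ = 2 ^ s * 2 ^ Q * 2 ^ p := by ring) j hj
  refine k1.trans ?_
  have h3 : (2 * (1 + (2 : ℝ) ^ (e + ν))) ^ (r - 1 - j) ≤ 2 ^ ((e + ν + 2) * r) := by
    have h4 : (2 * (1 + (2 : ℝ) ^ (e + ν))) ≤ 2 ^ (e + ν + 2) := by
      have : (1 : ℝ) ≤ 2 ^ (e + ν) := one_le_pow₀ (by norm_num)
      have e2 : (2 : ℝ) ^ (e + ν + 2) = 4 * 2 ^ (e + ν) := by rw [pow_add]; ring
      linarith
    calc (2 * (1 + (2 : ℝ) ^ (e + ν))) ^ (r - 1 - j) ≤ (2 ^ (e + ν + 2)) ^ (r - 1 - j) :=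
          pow_le_pow_left₀ (by positivity) h4 _
      _ = 2 ^ ((e + ν + 2) * (r - 1 - j)) := by rw [← pow_mul]
      _ ≤ _ := pow_le_pow_right₀ (by norm_num) (Nat.mul_le_mul_left _ (by omega))
  calc C₁ * (2 ^ (s + Q) / 2 ^ p) * (2 * (1 + (2 : ℝ) ^ (e + ν))) ^ (r - 1 - j) ≤
      2 ^ c₀ * (2 ^ (s + Q) / 2 ^ p) * 2 ^ ((e + ν + 2) * r) := by
        refine mul_le_mul (mul_le_mul_of_nonneg_right hc₀.le (by positivity)) h3
          (by positivity) (by positivity)
    _ = 2 ^ (c₀ + s + Q + (e + ν + 2) * r) / 2 ^ p := by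
        have e1 : (2 : ℝ) ^ (c₀ + s + Q + (e + ν + 2) * r) =
            2 ^ c₀ * 2 ^ (s + Q) * 2 ^ ((e + ν + 2) * r) := by
          rw [← pow_add, ← pow_add]
          congr 1
          ring
        rw [e1]
        ring

/-- The sample is in its natural box. -/
theorem own_nbx {F : Fam m J} {c : ℕ → Fin m} {r : ℕ} {K q : ℕ → ℕ} {a w e : ℕ}
    {A : F.Ω → Prop} {G : PtT F → ℕ → MvPolynomial (Option (Fin m)) ℝ}
    {H : LnT F → ℕ → MvPolynomial (Option (Fin m)) ℝ} (h : ChOK F c r K a w e q A G H) {ω : F.Ω}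
    (hω : A ω) : NBx c (G (ptr F J ω)) q a (F.t ω) r (bt F ω) := by
  refine ⟨?_, fun l hl => h.pos ω hω l hl⟩
  show |F.t ω - F.t ω| ≤ _
  rw [sub_self, abs_zero]
  positivity

/-- **No steep closed label** of the coordinate `k`, closed at the window `a`, of degree `K` and of
a precision `p ≤ Qn`: the own gradients are less than `2 ^ (σ - p)`. -/
def Stp (F : Fam m J) (k : Fin m) (a Qn K σ : ℕ) (B : F.Ω → Prop) : Prop :=
  ∀ (p s : ℕ) (V : Type) (z : PtT F → V) (z' : LnT F → V)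
    (G : V → MvPolynomial (Option (Fin m)) ℝ) (l : Fin m), σ ≤ p + s → p ≤ Qn → l ≠ k →
    (∀ v, (G v).totalDegree ≤ K) →
    (∀ v, ∀ b b' : Option (Fin m) → ℝ, b none = b' none → (∀ i, i ≠ k → b (some i) = b' (some i)) →
      eval b (G v) = eval b' (G v)) →
    (∀ ω, B ω → z (ptr F J ω) = z' (slam F a ω)) →
    (∀ ω, B ω → |F.x ω k - eval (bt F ω) (G (z (ptr F J ω)))| ≤ 1 / 2 ^ p) →
    ¬ ∀ ω, B ω → 2 ^ s ≤ |eval (bt F ω) (pderiv (some l) (G (z (ptr F J ω))))|

/-- **The own gradients** of a label on the top of a chain, if there is no steep closed label. -/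
theorem own_small (r K : ℕ) : ∃ K'' L : ℕ, 1 ≤ K'' ∧ ∀ {m J : ℕ} {F : Fam m J} {c : ℕ → Fin m}
    {a w e ν Q p Qn σ : ℕ} {Kv q : ℕ → ℕ} {A : F.Ω → Prop} {κ η : ℝ}
    {G : PtT F → ℕ → MvPolynomial (Option (Fin m)) ℝ}
    {H : LnT F → ℕ → MvPolynomial (Option (Fin m)) ℝ} {k : Fin m}
    {Gt : PtT F → MvPolynomial (Option (Fin m)) ℝ} {Ht : LnT F → MvPolynomial (Option (Fin m)) ℝ},
    Set.InjOn c (Set.Iio r) → (∀ l < r, c l ≠ k) → (∀ l, Kv l ≤ K) → w ≤ a → a ≤ J →
    ChOK F c r Kv a w e q A G H → (∀ i < r, ∀ l < i, nlp q l i ≤ ν) → (∀ l < r, q l ≤ Q) →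
    (∀ y, (Gt y).totalDegree ≤ K) → (∀ s, (Ht s).totalDegree ≤ K) →
    (∀ y, DepC c r (Gt y)) → (∀ s, DepC c r (Ht s)) →
    (∀ ω, A ω → |F.x ω k - eval (bt F ω) (Gt (ptr F J ω))| ≤ 1 / 2 ^ p) →
    (∀ ω, A ω → ∀ b, NBx c (G (ptr F J ω)) q a (F.t ω) r b →
      |eval b (Gt (ptr F J ω)) - eval b (Ht (slam F w ω))| ≤ 1 / 2 ^ p) →
    0 < η → κ * (r * K'') ≤ η → L ≤ p → p ≤ Qn → p ≤ σ → Q + L + (e + ν + 2) * r ≤ σ →
    (∀ B : F.Ω → Prop, Sub B A → κ * Pe F.p A ≤ Pe F.p B → Stp F k a Qn K'' (σ - L) B) →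
    ∃ B : F.Ω → Prop, Sub B A ∧ (1 - η) * Pe F.p A ≤ Pe F.p B ∧ ∀ ω, B ω → ∀ l < r,
      |eval (bt F ω) (pderiv (some (c l)) (Gt (ptr F J ω)))| ≤ 2 ^ (σ + 1) / 2 ^ p := by
  obtain ⟨K'', s₀, hK'', hclo⟩ := clo_top r K
  obtain ⟨c₀, hgr⟩ := clo_grad r (max K K'')
  obtain ⟨L, hL⟩ : ∃ L, L = c₀ + s₀ + 1 := ⟨_, rfl⟩
  refine ⟨K'', L, hK'', ?_⟩
  intro m J F c a w e ν Q p Qn σ Kv q A κ η G H k Gt Ht hinj hck hKv hwa haJ hch hν hQ dG dH eG eH
    pos agr hη hκ hLp hpQ hpσ hQσ hT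
  classical
  have hPA := Pe_nonneg F.isLaw A
  -- one direction
  have one : ∀ l < r, Pe F.p (fun ω => A ω ∧
      2 ^ (σ + 1) / 2 ^ p < |eval (bt F ω) (pderiv (some (c l)) (Gt (ptr F J ω)))|) * r ≤
        η * Pe F.p A := by
    intro l hl
    by_contra hcon
    push Not at hcon
    have hr0 : (0 : ℝ) < r := by
      have : 0 < r := by omega
      exact_mod_cast this
    obtain ⟨A', hA'⟩ : ∃ A' : F.Ω → Prop, A' = fun ω => A ω ∧
      2 ^ (σ + 1) / 2 ^ p < |eval (bt F ω) (pderiv (some (c l)) (Gt (ptr F J ω)))| := ⟨_, rfl⟩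
    rw [← hA'] at hcon
    have hs : Sub A' A := fun ω hω => by
      rw [hA'] at hω
      exact hω.1
    have hst : ∀ ω, A' ω → 2 ^ (σ + 1) / 2 ^ p <
        |eval (bt F ω) (pderiv (some (c l)) (Gt (ptr F J ω)))| := fun ω hω => by
      rw [hA'] at hω
      exact hω.2
    obtain ⟨B, z, z', Gc, b1, b2, b3, b4, b5, b6⟩ := hclo hinj hck hKv hwa haJ (hch.sub hs) dG dH
      eG eH (fun ω hω => agr ω (hs ω hω))
    have hBA : Sub B A := fun ω hω => hs ω (b1 ω hω)
    have hPB : κ * Pe F.p A ≤ Pe F.p B := by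
      have h1 : κ * (r * K'') * Pe F.p A ≤ η * Pe F.p A := mul_le_mul_of_nonneg_right hκ hPA
      have h2 : Pe F.p A' * r ≤ K'' * Pe F.p B * r := mul_le_mul_of_nonneg_right b2 hr0.le
      have hK0 : (0 : ℝ) < K'' := by
        have : 0 < K'' := by omega
        exact_mod_cast this
      have h3 : (κ * Pe F.p A) * (r * K'') ≤ Pe F.p B * (r * K'') := by
        calc (κ * Pe F.p A) * (r * K'') = κ * (r * K'') * Pe F.p A := by ring
          _ ≤ η * Pe F.p A := h1
          _ ≤ Pe F.p A' * r := hcon.le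
          _ ≤ K'' * Pe F.p B * r := h2
          _ = _ := by ring
      exact le_of_mul_le_mul_right h3 (by positivity)
    refine hT B hBA hPB (p - L) (σ - p) LV z z' Gc (c l) (by omega) (by omega) (hck l hl) b3
      (fun v b b' hn hb => b4 v b b' hn fun l hl => hb _ (hck l hl)) b5 (fun ω hω => ?_)
      fun ω hω => ?_
    · have hbx := own_nbx hch (hBA ω hω)
      have h1 := b6 ω hω _ hbx
      have h2 := pos ω (hBA ω hω)
      have h3 : |F.x ω k - eval (bt F ω) (Gc (z (ptr F J ω)))| ≤ 1 / 2 ^ p + 2 ^ s₀ / 2 ^ p := by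
        rw [abs_le] at h1 h2 ⊢
        constructor <;> linarith only [h1.1, h1.2, h2.1, h2.2]
      refine h3.trans ?_
      rw [← add_div, div_le_div_iff₀ (by positivity) (by positivity), one_mul]
      have h4 : (1 : ℝ) ≤ 2 ^ s₀ := one_le_pow₀ (by norm_num)
      calc (1 + 2 ^ s₀ : ℝ) * 2 ^ (p - L) ≤ 2 ^ (s₀ + 1) * 2 ^ (p - L) := by
            refine mul_le_mul_of_nonneg_right ?_ (by positivity)
            rw [pow_succ]
            linarith
        _ = 2 ^ (s₀ + 1 + (p - L)) := by rw [← pow_add]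
        _ ≤ 2 ^ p := pow_le_pow_right₀ (by norm_num) (by omega)
    · have hbx := own_nbx hch (hBA ω hω)
      have h1 := hgr (P := Gt (ptr F J ω) - Gc (z (ptr F J ω))) (s := s₀) (p := p) hinj
        (fun l => (hKv l).trans (le_max_left _ _)) hch hν hQ (hBA ω hω)
        ((totalDegree_sub _ _).trans (max_le_max (dG _) (b3 _)))
        (fun b b' hn hb => by rw [map_sub, map_sub, eG _ b b' hn hb, b4 _ b b' hn hb])
        (fun b hb => by rw [map_sub]; exact b6 ω hω b hb) _ hbx l hl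
      rw [map_sub, map_sub] at h1
      have h2 := hst ω (b1 ω hω)
      have h3 : (2 : ℝ) ^ (c₀ + s₀ + Q + (e + ν + 2) * r) / 2 ^ p ≤ 2 ^ σ / 2 ^ p := by
        refine div_le_div_of_nonneg_right (pow_le_pow_right₀ (by norm_num) ?_) (by positivity)
        omega
      have h5 : (2 : ℝ) ^ (σ + 1) / 2 ^ p = 2 ^ σ / 2 ^ p + 2 ^ σ / 2 ^ p := by
        rw [pow_succ]
        ring
      have h6 : (2 : ℝ) ^ (σ - p) = 2 ^ σ / 2 ^ p := by
        rw [eq_div_iff (by positivity), ← pow_add, Nat.sub_add_cancel hpσ]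
      rw [h6]
      have h7 := abs_sub_abs_le_abs_sub (eval (bt F ω) (pderiv (some (c l)) (Gt (ptr F J ω))))
        (eval (bt F ω) (pderiv (some (c l)) (Gc (z (ptr F J ω)))))
      linarith only [h1, h2, h3, h5, h7]
  -- all directions
  have all : ∀ n ≤ r, ∃ B : F.Ω → Prop, Sub B A ∧
      (r - n * η) * Pe F.p A ≤ Pe F.p B * r ∧ ∀ ω, B ω → ∀ l < n,
        |eval (bt F ω) (pderiv (some (c l)) (Gt (ptr F J ω)))| ≤ 2 ^ (σ + 1) / 2 ^ p := by
    intro n
    induction n with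
    | zero =>
      intro _
      refine ⟨A, fun _ h => h, ?_, fun ω _ l hl => absurd hl (Nat.not_lt_zero l)⟩
      rw [Nat.cast_zero, zero_mul, sub_zero, mul_comm]
    | succ n ih =>
      intro hn
      obtain ⟨B, h1, h2, h3⟩ := ih (by omega)
      obtain ⟨N, hN⟩ : ∃ N : F.Ω → Prop, N = fun ω =>
        2 ^ (σ + 1) / 2 ^ p < |eval (bt F ω) (pderiv (some (c n)) (Gt (ptr F J ω)))| := ⟨_, rfl⟩
      have h4 := one n (by omega)
      have h5 : Pe F.p B ≤ Pe F.p (fun ω => B ω ∧ ¬ N ω) + Pe F.p (fun ω => A ω ∧ N ω) := by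
        rw [Pe_eq, Pe_eq, Pe_eq, ← Finset.sum_add_distrib]
        refine Finset.sum_le_sum fun ω _ => ?_
        have h0 := F.isLaw.nonneg ω
        by_cases k1 : B ω
        · have k2 := h1 ω k1
          by_cases k3 : N ω <;> simp [k1, k2, k3]
        · by_cases k2 : A ω <;> by_cases k3 : N ω <;> simp [k1, k2, k3, h0]
      rw [← show (fun ω => A ω ∧ N ω) = (fun ω => A ω ∧ 2 ^ (σ + 1) / 2 ^ p <
        |eval (bt F ω) (pderiv (some (c n)) (Gt (ptr F J ω)))|) by rw [hN]] at h4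
      refine ⟨fun ω => B ω ∧ ¬ N ω, fun ω hω => h1 ω hω.1, ?_, fun ω hω l hl => ?_⟩
      · have hr0 : (0 : ℝ) ≤ r := Nat.cast_nonneg r
        have h6 := mul_le_mul_of_nonneg_right h5 hr0
        push_cast
        linarith only [h2, h4, h6]
      · rcases Nat.lt_or_ge l n with h6 | h6
        · exact h3 ω hω.1 l h6
        · have : l = n := by omega
          subst this
          have h7 := hω.2
          rw [hN] at h7
          exact not_lt.1 h7
  rcases Nat.eq_zero_or_pos r with h0 | h0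
  · refine ⟨A, fun _ h => h, ?_, fun ω _ l hl => by omega⟩
    have : 0 ≤ η * Pe F.p A := mul_nonneg hη.le hPA
    linarith
  · obtain ⟨B, h1, h2, h3⟩ := all r le_rfl
    refine ⟨B, h1, ?_, h3⟩
    have hr0 : (0 : ℝ) < r := by exact_mod_cast h0
    have h4 : ((1 - η) * Pe F.p A) * r ≤ Pe F.p B * r := by
      calc ((1 - η) * Pe F.p A) * r = (r - r * η) * Pe F.p A := by ring
        _ ≤ _ := h2
    exact le_of_mul_le_mul_right h4 hr0

end Pool.FRN
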