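import Pool.Agent.H9.GEN.Tgs7
import Pool.Agent.H2.GEN.ChB

/-!
# The threshold of the target on the diagonal

`diag_B`: at almost every window `g` below a row which is not full, the threshold `P g g` of all the
labels of the target is at most the threshold of the target over the greedy list of the point
`(g, g)`, with sides at least those of the chains, at all larger windows.
-/

set_option autoImplicit false

namespace Pool.FRN

open Finset Real MvPolynomial MeasureTheory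
open Pool.Agent.H49.Ent Pool.Agent.H32.Dense Pool.STK Pool.KA Pool.KSAT Pool.K2S Pool.PB Pool.S6C
open Pool.GEN
open Pool.LBT (ThrOf)
open Pool.ONE (tgs)
open Pool.CHT (TmH chsys bet tau Up1 Rc Pts Ptq gpt_of bas_ev)
open Pool.TOP (T1c T2c t1n)
open Pool.JTN (TgP jatn_pts)
open Pool.CHB (chsysB no_B)

variable {m J : ℕ} {θ : ℝ} {S : PCl m} {P : List (Fin m) × Fin m → ℝ → ℝ → ℝ}

/-- `Pool.CHB.le_B`, for labels on large events. -/
theorem le_Bs (hS : S.Ne) {β PB : List (Fin m) × Fin m → ℝ → ℝ → ℝ}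
    (hP : ThrOf (chsysB m none β) S PB) (c : ℕ → Fin m) (i : ℕ) (K : ℕ → ℕ)
    {a w : ℝ} {a' w' : ℚ} {δ q K₁ : ℝ} (hK₁ : 0 < K₁) (hw : 0 ≤ w) (hwa : w ≤ a) (ha : a ≤ a')
    (hww : w ≤ w') (hwa' : w' ≤ a') (ha' : a' ≤ 1) (hδ : 0 < δ)
    (h : Bas S (fun J F A => ∃ B : F.Ω → Prop, Sub B A ∧ Pe F.p A ≤ K₁ * Pe F.p B ∧
      ∃ (e₀ : ℕ) (g : ℕ → ℕ),
      (∀ l ≤ i, g l ≤ J) ∧ (∀ l < i, (g l : ℝ) ≤ max 0 ((bet β c l a w - δ) * J)) ∧
      q * J ≤ g i + 1 ∧ ChN F c (i + 1) K ⌊a * J⌋₊ ⌊w * J⌋₊ e₀ g B)) :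
    min 1 (q + (a' - a)) ≤ bet PB c i a' w' := by
  by_contra hcon
  push Not at hcon
  have haR : (a' : ℝ) ≤ 1 := by exact_mod_cast ha'
  have hwaR : (w' : ℝ) ≤ a' := by exact_mod_cast hwa'
  have c1 : bet PB c i a' w' < 1 := hcon.trans_le (min_le_left _ _)
  have c2 : bet PB c i a' w' < q + (a' - a) := hcon.trans_le (min_le_right _ _)
  have c0 : 0 ≤ bet PB c i a' w' := by
    have h1 := hP.low ((List.range i).map c, c i) a' w' (hw.trans hww) hwaR haR
    have h2 : (0 : ℝ) ≤ a' := (hw.trans hwa).trans ha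
    exact h2.trans h1
  obtain ⟨η, hη⟩ : ∃ η, η = min (1 - bet PB c i a' w') ((q + (a' - a) - bet PB c i a' w') / 2) :=
    ⟨_, rfl⟩
  have hη0 : 0 < η := by rw [hη]; exact lt_min (by linarith) (by linarith)
  have hη1 : bet PB c i a' w' + η ≤ 1 := by
    have := min_le_left (1 - bet PB c i a' w') ((q + (a' - a) - bet PB c i a' w') / 2)
    rw [← hη] at this
    linarith
  have hη2 : bet PB c i a' w' + 2 * η ≤ q + (a' - a) := by
    have := min_le_right (1 - bet PB c i a' w') ((q + (a' - a) - bet PB c i a' w') / 2)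
    rw [← hη] at this
    linarith
  obtain ⟨J₁, hJ₁⟩ := exists_nat_ge (3 / η)
  refine Pool.LBT.bas_false hS h (Bas.mono J₁ (bas_ev (no_B hP c i K a' w' 0 η δ
    (by exact_mod_cast hw.trans hww) hwa' ha' (fun _ h => by simp at h) hη0 hδ hη1)
    (show 0 < 1 / K₁ by positivity)) ?_)
  rintro J hJ F A hn ⟨B, hB, hPB, e₀, g, k2, k3, k4, k5⟩
  have hJ0 : (0 : ℝ) ≤ J := Nat.cast_nonneg J
  have ha0 : 0 ≤ a := hw.trans hwa
  refine hn B hB (by
    rw [div_mul_eq_mul_div, one_mul, div_le_iff₀ hK₁]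
    linarith only [hPB]) a w e₀ g hw hwa (ha.trans haR)
    (Nat.floor_le_floor (mul_le_mul_of_nonneg_right ha hJ0))
    (Nat.floor_le_floor (mul_le_mul_of_nonneg_right hww hJ0)) (fun _ h => by simp at h) k2 k3 ?_ k5
  have hJ' : (J₁ : ℝ) ≤ J := by exact_mod_cast hJ
  have e1 : 3 / η ≤ J := hJ₁.trans hJ'
  rw [div_le_iff₀ hη0] at e1
  have f1 := Nat.floor_le (show 0 ≤ (bet PB c i a' w' + η) * (J : ℝ) by positivity)
  have f2 := Nat.floor_le (show 0 ≤ a * (J : ℝ) by positivity)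
  have f3 := Nat.lt_floor_add_one ((a' : ℝ) * (J : ℝ))
  have f5 := mul_le_mul_of_nonneg_right hη2 hJ0
  have f4 : ((⌊(bet PB c i a' w' + η) * J⌋₊ + ⌊a * J⌋₊ : ℕ) : ℝ) ≤
      ((g i + ⌊(a' : ℝ) * J⌋₊ : ℕ) : ℝ) := by
    push_cast
    linarith only [f1, f2, f3, f5, e1, k4]
  exact_mod_cast f4

/-- **The diagonal**, in the greedy order of the point. -/
theorem Gdy.diag {k : Fin m} {v : ℝ} {c : ℕ → Fin m} (h : Gdy P k v v c) (hne : S.Ne)
    (hP : ThrOf (chsys m θ) S P) (hθ : 0 < θ) (hS : TmH S) {Pt : ℝ → ℝ → ℝ}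
    (hPt : ThrOf (tgs k) S (fun _ => Pt)) {α Q sg : ℝ} (hT1 : T1c S k α sg)
    (hT2 : T2c S k α Q sg) (hα : α ≤ 1) (hsgθ : sg + θ < 1) (hQ : Q ≤ sg) (hv : 0 < v)
    (hvα : v < α) (hPQ : Pt v v ≤ Q) (hwd : v ∈ Wgd P) {β PB : List (Fin m) × Fin m → ℝ → ℝ → ℝ}
    (hβ : ∀ i, β i v v = P i v v) (hPB : ThrOf (chsysB m none β) S PB) :
    ∀ a', v < a' → a' ≤ 1 → min 1 (Pt v v + (a' - v)) ≤ bet PB c (m - 1) a' a' := by
  have hv1 : v < 1 := hvα.trans_le hα
  have hPv : v ≤ Pt v v := hPt.low () v v hv.le le_rfl hv1.le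
  have hsg : 0 ≤ sg := by linarith
  have hsg1 : sg < 1 := by linarith
  have hup : UpA P v v := Wgd.self hwd hv1
  have hbd := h.bd hne hP hθ hS hT1 hα hsg hsgθ hv le_rfl hvα
  have hθv : 0 < θ * v := mul_pos hθ hv
  have hr0 : (0 : ℝ) ≤ ((m - 1 : ℕ) : ℝ) := Nat.cast_nonneg _
  obtain ⟨e, he⟩ : ∃ e : ℝ, e = min (θ * v / 4) (1 / (2 * (((m - 1 : ℕ) : ℝ) + 1))) := ⟨_, rfl⟩
  have he0 : 0 < e := by rw [he]; exact lt_min (by positivity) (by positivity)
  have he1 : e ≤ θ * v / 4 := by rw [he]; exact min_le_left _ _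
  have he2 : e * (((m - 1 : ℕ) : ℝ) + 1) ≤ 1 / 2 := by
    have h1 : e ≤ 1 / (2 * (((m - 1 : ℕ) : ℝ) + 1)) := by rw [he]; exact min_le_right _ _
    rw [le_div_iff₀ (by positivity)] at h1
    linarith only [h1]
  have hptq : Ptq S P θ c (m - 1) 1 (fun _ => v) (fun _ => v) (fun _ => 0) (fun _ => θ * v / 2) := by
    refine Ptq.of_up hne hP hθ hS h.inj (fun _ _ => le_rfl) (fun _ _ => by positivity)
      (fun _ _ => hv) (fun _ _ => le_rfl) (fun _ _ => hv1) (fun _ _ => ?_)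
      (fun _ _ i _ l _ => hup.rc hv1 c l i) (fun _ _ i _ => hup.up c i) (fun _ _ i hi => ?_)
      fun _ _ i hi l hl => ?_
    · linarith only [hθv]
    · have h4 := hbd i hi
      have h5 : θ * v ≤ θ * 1 := mul_le_mul_of_nonneg_left hv1.le hθ.le
      linarith only [h4, h5, hsgθ]
    · rw [add_zero]
      exact h.tau hi hl
  have hall : ∀ i, i ≠ c (m - 1) → ∃ j < m - 1, c j = i := by
    rw [h.top]
    exact h.all
  have hT : TgP S c (m - 1) (Pt v v) v v sg := by
    have hPt' : ThrOf (tgs (c (m - 1))) S (fun _ => Pt) := by rw [h.top]; exact hPt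
    have hT1' : T1c S (c (m - 1)) α sg := by rw [h.top]; exact hT1
    have hT2' : T2c S (c (m - 1)) α Q sg := by rw [h.top]; exact hT2
    exact tgP_of' hne hP hθ hS hall hPt' hT1' hT2' hα hsgθ hQ hv le_rfl hvα hPQ hup hwd
  have hj := jatn_pts hP hθ hS (c := c) (r := m - 1) (N := 1) h.inj (a := fun _ => v)
    (w := fun _ => v) (vs := fun _ => 0) (e₀ := fun _ => θ * v / 2) (e := fun _ => e)
    (E := fun _ => 1) (sg := fun _ => sg) (P₀ := fun _ => Pt v v) (fun _ _ => le_rfl) hptq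
    (fun _ _ => by rw [mul_zero]; exact he0) (fun _ _ => by linarith only [he1, hθv])
    (fun _ _ => hPv) (fun _ _ => hT) (fun _ _ _ _ _ _ => le_rfl)
    (fun _ _ => by rw [add_zero]; linarith only [he2]) (fun _ _ => Or.inl (by
      linarith only [hsg1, hPv, hv]))
  -- rational windows
  have hrat : ∀ (a' : ℚ), v ≤ a' → a' ≤ 1 → ∀ φ : ℝ, 0 < φ →
      min 1 (Pt v v + (a' - v)) - φ ≤ bet PB c (m - 1) a' a' := by
    intro a' ha ha1 φ hφ
    obtain ⟨K, d, δ, K₁, hK₁, hd, hb⟩ := hj φ hφ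
    obtain ⟨μ, hμ, hμd⟩ : ∃ μ : ℝ, 0 < μ ∧ ∀ l < m - 1, μ ≤ d l := by
      rcases Nat.eq_zero_or_pos (m - 1) with h0 | h0
      · exact ⟨1, one_pos, fun l hl => by omega⟩
      · obtain ⟨l₀, hl₀, hmin⟩ := Finset.exists_min_image (range (m - 1)) d
          ⟨0, mem_range.2 h0⟩
        exact ⟨d l₀, (hd l₀ (mem_range.1 hl₀).le).1, fun l hl => hmin l (mem_range.2 hl)⟩
    have h1 := le_Bs hne hPB c (m - 1) (fun _ => K) (a := v) (w := v) (a' := a') (w' := a')
      (δ := μ) (q := Pt v v - d (m - 1)) hK₁ hv.le le_rfl ha ha le_rfl ha1 hμ (by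
        refine hb.mono 0 ?_
        rintro J - F A ⟨B, G, H, k1, k2, k3, -⟩
        have hJ0 : (0 : ℝ) ≤ J := Nat.cast_nonneg J
        refine ⟨B, k1, k2, _, _, fun l hl => ?_, fun l hl => ?_, ?_, G 0, H 0, k3.ok 0 one_pos⟩
        · refine Pool.LBT.fl_le' ?_ J
          have k4 := (hd l hl).1
          split_ifs with h5
          · have k5 := hbd l h5
            linarith only [k4, k5, hsg1]
          · linarith only [k4, hPQ, hQ, hsg1]
        · simp only [if_pos hl]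
          have e1 : bet β c l v v = bet P c l v v := hβ _
          rw [e1]
          rcases le_or_gt 0 (bet P c l v v - d l) with h5 | h5
          · refine (Nat.floor_le (mul_nonneg h5 hJ0)).trans (le_max_of_le_right ?_)
            exact mul_le_mul_of_nonneg_right (by linarith only [hμd l hl]) hJ0
          · rw [Nat.floor_of_nonpos (mul_nonpos_of_nonpos_of_nonneg h5.le hJ0), Nat.cast_zero]
            exact le_max_left _ _
        · simp only [if_neg (lt_irrefl (m - 1))]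
          exact (Nat.lt_floor_add_one _).le)
    have h2 := (hd (m - 1) le_rfl).2.1
    refine le_trans ?_ h1
    rw [sub_le_iff_le_add, ← min_add_add_right]
    refine le_min ((min_le_left _ _).trans (by linarith only [hφ])) ((min_le_right _ _).trans ?_)
    linarith only [h2]
  -- real windows
  intro a' ha ha1
  refine le_of_forall_pos_le_add fun ε hε => ?_
  obtain ⟨x, hx1, hx2⟩ := exists_rat_btwn (show max v (a' - ε / 2) < a' from
    max_lt ha (by linarith only [hε]))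
  have hx3 : v ≤ x := ((le_max_left _ _).trans_lt hx1).le
  have hx4 : a' - ε / 2 ≤ x := ((le_max_right _ _).trans_lt hx1).le
  have hx5 : (x : ℝ) ≤ 1 := hx2.le.trans ha1
  have h1 := hrat x hx3 (by exact_mod_cast hx5) (ε / 2) (by linarith only [hε])
  have h2 : bet PB c (m - 1) x x ≤ bet PB c (m - 1) a' a' :=
    (hPB.law _).mono (hv.le.trans hx3) le_rfl hx2.le hx2.le le_rfl ha1
  have h3 : min 1 (Pt v v + (a' - v)) ≤ min 1 (Pt v v + (x - v)) + ε / 2 := by
    rw [← min_add_add_right]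
    refine le_min ((min_le_left _ _).trans (by linarith only [hε])) ((min_le_right _ _).trans ?_)
    linarith only [hx4]
  linarith only [h1, h2, h3]

end Pool.FRN
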