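import Pool.Agent.H9.GEN.Ext0
import Pool.Agent.H2.GEN.ChU

/-!
# A label over a foreign list on the top of a chain

`ext_for`: let `c` be a chain of two-sided labels with the property `Relv`, and let a chain of
two-sided labels over any list of coordinates of `c` be given for the target `k`, and for every `j`
such a chain over a list of coordinates before `c j`. Then `k` may be put on the top of the chain
`c`; the precision of its label and its gradients are as they should be, up to a loss.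
-/

set_option autoImplicit false

namespace Pool.FRN

open Finset Real MvPolynomial
open Pool.Agent.H49.Ent Pool.Agent.H32.Dense Pool.STK Pool.KA Pool.KSAT Pool.K2S Pool.PB Pool.S6C
open Pool.GEN
open Pool.CHT (dgp one_le_dgp)

/-- **The target on the top of the chain.** -/
theorem ext_for (r₀ K' Kc : ℕ) : ∃ L : ℕ, ∀ {m J : ℕ} {F : Fam m J} {c : ℕ → Fin m}
    {r a w e h D ν s p : ℕ} {K q : ℕ → ℕ} {A : F.Ω → Prop} {κ η : ℝ}
    {G : PtT F → ℕ → MvPolynomial (Option (Fin m)) ℝ}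
    {H : LnT F → ℕ → MvPolynomial (Option (Fin m)) ℝ} {k : Fin m}
    {ic : ℕ → ℕ} {cc : ℕ → ℕ → Fin m} {aa ww ee : ℕ → ℕ} {gg : ℕ → ℕ → ℕ}
    {GG : ℕ → PtT F → ℕ → MvPolynomial (Option (Fin m)) ℝ}
    {HH : ℕ → LnT F → ℕ → MvPolynomial (Option (Fin m)) ℝ},
    r ≤ r₀ → Set.InjOn c (Set.Iio r) → (∀ l, K l ≤ Kc) → w ≤ J → max K' 1 ≤ D →
    0 ≤ η → η ≤ 1 → κ ≤ (1 - η) ^ ((r + 1) * (r₀ + 1)) →
    ChOK F c r K a w e q A G H → (∀ i < r, ∀ l < i, nlp q l i ≤ ν) →
    Relv F c r a w q A G D h κ η → Fgn F c r r₀ K' a w k A ic cc aa ww ee gg GG HH →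
    (∀ j < r, q j ≤ gg j (ic j) + s ∧ q j ≤ gg r (ic r) + s) →
    p + L * (h + 1) ≤ gg r (ic r) →
    ∃ B : F.Ω → Prop, Sub B A ∧ (1 - η) ^ ((r + 1) * (r₀ + 1)) * Pe F.p A ≤ Pe F.p B ∧
      ChOK F (fun l => if l < r then c l else k) (r + 1) (fun l => if l < r then K l else K') a w
        (L * (h + 1) + s + (r₀ + 1) * (e + ν + 2)) (fun l => if l < r then q l else p) B
        (fun y l => if l < r then G y l else GG r y (ic r))
        (fun s l => if l < r then H s l else hhw w ww ic HH r s) := by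
  obtain ⟨L, hL⟩ := all_uni r₀ K'
  obtain ⟨C₁, hC₁, hsl⟩ := Pool.CHT.slope_tri (K' * (max Kc 1) ^ r₀)
  obtain ⟨c₀, hc₀⟩ := pow_unbounded_of_one_lt C₁ (one_lt_two (α := ℝ))
  refine ⟨L + 1 + c₀, ?_⟩
  intro m J F c r a w e h D ν s p K q A κ η G H k ic cc aa ww ee gg GG HH hr hinj hKc hwJ hD hη0
    hη1 hκ hch hν hR hF hq hp
  obtain ⟨B, b1, b2, b3⟩ := hL hwJ hD hη0 hη1 hκ hR hF
  refine ⟨B, b1, b2, ?_⟩
  have h1 : L * (h + 1) ≤ (L + 1 + c₀) * (h + 1) := Nat.mul_le_mul_right _ (by omega)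
  have h2 : (L + 1) * (h + 1) + c₀ ≤ (L + 1 + c₀) * (h + 1) := by nlinarith
  have he : e ≤ (L + 1 + c₀) * (h + 1) + s + (r₀ + 1) * (e + ν + 2) := by nlinarith
  refine ext_top (hch.mono le_rfl (fun _ => le_rfl) le_rfl he) b1 k
    (fun y => (hF.ch r le_rfl).degG y _) (fun s => (hF.ch r le_rfl).degH _ _)
    (fun y => DepC.of_list ((hF.ch r le_rfl).depG y _) (hF.lst r le_rfl))
    (fun s => DepC.of_list ((hF.ch r le_rfl).depH _ _) (hF.lst r le_rfl))
    (fun ω hω => ?_) (fun ω hω b hb => ?_) fun ω hω b hb j hj => ?_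
  · have k1 := (hF.ch r le_rfl).pos ω (b1 ω hω) (ic r) (Nat.lt_succ_self _)
    rw [hF.tgt r le_rfl] at k1
    exact k1.trans (inv_mono (by omega))
  · refine ((b3 ω hω b hb).1).trans ?_
    rw [div_le_div_iff₀ (by positivity) (by positivity), one_mul, ← pow_add]
    exact pow_le_pow_right₀ (by norm_num) (by omega)
  · -- the gradient
    have hS : ∀ l < r, ∀ l' < l, |eval b (pderiv (some (c l')) (G (ptr F J ω) l))| ≤
        2 ^ (e + ν) := by
      intro l hl l' hl'
      refine (hch.lip ω (b1 ω hω) l hl b (hb.mono le_rfl hl.le) l' hl').trans ?_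
      exact pow_le_pow_right₀ (by norm_num) (Nat.add_le_add_left (hν l hl l' hl') _)
    have k1 := hsl (c := c) (i := r) (D₀ := K') (K := K) (G := G (ptr F J ω))
      (Q := GG r (ptr F J ω) (ic r)) (Qs := fun j => GG j (ptr F J ω) (ic j)) (g := q) (a := a)
      (t := F.t ω) (M := 2 ^ ((L + 1) * (h + 1) + s)) (S := 2 ^ (e + ν)) (b := b) hinj
      (hch.degG _) (hch.depG _)
      (DepC.of_list ((hF.ch r le_rfl).depG _ _) (hF.lst r le_rfl))
      (fun j hj => DepC.of_list ((hF.ch j hj.le).depG _ _) (hF.lst j hj.le))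
      ((hF.ch r le_rfl).degG _ _) (fun j hj => (hF.ch j hj.le).degG _ _)
      (fun j hj => by
        refine Nat.mul_le_mul_left _ ?_
        unfold dgp
        calc ∏ l ∈ Ico (j + 1) r, max (K l) 1 ≤ ∏ l ∈ Ico (j + 1) r, max Kc 1 :=
              Finset.prod_le_prod' fun l _ => max_le_max_right 1 (hKc l)
          _ ≤ _ := by
            rw [Finset.prod_const, Nat.card_Ico]
            exact Nat.pow_le_pow_right (lt_of_lt_of_le one_pos (le_max_right _ _)) (by omega))
      (by positivity) (by positivity) hb hS (fun j hj b' hb' => by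
        refine ((b3 ω hω b' hb').2 j hj).trans ?_
        rw [div_le_div_iff₀ (by positivity) (by positivity), ← pow_add, ← pow_add]
        refine pow_le_pow_right₀ (by norm_num) ?_
        have h4 := hq j hj
        have h5 : q j ≤ min (gg j (ic j)) (gg r (ic r)) + s := by omega
        omega) j hj
    refine k1.trans ?_
    have h3 : (2 * (1 + (2 : ℝ) ^ (e + ν))) ^ (r - 1 - j) ≤ 2 ^ ((e + ν + 2) * r₀) := by
      have h4 : (2 * (1 + (2 : ℝ) ^ (e + ν))) ≤ 2 ^ (e + ν + 2) := by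
        have : (1 : ℝ) ≤ 2 ^ (e + ν) := one_le_pow₀ (by norm_num)
        have e2 : (2 : ℝ) ^ (e + ν + 2) = 4 * 2 ^ (e + ν) := by rw [pow_add]; ring
        linarith
      calc (2 * (1 + (2 : ℝ) ^ (e + ν))) ^ (r - 1 - j) ≤ (2 ^ (e + ν + 2)) ^ (r - 1 - j) :=
            pow_le_pow_left₀ (by positivity) h4 _
        _ = 2 ^ ((e + ν + 2) * (r - 1 - j)) := by rw [← pow_mul]
        _ ≤ _ := pow_le_pow_right₀ (by norm_num) (Nat.mul_le_mul_left _ (by omega))
    calc C₁ * 2 ^ ((L + 1) * (h + 1) + s) * (2 * (1 + (2 : ℝ) ^ (e + ν))) ^ (r - 1 - j) ≤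
        2 ^ c₀ * 2 ^ ((L + 1) * (h + 1) + s) * 2 ^ ((e + ν + 2) * r₀) := by
          refine mul_le_mul (mul_le_mul_of_nonneg_right hc₀.le (by positivity)) h3
            (by positivity) (by positivity)
      _ = 2 ^ (c₀ + ((L + 1) * (h + 1) + s) + (e + ν + 2) * r₀) := by rw [← pow_add, ← pow_add]
      _ ≤ _ := by
        refine pow_le_pow_right₀ (by norm_num) ?_
        have h5 : (e + ν + 2) * r₀ ≤ (r₀ + 1) * (e + ν + 2) := by nlinarith
        omega

end Pool.FRN
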