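import Pool.Agent.H9.GEN.For

/-!
# Several labels of one target over foreign lists

`Fgn`: for `j ≤ r` a chain of two-sided labels with the target `k` over a list of coordinates before
`c j`. `all_two`, `all_uni`: all the labels of the target are two-sided on the natural box, and they
are equal on the natural box, up to a loss.
-/

set_option autoImplicit false

namespace Pool.FRN

open Finset Real MvPolynomial
open Pool.Agent.H49.Ent Pool.Agent.H32.Dense Pool.STK Pool.KA Pool.KSAT Pool.K2S Pool.PB Pool.S6C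
open Pool.GEN

variable {m J : ℕ}

/-- **The data**: for `j ≤ r` a chain of two-sided labels with the target `k` over a list of
coordinates before `c j`, on larger radii and windows, with any sides and any gradients. -/
structure Fgn (F : Fam m J) (c : ℕ → Fin m) (r r₀ K' a w : ℕ) (k : Fin m) (A : F.Ω → Prop)
    (ic : ℕ → ℕ) (cc : ℕ → ℕ → Fin m) (aa ww ee : ℕ → ℕ) (gg : ℕ → ℕ → ℕ)
    (GG : ℕ → PtT F → ℕ → MvPolynomial (Option (Fin m)) ℝ)
    (HH : ℕ → LnT F → ℕ → MvPolynomial (Option (Fin m)) ℝ) : Prop where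
  len : ∀ j ≤ r, ic j ≤ r₀
  inj : ∀ j ≤ r, Set.InjOn (cc j) (Set.Iio (ic j))
  lst : ∀ j ≤ r, ∀ l < ic j, ∃ l' < j, cc j l = c l'
  tgt : ∀ j ≤ r, cc j (ic j) = k
  rad : ∀ j ≤ r, aa j ≤ a
  win : ∀ j ≤ r, ww j ≤ w
  ch : ∀ j ≤ r, ChOK F (cc j) (ic j + 1) (fun _ => K') (aa j) (ww j) (ee j) (gg j) A (GG j) (HH j)

theorem Fgn.sub {F : Fam m J} {c : ℕ → Fin m} {r r₀ K' a w : ℕ} {k : Fin m}
    {A B : F.Ω → Prop} {ic : ℕ → ℕ} {cc : ℕ → ℕ → Fin m} {aa ww ee : ℕ → ℕ} {gg : ℕ → ℕ → ℕ}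
    {GG : ℕ → PtT F → ℕ → MvPolynomial (Option (Fin m)) ℝ}
    {HH : ℕ → LnT F → ℕ → MvPolynomial (Option (Fin m)) ℝ}
    (h : Fgn F c r r₀ K' a w k A ic cc aa ww ee gg GG HH) (hB : Sub B A) :
    Fgn F c r r₀ K' a w k B ic cc aa ww ee gg GG HH :=
  ⟨h.len, h.inj, h.lst, h.tgt, h.rad, h.win, fun j hj => (h.ch j hj).sub hB⟩

/-- The line side of the label `j`, over the window `w`. -/
def hhw (w : ℕ) (ww ic : ℕ → ℕ) {F : Fam m J}
    (HH : ℕ → LnT F → ℕ → MvPolynomial (Option (Fin m)) ℝ) (j : ℕ) (s : LnT F) :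
    MvPolynomial (Option (Fin m)) ℝ := HH j (s.1, s.2.1, s.2.2 / 2 ^ (w - ww j)) (ic j)

theorem hhw_eq {F : Fam m J} {w : ℕ} {ww ic : ℕ → ℕ}
    {HH : ℕ → LnT F → ℕ → MvPolynomial (Option (Fin m)) ℝ} {j : ℕ} (hw : ww j ≤ w) (hJ : w ≤ J)
    (ω : F.Ω) : hhw w ww ic HH j (slam F w ω) = HH j (slam F (ww j) ω) (ic j) := by
  have e1 := slam_coarse F hw hJ ω
  show HH j ((slam F w ω).1, (slam F w ω).2.1, (slam F w ω).2.2 / 2 ^ (w - ww j)) (ic j) = _
  rw [← e1]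

/-- All the labels are two-sided on the natural box. -/
theorem all_two (r₀ K' : ℕ) : ∃ L : ℕ, ∀ {m J : ℕ} {F : Fam m J} {c : ℕ → Fin m}
    {r a w h D : ℕ} {q : ℕ → ℕ} {A : F.Ω → Prop} {κ η : ℝ}
    {G : PtT F → ℕ → MvPolynomial (Option (Fin m)) ℝ} {k : Fin m}
    {ic : ℕ → ℕ} {cc : ℕ → ℕ → Fin m} {aa ww ee : ℕ → ℕ} {gg : ℕ → ℕ → ℕ}
    {GG : ℕ → PtT F → ℕ → MvPolynomial (Option (Fin m)) ℝ}
    {HH : ℕ → LnT F → ℕ → MvPolynomial (Option (Fin m)) ℝ},
    w ≤ J → max K' 1 ≤ D → 0 ≤ η → η ≤ 1 → κ ≤ (1 - η) ^ ((r + 1) * (r₀ + 1)) →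
    Relv F c r a w q A G D h κ η → Fgn F c r r₀ K' a w k A ic cc aa ww ee gg GG HH →
    ∃ B : F.Ω → Prop, Sub B A ∧ (1 - η) ^ ((r + 1) * r₀) * Pe F.p A ≤ Pe F.p B ∧
      ∀ ω, B ω → ∀ b, NBx c (G (ptr F J ω)) q a (F.t ω) r b → ∀ j ≤ r,
        |eval b (GG j (ptr F J ω) (ic j)) - eval b (hhw w ww ic HH j (slam F w ω))| ≤
          2 ^ (L * (h + 1)) / 2 ^ gg j (ic j) := by
  obtain ⟨L, hL⟩ := foreign r₀ K'
  refine ⟨L, ?_⟩
  intro m J F c r a w h D q A κ η G k ic cc aa ww ee gg GG HH hwJ hD hη0 hη1 hκ hR hF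
  have hPA := Pe_nonneg F.isLaw A
  have h1η : 0 ≤ 1 - η := by linarith
  have h2η : 1 - η ≤ 1 := by linarith
  have key : ∀ l ≤ r + 1, ∃ B : F.Ω → Prop, Sub B A ∧
      (1 - η) ^ (l * r₀) * Pe F.p A ≤ Pe F.p B ∧
      ∀ ω, B ω → ∀ b, NBx c (G (ptr F J ω)) q a (F.t ω) r b → ∀ j < l,
        |eval b (GG j (ptr F J ω) (ic j)) - eval b (hhw w ww ic HH j (slam F w ω))| ≤
          2 ^ (L * (h + 1)) / 2 ^ gg j (ic j) := by
    intro l
    induction l with
    | zero =>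
      intro _
      refine ⟨A, fun _ h => h, by rw [Nat.zero_mul, pow_zero, one_mul], fun ω _ b _ j hj =>
        absurd hj (Nat.not_lt_zero j)⟩
    | succ l ih =>
      intro hl
      obtain ⟨B, h1, h2, h3⟩ := ih (by omega)
      have hl' : l ≤ r := by omega
      have hlen := hF.len l hl'
      have hpow : κ * Pe F.p A ≤ (1 - η) ^ ic l * Pe F.p B := by
        have h4 : κ ≤ (1 - η) ^ (ic l + l * r₀) := by
          refine hκ.trans (pow_le_pow_of_le_one h1η h2η ?_)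
          calc ic l + l * r₀ ≤ r₀ + r * r₀ := Nat.add_le_add hlen (Nat.mul_le_mul_right _ hl')
            _ ≤ _ := by nlinarith
        calc κ * Pe F.p A ≤ (1 - η) ^ (ic l + l * r₀) * Pe F.p A :=
              mul_le_mul_of_nonneg_right h4 hPA
          _ = (1 - η) ^ ic l * ((1 - η) ^ (l * r₀) * Pe F.p A) := by rw [pow_add]; ring
          _ ≤ _ := mul_le_mul_of_nonneg_left h2 (pow_nonneg h1η _)
      obtain ⟨B', k1, k2, k3⟩ := hL hlen (hF.inj l hl') (fun j hj => by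
          obtain ⟨l', h4, h5⟩ := hF.lst l hl' j hj
          exact ⟨l', h4.trans_le hl', h5⟩) (hF.rad l hl') (hF.win l hl') hwJ hD hη0 hη1 le_rfl
        (hR.sub h1 hpow le_rfl le_rfl le_rfl) ((hF.ch l hl').sub h1)
      refine ⟨B', fun ω hω => h1 ω (k1 ω hω), ?_, fun ω hω b hb j hj => ?_⟩
      · refine le_trans ?_ k2
        calc (1 - η) ^ ((l + 1) * r₀) * Pe F.p A = (1 - η) ^ r₀ *
              ((1 - η) ^ (l * r₀) * Pe F.p A) := by rw [Nat.succ_mul, pow_add]; ring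
          _ ≤ (1 - η) ^ r₀ * Pe F.p B := mul_le_mul_of_nonneg_left h2 (pow_nonneg h1η _)
          _ ≤ _ := mul_le_mul_of_nonneg_right (pow_le_pow_of_le_one h1η h2η hlen)
              (Pe_nonneg F.isLaw B)
      · rcases Nat.lt_or_ge j l with h5 | h5
        · exact h3 ω (k1 ω hω) b hb j h5
        · have : j = l := by omega
          subst this
          rw [hhw_eq (hF.win j hl') hwJ]
          exact (k3 ω hω b hb).2
  obtain ⟨B, h1, h2, h3⟩ := key (r + 1) le_rfl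
  exact ⟨B, h1, h2, fun ω hω b hb j hj => h3 ω hω b hb j (by omega)⟩

/-- The target is close to the labels over the lists before `c j`. -/
theorem all_uni (r₀ K' : ℕ) : ∃ L : ℕ, ∀ {m J : ℕ} {F : Fam m J} {c : ℕ → Fin m}
    {r a w h D : ℕ} {q : ℕ → ℕ} {A : F.Ω → Prop} {κ η : ℝ}
    {G : PtT F → ℕ → MvPolynomial (Option (Fin m)) ℝ} {k : Fin m}
    {ic : ℕ → ℕ} {cc : ℕ → ℕ → Fin m} {aa ww ee : ℕ → ℕ} {gg : ℕ → ℕ → ℕ}
    {GG : ℕ → PtT F → ℕ → MvPolynomial (Option (Fin m)) ℝ}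
    {HH : ℕ → LnT F → ℕ → MvPolynomial (Option (Fin m)) ℝ},
    w ≤ J → max K' 1 ≤ D → 0 ≤ η → η ≤ 1 → κ ≤ (1 - η) ^ ((r + 1) * (r₀ + 1)) →
    Relv F c r a w q A G D h κ η → Fgn F c r r₀ K' a w k A ic cc aa ww ee gg GG HH →
    ∃ B : F.Ω → Prop, Sub B A ∧ (1 - η) ^ ((r + 1) * (r₀ + 1)) * Pe F.p A ≤ Pe F.p B ∧
      ∀ ω, B ω → ∀ b, NBx c (G (ptr F J ω)) q a (F.t ω) r b →
        |eval b (GG r (ptr F J ω) (ic r)) - eval b (hhw w ww ic HH r (slam F w ω))| ≤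
          2 ^ (L * (h + 1)) / 2 ^ gg r (ic r) ∧
        ∀ j < r, |eval b (GG r (ptr F J ω) (ic r)) - eval b (GG j (ptr F J ω) (ic j))| ≤
          2 ^ ((L + 1) * (h + 1)) / 2 ^ min (gg j (ic j)) (gg r (ic r)) := by
  obtain ⟨L, hL⟩ := all_two r₀ K'
  refine ⟨L, ?_⟩
  intro m J F c r a w h D q A κ η G k ic cc aa ww ee gg GG HH hwJ hD hη0 hη1 hκ hR hF
  have hPA := Pe_nonneg F.isLaw A
  have h1η : 0 ≤ 1 - η := by linarith
  have h2η : 1 - η ≤ 1 := by linarith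
  obtain ⟨B₀, b1, b2, b3⟩ := hL hwJ hD hη0 hη1 hκ hR hF
  have hKD : K' ≤ D := (le_max_left _ _).trans hD
  have hdG : ∀ j ≤ r, ∀ y, (GG j y (ic j)).totalDegree ≤ D := fun j hj y =>
    ((hF.ch j hj).degG y _).trans hKD
  have hdH : ∀ j ≤ r, ∀ s, (hhw w ww ic HH j s).totalDegree ≤ D := fun j hj s =>
    ((hF.ch j hj).degH _ _).trans hKD
  have heG : ∀ j ≤ r, ∀ y, DepC c r (GG j y (ic j)) := fun j hj y =>
    DepC.of_list ((hF.ch j hj).depG y _) fun l hl => by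
      obtain ⟨l', h4, h5⟩ := hF.lst j hj l hl
      exact ⟨l', h4.trans_le hj, h5⟩
  have heH : ∀ j ≤ r, ∀ s, DepC c r (hhw w ww ic HH j s) := fun j hj s =>
    DepC.of_list ((hF.ch j hj).depH _ _) fun l hl => by
      obtain ⟨l', h4, h5⟩ := hF.lst j hj l hl
      exact ⟨l', h4.trans_le hj, h5⟩
  have inv_min : ∀ (x y : ℕ) (M : ℝ), 0 ≤ M → M / 2 ^ x ≤ M / 2 ^ min x y ∧
      M / 2 ^ y ≤ M / 2 ^ min x y := fun x y M hM =>
    ⟨div_le_div_of_nonneg_left hM (by positivity)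
      (pow_le_pow_right₀ (by norm_num) (min_le_left _ _)),
     div_le_div_of_nonneg_left hM (by positivity)
      (pow_le_pow_right₀ (by norm_num) (min_le_right _ _))⟩
  have key : ∀ l ≤ r, ∃ B : F.Ω → Prop, Sub B B₀ ∧
      (1 - η) ^ l * Pe F.p B₀ ≤ Pe F.p B ∧
      ∀ ω, B ω → ∀ b, NBx c (G (ptr F J ω)) q a (F.t ω) r b → ∀ j < l,
        |eval b (GG r (ptr F J ω) (ic r)) - eval b (GG j (ptr F J ω) (ic j))| ≤
          2 ^ ((L + 1) * (h + 1)) / 2 ^ min (gg j (ic j)) (gg r (ic r)) := by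
    intro l
    induction l with
    | zero =>
      intro _
      refine ⟨B₀, fun _ h => h, by rw [pow_zero, one_mul], fun ω _ b _ j hj =>
        absurd hj (Nat.not_lt_zero j)⟩
    | succ l ih =>
      intro hl
      obtain ⟨B, h1, h2, h3⟩ := ih (by omega)
      have hl' : l ≤ r := by omega
      have hpow : κ * Pe F.p A ≤ Pe F.p B := by
        have h4 : κ ≤ (1 - η) ^ (l + (r + 1) * r₀) := by
          refine hκ.trans (pow_le_pow_of_le_one h1η h2η ?_)
          nlinarith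
        calc κ * Pe F.p A ≤ (1 - η) ^ (l + (r + 1) * r₀) * Pe F.p A :=
              mul_le_mul_of_nonneg_right h4 hPA
          _ = (1 - η) ^ l * ((1 - η) ^ ((r + 1) * r₀) * Pe F.p A) := by rw [pow_add]; ring
          _ ≤ (1 - η) ^ l * Pe F.p B₀ := mul_le_mul_of_nonneg_left b2 (pow_nonneg h1η _)
          _ ≤ _ := h2
      have hone : (1 : ℝ) ≤ 2 ^ (L * (h + 1)) := one_le_pow₀ (by norm_num)
      obtain ⟨B', k1, k2, k3⟩ := uni_s (p := min (gg l (ic l)) (gg r (ic r)))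
        (s := L * (h + 1)) (k := k) hR (fun ω hω => b1 ω (h1 ω hω)) hpow (hdG r le_rfl)
        (hdG l hl') (hdH r le_rfl) (hdH l hl') (heG r le_rfl) (heG l hl') (heH r le_rfl)
        (heH l hl') (by
          intro ω hω
          have hA := b1 ω (h1 ω hω)
          have k1 := (hF.ch r le_rfl).pos ω hA (ic r) (Nat.lt_succ_self _)
          have k2 := (hF.ch l hl').pos ω hA (ic l) (Nat.lt_succ_self _)
          rw [hF.tgt r le_rfl] at k1
          rw [hF.tgt l hl'] at k2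
          constructor
          · refine k1.trans (le_trans ?_ (inv_min (gg l (ic l)) (gg r (ic r)) _
              (by positivity)).2)
            exact div_le_div_of_nonneg_right hone (by positivity)
          · refine k2.trans (le_trans ?_ (inv_min (gg l (ic l)) (gg r (ic r)) _
              (by positivity)).1)
            exact div_le_div_of_nonneg_right hone (by positivity)) (by
          intro ω hω b hb
          have k1 := b3 ω (h1 ω hω) b hb r le_rfl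
          have k2 := b3 ω (h1 ω hω) b hb l hl'
          exact ⟨k1.trans (inv_min (gg l (ic l)) (gg r (ic r)) _ (by positivity)).2,
            k2.trans (inv_min (gg l (ic l)) (gg r (ic r)) _ (by positivity)).1⟩)
      refine ⟨B', fun ω hω => h1 ω (k1 ω hω), ?_, fun ω hω b hb j hj => ?_⟩
      · refine le_trans ?_ k2
        rw [pow_succ']
        calc (1 - η) * (1 - η) ^ l * Pe F.p B₀ = (1 - η) * ((1 - η) ^ l * Pe F.p B₀) := by
              ring
          _ ≤ _ := mul_le_mul_of_nonneg_left h2 h1η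
      · rcases Nat.lt_or_ge j l with h5 | h5
        · exact h3 ω (k1 ω hω) b hb j h5
        · have : j = l := by omega
          subst this
          refine (k3 ω hω b hb).trans (le_of_eq ?_)
          congr 2
          ring
  obtain ⟨B, h1, h2, h3⟩ := key r le_rfl
  refine ⟨B, fun ω hω => b1 ω (h1 ω hω), ?_, fun ω hω b hb =>
    ⟨b3 ω (h1 ω hω) b hb r le_rfl, fun j hj => h3 ω hω b hb j hj⟩⟩
  refine le_trans ?_ h2
  calc (1 - η) ^ ((r + 1) * (r₀ + 1)) * Pe F.p A ≤ (1 - η) ^ (r + (r + 1) * r₀) * Pe F.p A :=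
        mul_le_mul_of_nonneg_right (pow_le_pow_of_le_one h1η h2η (by nlinarith)) hPA
    _ = (1 - η) ^ r * ((1 - η) ^ ((r + 1) * r₀) * Pe F.p A) := by rw [pow_add]; ring
    _ ≤ _ := mul_le_mul_of_nonneg_left b2 (pow_nonneg h1η _)

end Pool.FRN
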