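import Pool.Agent.H2.GEN.ChG

/-!
# Natural boxes with real sides

`NBr c G σ α t i`: the natural box over the system `G` with the time radius `α` and the sides `σ l`,
`l < i`. A polynomial which is bounded on the natural box is bounded on the boxes which are larger
by the factors `2 ^ (n l)` (`nbr_grow`).
-/

set_option autoImplicit false

namespace Pool.FRN

open Finset Real MvPolynomial
open Pool.GEN (DepC NBx)
open Pool.CHT (dgp grow_one curve natDegree_aeval_mul)

variable {m : ℕ}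

/-- **The natural box** over the system `G`: time radius `α`, sides `σ l`. -/
def NBr (c : ℕ → Fin m) (G : ℕ → MvPolynomial (Option (Fin m)) ℝ) (σ : ℕ → ℝ) (α : ℝ) (t : ℝ)
    (i : ℕ) (b : Option (Fin m) → ℝ) : Prop :=
  |b none - t| ≤ α ∧ ∀ l < i, |b (some (c l)) - eval b (G l)| ≤ σ l

theorem nbr_of_nbx {c : ℕ → Fin m} {G : ℕ → MvPolynomial (Option (Fin m)) ℝ} {g : ℕ → ℕ}
    {a i : ℕ} {t : ℝ} {b : Option (Fin m) → ℝ} (h : NBx c G g a t i b) :
    NBr c G (fun l => 1 / 2 ^ g l) (1 / 2 ^ a) t i b := h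

theorem nbx_of_nbr {c : ℕ → Fin m} {G : ℕ → MvPolynomial (Option (Fin m)) ℝ} {g : ℕ → ℕ}
    {a i : ℕ} {t : ℝ} {b : Option (Fin m) → ℝ}
    (h : NBr c G (fun l => 1 / 2 ^ g l) (1 / 2 ^ a) t i b) : NBx c G g a t i b := h

/-- One coordinate. -/
theorem growr_dir (D : ℕ) : ∃ C : ℝ, 1 ≤ C ∧ ∀ {m : ℕ} {c : ℕ → Fin m} {i : ℕ} {K : ℕ → ℕ}
    {G : ℕ → MvPolynomial (Option (Fin m)) ℝ} {Q : MvPolynomial (Option (Fin m)) ℝ}
    {σ σ' : ℕ → ℝ} {α : ℝ} {n j D₀ : ℕ} {t M : ℝ}, Set.InjOn c (Set.Iio i) →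
    (∀ l, (G l).totalDegree ≤ K l) → (∀ l, DepC c l (G l)) → DepC c i Q → Q.totalDegree ≤ D₀ →
    j < i → D₀ * dgp K j i ≤ D → σ' j = 2 ^ n * σ j → (∀ l < i, l ≠ j → σ' l = σ l) →
    (∀ b, NBr c G σ α t i b → |eval b Q| ≤ M) → ∀ b, NBr c G σ' α t i b →
      |eval b Q| ≤ C * 2 ^ (n * (D₀ * dgp K j i)) * M := by
  obtain ⟨C, hC, h⟩ := grow_one D
  refine ⟨C, hC, ?_⟩
  intro m c i K G Q σ σ' α n j D₀ t M hc hdeg hdep hQ hQd hj hD hg hg' hM b hb
  obtain ⟨p, h1, h2, h3, h4, h5, h6⟩ := curve hc hdeg hdep b i hj le_rfl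
  have hpe : ∀ s, (MvPolynomial.aeval p Q).eval s = eval (fun o => (p o).eval s) Q := fun s =>
    Pool.KBX.eval_aeval_poly Q p s
  have hb1 : (fun o => (p o).eval 1) = b := funext h6
  have h2n : (0 : ℝ) < 2 ^ n := by positivity
  have h7 := h (MvPolynomial.aeval p Q) M n (D₀ * dgp K j i)
    (natDegree_aeval_mul Q p h1 hQd) hD (by
      intro τ hτ
      rw [hpe]
      refine hM _ ⟨?_, fun l hl => ?_⟩
      · show |(p none).eval _ - t| ≤ _
        rw [h2]
        exact hb.1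
      · show |(p (some (c l))).eval (τ / 2 ^ n) -
          eval (fun o => (p o).eval (τ / 2 ^ n)) (G l)| ≤ σ l
        rcases Nat.lt_trichotomy l j with h8 | h8 | h8
        · have h9 : eval (fun o => (p o).eval (τ / 2 ^ n)) (G l) = eval b (G l) :=
            hdep l _ _ (h2 _) fun l' hl' => h3 l' (hl'.trans h8) _
          rw [h3 l h8, h9, ← hg' l hl h8.ne]
          exact hb.2 l hl
        · subst h8
          have h9 : eval (fun o => (p o).eval (τ / 2 ^ n)) (G l) = eval b (G l) :=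
            hdep l _ _ (h2 _) fun l' hl' => h3 l' hl' _
          rw [h4, h9, add_sub_cancel_left, abs_mul, abs_of_nonneg (by
            exact div_nonneg hτ.1 (by positivity) : (0 : ℝ) ≤ τ / 2 ^ n)]
          have h10 := hb.2 l hl
          rw [hg] at h10
          calc τ / 2 ^ n * |b (some (c l)) - eval b (G l)| ≤
              1 / 2 ^ n * (2 ^ n * σ l) :=
                mul_le_mul (div_le_div_of_nonneg_right hτ.2 (by positivity)) h10 (abs_nonneg _)
                  (by positivity)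
            _ = σ l := by
              rw [← mul_assoc, one_div_mul_cancel h2n.ne', one_mul]
        · rw [h5 l h8 hl, add_sub_cancel_left, ← hg' l hl h8.ne']
          exact hb.2 l hl)
  rw [hpe, hb1] at h7
  exact h7

/-- **The growth** of polynomials on natural boxes. -/
theorem nbr_grow (D r : ℕ) : ∃ C : ℝ, 1 ≤ C ∧ ∀ {m : ℕ} {c : ℕ → Fin m} {i : ℕ} {K : ℕ → ℕ}
    {G : ℕ → MvPolynomial (Option (Fin m)) ℝ} {Q : MvPolynomial (Option (Fin m)) ℝ}
    {σ : ℕ → ℝ} {n : ℕ → ℕ} {α : ℝ} {D₀ : ℕ} {t M : ℝ}, i ≤ r → Set.InjOn c (Set.Iio i) →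
    (∀ l, (G l).totalDegree ≤ K l) → (∀ l, DepC c l (G l)) → DepC c i Q → Q.totalDegree ≤ D₀ →
    (∀ j < i, D₀ * dgp K j i ≤ D) → 0 ≤ M →
    (∀ b, NBr c G σ α t i b → |eval b Q| ≤ M) → ∀ b, NBr c G (fun l => 2 ^ n l * σ l) α t i b →
      |eval b Q| ≤ C * 2 ^ (∑ j ∈ range i, n j * (D₀ * dgp K j i)) * M := by
  obtain ⟨C, hC, h⟩ := growr_dir D
  refine ⟨C ^ r, one_le_pow₀ hC, ?_⟩
  intro m c i K G Q σ n α D₀ t M hir hc hdeg hdep hQ hQd hD hM1 hM b hb
  have key : ∀ j ≤ i, ∀ b, NBr c G (fun l => if l < j then 2 ^ n l * σ l else σ l) α t i b →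
      |eval b Q| ≤ C ^ j * 2 ^ (∑ l ∈ range j, n l * (D₀ * dgp K l i)) * M := by
    intro j
    induction j with
    | zero =>
      intro _ b hb
      rw [pow_zero, range_zero, sum_empty, pow_zero, one_mul, one_mul]
      exact hM b ⟨hb.1, fun l hl => by simpa using hb.2 l hl⟩
    | succ j ih =>
      intro hj b hb
      have h1 := h (σ := fun l => if l < j then 2 ^ n l * σ l else σ l)
        (σ' := fun l => if l < j + 1 then 2 ^ n l * σ l else σ l) (n := n j) (j := j) hc hdeg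
        hdep hQ hQd (by omega : j < i) (hD j (by omega)) (by
          simp only [lt_irrefl, if_false, Nat.lt_succ_self, if_true]) (fun l _ hl => by
          rcases Nat.lt_trichotomy l j with h2 | h2 | h2
          · simp only [if_pos h2, if_pos (show l < j + 1 by omega)]
          · exact absurd h2 hl
          · simp only [if_neg (show ¬ l < j by omega), if_neg (show ¬ l < j + 1 by omega)])
        (ih (by omega)) b hb
      refine h1.trans (le_of_eq ?_)
      rw [sum_range_succ, pow_add, pow_succ]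
      ring
  have h2 := key i le_rfl b ⟨hb.1, fun l hl => by simpa only [if_pos hl] using hb.2 l hl⟩
  refine h2.trans ?_
  refine mul_le_mul_of_nonneg_right ?_ hM1
  exact mul_le_mul_of_nonneg_right (pow_le_pow_right₀ hC hir) (by positivity)

end Pool.FRN
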