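import Pool.Agent.H2.GEN.ChS

/-!
# The slope law for chains, with visible own values

`ch_slopeV`: the slope law `Pool.CHT.ch_slope'` when the distance of the point to its labels is known
to be visible (for instance for labels with large gradients).
-/

set_option autoImplicit false

namespace Pool.PBL

open Finset Real MvPolynomial
open Pool.Agent.H49.Ent Pool.Agent.H32.Dense Pool.STK Pool.KA Pool.KSAT Pool.K2S Pool.PB Pool.S6C
open Pool.GEN Pool.CHT
open Pool.FLF (Fam.sub)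
open Pool.PB.Trl (rt rt_mem t_rt)

/-- **The slope law for chains** with visible own values. The label `i` loses `(i + 1) u` digits. -/
theorem ch_slopeV (m r : ℕ) (K : ℕ → ℕ) (hK : ∀ i, 1 ≤ K i) : ∃ (C₁ : ℝ) (c₀ : ℕ), 1 ≤ C₁ ∧
    ∀ (J : ℕ) (F : Fam m J) (c : ℕ → Fin m) (a w e v u : ℕ) (g : ℕ → ℕ) (A : F.Ω → Prop)
      (G : PtT F → ℕ → MvPolynomial (Option (Fin m)) ℝ)
      (H : LnT F → ℕ → MvPolynomial (Option (Fin m)) ℝ) (θ : ℝ) (hA : 0 < Pe F.p A),
      Set.InjOn c (Set.Iio r) → w ≤ a → w ≤ J →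
      (∀ ω, A ω → ∀ i < r, |F.x ω (c i) - eval (bt F ω) (G (ptr F J ω) i) -
        (((ptr F J ω).1 (c i) : ℝ) / 2 ^ J - eval (bho J J (ptr F J ω)) (G (ptr F J ω) i))| ≤
          1 / 2 / 2 ^ (g i + v)) →
      r * u + 1 ≤ v → 0 ≤ θ → (Fam.sub F A hA).Tm θ →
      C₁ * (θ + 1) ≤ ((J : ℝ) - w) * Real.log 2 → Real.exp (C₁ * (θ + 1)) ≤ 2 ^ u →
      ChOK F c r K a w e g A G H →
      ∃ B : F.Ω → Prop, Sub B A ∧ Pe F.p A / 2 ≤ Pe F.p B ∧
        ChOK F c r K (a + v) w (e + c₀) (fun i => g i + v - (i + 1) * u) B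
          (fun y i => Gno (c i) J J (fun y => G y i) y)
          (fun s i => Hno (c i) (fun s => H s i) s) := by
  classical
  obtain ⟨Km, hKm⟩ : ∃ Km, Km = (range r).sup K := ⟨_, rfl⟩
  have hKi : ∀ i < r, K i ≤ Km := fun i hi => by
    rw [hKm]; exact Finset.le_sup (f := K) (mem_range.2 hi)
  obtain ⟨D, hD⟩ : ∃ D, D = ∑ i ∈ range r, K i * dga K i := ⟨_, rfl⟩
  have hDi : ∀ i < r, K i * dga K i ≤ D := fun i hi => by
    rw [hD]
    exact Finset.single_le_sum (f := fun i => K i * dga K i) (fun _ _ => Nat.zero_le _)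
      (mem_range.2 hi)
  obtain ⟨C, hC, hat⟩ := slope_at D
  obtain ⟨C₀, hC₀, hrem⟩ := Pool.PZ.Zrt.rem_ev (m := m) (2 * Km)
  obtain ⟨c₁, h₁⟩ := nbx_dbl r K
  obtain ⟨R, hR⟩ : ∃ R : ℝ, R = 4 * r + 1 := ⟨_, rfl⟩
  have hR1 : 1 ≤ R := by
    rw [hR]
    have : (0 : ℝ) ≤ r := Nat.cast_nonneg r
    linarith
  obtain ⟨D', hD'⟩ : ∃ D' : ℝ, D' = 2 * C * (2 ^ c₁ + R) + 1 := ⟨_, rfl⟩
  have hc₁0 : (0 : ℝ) < 2 ^ c₁ := by positivity
  have hD'1 : 1 ≤ D' := by
    rw [hD']
    have : 0 ≤ 2 * C * (2 ^ c₁ + R) := by positivity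
    linarith
  have hlD : 0 ≤ Real.log D' := Real.log_nonneg hD'1
  refine ⟨C₀ + Real.log D' + D', c₁, by linarith, ?_⟩
  intro J F c a w e v u g A G H θ hA hc hwa hwJ hvis huv hθ hTm hN hu hL
  obtain ⟨E, hE⟩ : ∃ E : ℝ, E = Real.exp (C₀ * (θ + 1)) := ⟨_, rfl⟩
  have hE1 : 1 ≤ E := by
    rw [hE, Real.one_le_exp_iff]
    have : 0 ≤ θ + 1 := by linarith only [hθ]
    nlinarith only [hC₀, hθ]
  have hDE : D' * E ≤ 2 ^ u := by
    refine le_trans ?_ hu
    have h1 : Real.exp ((C₀ + Real.log D' + D') * (θ + 1)) =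
        E * Real.exp ((Real.log D' + D') * (θ + 1)) := by
      rw [hE, ← Real.exp_add]
      congr 1
      ring
    rw [h1, mul_comm D']
    refine mul_le_mul_of_nonneg_left ?_ (by linarith only [hE1])
    calc D' = Real.exp (Real.log D') := (Real.exp_log (by linarith only [hD'1])).symm
      _ ≤ _ := Real.exp_le_exp.2 (by nlinarith only [hθ, hlD, hD'1])
  -- the heights of the lines
  obtain ⟨q, hq⟩ : ∃ q : LnT F → ℕ → Polynomial ℝ, q = fun s i =>
      qso (c i) (fun s => H s i) s w := ⟨_, rfl⟩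
  have hqd : ∀ s, ∀ i < r, (q s i).natDegree ≤ Km := by
    intro s i hi
    rw [hq]
    exact deg_qso _ _ _ _ ((hK i).trans (hKi i hi)) ((hL.degH s i).trans (hKi i hi))
  obtain ⟨Q, hQ⟩ : ∃ Q : LnT F → Polynomial ℝ, Q = fun s =>
      ∑ i ∈ range r, (Polynomial.C ((2 : ℝ) ^ g i) * q s i) ^ 2 := ⟨_, rfl⟩
  have hQe : ∀ s τ, (Q s).eval τ = ∑ i ∈ range r, (2 ^ g i * (q s i).eval τ) ^ 2 := by
    intro s τ
    rw [hQ]
    simp only [Polynomial.eval_finsetSum, Polynomial.eval_pow, Polynomial.eval_mul,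
      Polynomial.eval_C]
  have hQd : ∀ s, (Q s).natDegree ≤ 2 * Km := by
    intro s
    rw [hQ]
    refine Polynomial.natDegree_sum_le_of_forall_le _ _ fun i hi => ?_
    refine Polynomial.natDegree_pow_le.trans (Nat.mul_le_mul_left 2 ?_)
    exact (Polynomial.natDegree_C_mul_le _ _).trans (hqd s i (mem_range.1 hi))
  have hown : ∀ ω, A ω → ∀ i < r, |(q (slam F w ω) i).eval (rt F w ω)| ≤ 2 / 2 ^ g i := by
    intro ω hω i hi
    rw [hq]
    show |(qso (c i) (fun s => H s i) (slam F w ω) w).eval (rt F w ω)| ≤ 2 / 2 ^ g i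
    rw [eval_qso, ← t_rt F hwJ, eso_at]
    have h1 := hL.pos ω hω i hi
    have h3 := hL.agr ω hω i hi (bt F ω) (hL.self hω hi.le)
    have h4 : (2 : ℝ) / 2 ^ g i = 1 / 2 ^ g i + 1 / 2 ^ g i := by ring
    rw [h4]
    rw [abs_le] at h1 h3 ⊢
    constructor <;> linarith only [h1.1, h1.2, h3.1, h3.2]
  obtain ⟨B, hBA, hBP, hB⟩ := hrem J F A hA w Q R θ hwJ hQd (by linarith only [hR1]) hθ hTm (by
      refine le_trans ?_ hN
      refine mul_le_mul_of_nonneg_right ?_ (by linarith only [hθ])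
      linarith only [hlD, hD'1]) (fun ω hω => by
      rw [hQe]
      have h1 : ∀ i ∈ range r, (2 ^ g i * (q (slam F w ω) i).eval (rt F w ω)) ^ 2 ≤ 4 := by
        intro i hi
        have h2 := hown ω hω i (mem_range.1 hi)
        have h3 : |2 ^ g i * (q (slam F w ω) i).eval (rt F w ω)| ≤ 2 := by
          rw [abs_mul, abs_of_pos (by positivity : (0 : ℝ) < 2 ^ g i)]
          rw [le_div_iff₀ (by positivity)] at h2
          linarith only [h2]
        have h4 := abs_le.1 h3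
        nlinarith only [h4.1, h4.2]
      have h2 : 0 ≤ ∑ i ∈ range r, (2 ^ g i * (q (slam F w ω) i).eval (rt F w ω)) ^ 2 :=
        Finset.sum_nonneg fun i _ => sq_nonneg _
      rw [abs_of_nonneg h2]
      refine (Finset.sum_le_sum h1).trans ?_
      rw [Finset.sum_const, card_range, nsmul_eq_mul, hR]
      linarith)
  have hBq : ∀ ω, B ω → ∀ i < r, ∀ τ ∈ Set.Icc (0 : ℝ) 1,
      |(qso (c i) (fun s => H s i) (slam F w ω) w).eval τ| ≤ E * R / 2 ^ g i := by
    intro ω hω i hi τ hτ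
    have h1 := hB ω hω τ hτ
    rw [hQe, ← hE] at h1
    have h2 : (2 ^ g i * (q (slam F w ω) i).eval τ) ^ 2 ≤
        ∑ i ∈ range r, (2 ^ g i * (q (slam F w ω) i).eval τ) ^ 2 :=
      Finset.single_le_sum (f := fun i => (2 ^ g i * (q (slam F w ω) i).eval τ) ^ 2)
        (fun _ _ => sq_nonneg _) (mem_range.2 hi)
    have h3 := h2.trans ((le_abs_self _).trans h1)
    have h4 : 1 ≤ E * R := by nlinarith only [hE1, hR1]
    have h5 : |2 ^ g i * (q (slam F w ω) i).eval τ| ≤ E * R := by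
      refine abs_le_of_sq_le_sq (h3.trans ?_) (by linarith only [h4])
      nlinarith only [h4]
    rw [abs_mul, abs_of_pos (by positivity : (0 : ℝ) < 2 ^ g i)] at h5
    rw [le_div_iff₀ (by positivity)]
    have h6 : (qso (c i) (fun s => H s i) (slam F w ω) w) = q (slam F w ω) i := by rw [hq]
    rw [h6]
    linarith only [h5]
  -- the visible constants
  obtain ⟨δ, hδ⟩ : ∃ δ : PtT F → ℕ → ℝ, δ = fun y i =>
      (y.1 (c i) : ℝ) / 2 ^ J - eval (bho J J y) (G y i) := ⟨_, rfl⟩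
  have hGn : ∀ y i b, eval b (Gno (c i) J J (fun y => G y i) y) = eval b (G y i) + δ y i := by
    intro y i b
    rw [hδ]
    unfold Gno
    rw [map_add, eval_C]
  have hρ : ∀ ω, A ω → ∀ i < r, |F.x ω (c i) - eval (bt F ω) (G (ptr F J ω) i) -
      δ (ptr F J ω) i| ≤ 1 / 2 / 2 ^ (g i + v) := by
    intro ω hω i hi
    rw [hδ]
    exact hvis ω hω i hi
  have hui : ∀ i < r, (i + 1) * u ≤ v := by
    intro i hi
    have : (i + 1) * u ≤ r * u := Nat.mul_le_mul_right u hi
    omega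
  -- the new boxes
  have hmove : ∀ ω, A ω → ∀ i < r, ∀ b : Option (Fin m) → ℝ,
      NBx c (fun i => Gno (c i) J J (fun y => G y i) (ptr F J ω))
        (fun i => g i + v - (i + 1) * u) (a + v) (F.t ω) i b →
      |b none - F.t ω| ≤ 2 / 2 ^ (v - i * u) / 2 ^ a ∧ ∀ l < i, |(b (some (c l)) -
        eval b (G (ptr F J ω) l)) - (F.x ω (c l) - eval (bt F ω) (G (ptr F J ω) l))| ≤
          2 / 2 ^ (v - i * u) / 2 ^ g l := by
    intro ω hω i hi b hb
    constructor
    · refine hb.1.trans ?_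
      rw [div_div, ← pow_add]
      calc (1 : ℝ) / 2 ^ (a + v) ≤ 2 / 2 ^ (a + v) := by
            refine div_le_div_of_nonneg_right (by norm_num) (by positivity)
        _ ≤ 2 / 2 ^ (v - i * u + a) := by
            refine div_le_div_of_nonneg_left (by norm_num) (by positivity) ?_
            exact pow_le_pow_right₀ (by norm_num) (by omega)
    · intro l hl
      have h3 := hb.2 l hl
      simp only at h3
      rw [hGn] at h3
      have h4 := hρ ω hω l (hl.trans hi)
      have h5 : (1 : ℝ) / 2 / 2 ^ (g l + v) ≤ 1 / 2 ^ (g l + v - (l + 1) * u) := by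
        rw [div_div]
        refine one_div_le_one_div_of_le (by positivity) ?_
        have h6 : (2 : ℝ) ^ (g l + v - (l + 1) * u) ≤ 2 ^ (g l + v) :=
          pow_le_pow_right₀ (by norm_num) (by omega)
        have h7 : (0 : ℝ) < 2 ^ (g l + v) := by positivity
        linarith only [h6, h7]
      have h8 : (2 : ℝ) / 2 ^ (g l + v - (l + 1) * u) ≤ 2 / 2 ^ (v - i * u) / 2 ^ g l := by
        rw [div_div, ← pow_add]
        refine div_le_div_of_nonneg_left (by norm_num) (by positivity) ?_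
        refine pow_le_pow_right₀ (by norm_num) ?_
        have h9 : (l + 1) * u ≤ i * u := Nat.mul_le_mul_right u hl
        have h10 := hui l (hl.trans hi)
        omega
      refine le_trans ?_ h8
      have h9 : (2 : ℝ) / 2 ^ (g l + v - (l + 1) * u) = 1 / 2 ^ (g l + v - (l + 1) * u) +
          1 / 2 ^ (g l + v - (l + 1) * u) := by ring
      rw [h9]
      have h10 := h4.trans h5
      rw [abs_le] at h3 h10 ⊢
      constructor <;> linarith only [h3.1, h3.2, h10.1, h10.2]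
  have hlam : ∀ i < r, (0 : ℝ) < 2 / 2 ^ (v - i * u) ∧ (2 : ℝ) / 2 ^ (v - i * u) ≤ 1 := by
    intro i hi
    refine ⟨by positivity, ?_⟩
    rw [div_le_one (by positivity)]
    have h3 : 1 ≤ v - i * u := by
      have : i * u ≤ r * u := Nat.mul_le_mul_right u hi.le
      omega
    calc (2 : ℝ) = 2 ^ 1 := by norm_num
      _ ≤ 2 ^ (v - i * u) := pow_le_pow_right₀ (by norm_num) h3
  have hcJ : ∀ i < r, Set.InjOn c (Set.Iio i) := fun i hi => hc.mono fun j hj => lt_trans hj hi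
  refine ⟨B, hBA, hBP, ⟨fun y i => ?_, fun s i => deg_Hno _ _ _ (hK i) (hL.degH s i),
    fun y i => ?_, fun s i => ?_, fun ω hω i hi => ?_, fun ω hω i hi b hb => ?_,
    fun ω hω i hi b hb l hl => ?_⟩⟩
  · unfold Gno
    refine (totalDegree_add _ _).trans (max_le (hL.degG y i) ?_)
    rw [totalDegree_C]
    exact Nat.zero_le _
  · intro b b' hn hb
    rw [hGn, hGn, hL.depG y i b b' hn hb]
  · intro b b' hn hb
    rw [eval_Hno, eval_Hno, hL.depH s i b b' hn hb, hn]
  · rw [hGn]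
    have h3 := hρ ω (hBA ω hω) i hi
    have e1 : F.x ω (c i) - (eval (bt F ω) (G (ptr F J ω) i) + δ (ptr F J ω) i) =
        F.x ω (c i) - eval (bt F ω) (G (ptr F J ω) i) - δ (ptr F J ω) i := by ring
    rw [e1]
    refine h3.trans ?_
    rw [div_div]
    refine one_div_le_one_div_of_le (by positivity) ?_
    have h6 : (2 : ℝ) ^ (g i + v - (i + 1) * u) ≤ 2 ^ (g i + v) :=
      pow_le_pow_right₀ (by norm_num) (by omega)
    have h7 : (0 : ℝ) < 2 ^ (g i + v) := by positivity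
    linarith only [h6, h7]
  · have hAω := hBA ω hω
    obtain ⟨k1, k2⟩ := hmove ω hAω i hi b hb
    obtain ⟨l1, l2⟩ := hlam i hi
    have h3 := hat F ω (c i) (fun s => H s i) (Γ := G (ptr F J ω)) (Gt := G (ptr F J ω) i)
      (a := a) (w := w) (M := 2 ^ c₁ * (1 / 2 ^ g i)) (S := E * R / 2 ^ g i)
      (ρ := 1 / 2 / 2 ^ (g i + v)) (δ := δ (ptr F J ω) i) b (hcJ i hi) (hL.degG _) (hL.depG _)
      (hL.depG _ i) (hL.depH _ i) (hL.degG _ i) (hL.degH _ i) (hK i) (hDi i hi) hwa hwJ l1 l2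
      (by positivity) (by positivity) (fun b hb hbx => by
        have h4 := h₁ (Q := G (ptr F J ω) i - H (slam F w ω) i) (M := 1 / 2 ^ g i) hi (hcJ i hi)
          (hL.degG _) (hL.depG _)
          (fun y y' hn hy => by
            rw [map_sub, map_sub, hL.depG _ i y y' hn hy, hL.depH _ i y y' hn hy])
          ((totalDegree_sub _ _).trans (max_le (hL.degG _ i) (hL.degH _ i)))
          (by positivity)
          (fun b hb => by rw [map_sub]; exact hL.agr ω hAω i hi b hb) b hb hbx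
        rw [map_sub] at h4
        exact h4) (fun l hl => hL.pos ω hAω l (hl.trans hi)) (hBq ω hω i hi) k1 k2
      (hρ ω hAω i hi)
    rw [hGn]
    refine h3.trans ?_
    have h4 : (0 : ℝ) < 2 ^ (g i + v) := by positivity
    have h5 : (1 : ℝ) / 2 ^ (g i + v - (i + 1) * u) = 2 ^ ((i + 1) * u) / 2 ^ (g i + v) := by
      rw [div_eq_div_iff (by positivity) (by positivity), one_mul, ← pow_add]
      congr 1
      have := hui i hi
      omega
    have h6 : (2 : ℝ) / 2 ^ (v - i * u) = 2 * 2 ^ (i * u) / 2 ^ v := by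
      rw [div_eq_div_iff (by positivity) (by positivity), mul_assoc, ← pow_add]
      congr 2
      have : i * u ≤ r * u := Nat.mul_le_mul_right u hi.le
      omega
    rw [h5, h6]
    have h7 : C * (2 ^ c₁ * (1 / 2 ^ g i) + E * R / 2 ^ g i) * (2 * 2 ^ (i * u) / 2 ^ v) +
        1 / 2 / 2 ^ (g i + v) = (2 * C * (2 ^ c₁ + E * R) * 2 ^ (i * u) + 1 / 2) /
          2 ^ (g i + v) := by
      rw [pow_add]
      field_simp
    rw [h7]
    refine div_le_div_of_nonneg_right ?_ h4.le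
    have h8 : (2 : ℝ) ^ ((i + 1) * u) = 2 ^ u * 2 ^ (i * u) := by
      rw [← pow_add]
      congr 1
      ring
    have h9 : (1 : ℝ) ≤ 2 ^ (i * u) := one_le_pow₀ (by norm_num)
    have h10 : 2 * C * (2 ^ c₁ + E * R) + 1 ≤ D' * E := by
      rw [hD']
      have : 2 * C * 2 ^ c₁ ≤ 2 * C * 2 ^ c₁ * E := by
        refine le_mul_of_one_le_right (by positivity) hE1
      nlinarith only [this, hE1]
    rw [h8]
    calc 2 * C * (2 ^ c₁ + E * R) * 2 ^ (i * u) + 1 / 2 ≤
          (2 * C * (2 ^ c₁ + E * R) + 1) * 2 ^ (i * u) := by linarith only [h9]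
      _ ≤ 2 ^ u * 2 ^ (i * u) := mul_le_mul_of_nonneg_right (h10.trans hDE) (by positivity)
  · have hAω := hBA ω hω
    obtain ⟨k1, k2⟩ := hmove ω hAω i hi b hb
    obtain ⟨l1, l2⟩ := hlam i hi
    have e1 : pderiv (some (c l)) (Gno (c i) J J (fun y => G y i) (ptr F J ω)) =
        pderiv (some (c l)) (G (ptr F J ω) i) := by
      unfold Gno
      rw [map_add, pderiv_C, add_zero]
    rw [e1]
    have h3 := h₁ (Q := pderiv (some (c l)) (G (ptr F J ω) i)) (M := 2 ^ (e + nlp g l i)) hi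
      (hcJ i hi) (hL.degG _) (hL.depG _) (DepC.pderiv (hL.depG _ i) l)
      (totalDegree_pdσ (hL.degG _ i) _) (by positivity)
      (fun b hb => hL.lip ω hAω i hi b hb l hl) b (k1.trans (by
        refine div_le_div_of_nonneg_right l2 (by positivity))) (fun j hj => by
        have h4 := k2 j hj
        have h5 := hL.pos ω hAω j (hj.trans hi)
        have h6 : (2 : ℝ) / 2 ^ (v - i * u) / 2 ^ g j ≤ 1 / 2 ^ g j :=
          div_le_div_of_nonneg_right l2 (by positivity)
        have h7 : (4 : ℝ) / 2 ^ g j = 4 * (1 / 2 ^ g j) := by ring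
        have h8 : (0 : ℝ) < 1 / 2 ^ g j := by positivity
        rw [h7]
        have h4' := h4.trans h6
        rw [abs_le] at h4' h5 ⊢
        constructor <;> linarith only [h4'.1, h4'.2, h5.1, h5.2, h8])
    refine h3.trans ?_
    rw [← pow_add]
    refine pow_le_pow_right₀ (by norm_num) ?_
    have := nlp_shift (g := g) (l := l) (hui i hi)
    omega

end Pool.PBL
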