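import Pool.Agent.H9.GEN.PBa
import Pool.Agent.H77.Z3.Mov

/-!
# Labels of any gradient below the thin labels: one family

`T` is a chain without relations for the first `r` coordinates of `c` at `(a, w)`. Every chain of the
first `s ≤ r` coordinates, of larger radius and window, with any sides and any gradients, has visible
own values (`vis_fam`), so its precisions increase with the radius (`slope_iter`).
-/

set_option autoImplicit false

namespace Pool.PBL

open Finset Real MvPolynomial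
open Pool.Agent.H49.Ent Pool.Agent.H32.Dense Pool.STK Pool.KA Pool.KSAT Pool.K2S Pool.PB Pool.S6C
open Pool.GEN Pool.CHT
open Pool.FLF (Fam.sub)
open Pool.Z3 (move_any)

variable {m J : ℕ}

/-! ### The increments near the point -/

/-- **The rounding of a function which is small on the natural box**: it moves by
`2 ^ (J' - J)` of its bound, `J'` the resolution of the box. -/
theorem own_vis (r : ℕ) (K : ℕ → ℕ) : ∃ c₀ : ℕ, ∀ {m : ℕ} {c : ℕ → Fin m}
    {T : ℕ → MvPolynomial (Option (Fin m)) ℝ} {g : ℕ → ℕ} {a e J J' : ℕ} {M : ℝ}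
    {x y : Option (Fin m) → ℝ} {R : MvPolynomial (Option (Fin m)) ℝ}, Set.InjOn c (Set.Iio r) →
    (∀ l, (T l).totalDegree ≤ K l) → (∀ l, DepC c l (T l)) →
    (∀ l < r, |x (some (c l)) - eval x (T l)| ≤ 1 / 2 ^ g l) →
    (∀ i < r, ∀ b, NBx c T g a (x none) i b → ∀ l < i,
      |eval b (pderiv (some (c l)) (T i))| ≤ 2 ^ (e + nlp g l i)) →
    (∀ i < r, e + g i + c₀ ≤ J') → J' ≤ J → DepC c r R → R.totalDegree ≤ K r → 0 ≤ M →
    (∀ b, NBx c T g a (x none) r b → |eval b R| ≤ M) → y none = x none →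
    (∀ l < r, |y (some (c l)) - x (some (c l))| ≤ 1 / 2 ^ J) →
    |eval y R - eval x R| ≤ 2 ^ (c₀ + J') * M / 2 ^ J := by
  classical
  obtain ⟨c₁, h₁⟩ := near_cell r K
  obtain ⟨c₂, h₂⟩ := nbx_dbl (r + 1) K
  obtain ⟨C, hC, h₃⟩ := Pool.Agent.H40.SLP.lip_one (K r)
  obtain ⟨c₃, hc₃⟩ := pow_unbounded_of_one_lt C (one_lt_two (α := ℝ))
  refine ⟨c₁ + c₂ + c₃, ?_⟩
  intro m c T g a e J J' M x y R hc hdeg hdep hpos hlip hJ' hJJ hR hRd hM0 hM hyn hy
  obtain ⟨lam, hlam⟩ : ∃ lam : ℝ, lam = 2 ^ (J - J') := ⟨_, rfl⟩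
  have hlam1 : 1 ≤ lam := by rw [hlam]; exact one_le_pow₀ (by norm_num)
  obtain ⟨p, hp⟩ : ∃ p : Option (Fin m) → Polynomial ℝ, p = fun o =>
      Polynomial.C (x o) + Polynomial.C (lam * (y o - x o)) * Polynomial.X := ⟨_, rfl⟩
  have hpe : ∀ o τ, (p o).eval τ = x o + lam * (y o - x o) * τ := by
    intro o τ
    rw [hp]
    simp
  have hpd : ∀ o, (p o).natDegree ≤ 1 := by
    intro o
    rw [hp]
    refine (Polynomial.natDegree_add_le _ _).trans (max_le ?_ ?_)
    · rw [Polynomial.natDegree_C]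
      exact Nat.zero_le _
    · exact (Polynomial.natDegree_C_mul_le _ _).trans Polynomial.natDegree_X_le
  have hq : ∀ τ : ℝ, (aeval p R).eval τ = eval (fun o => (p o).eval τ) R := fun τ =>
    Pool.KBX.eval_aeval_poly R p τ
  have hbd : ∀ τ ∈ Set.Icc (0 : ℝ) 1, |(aeval p R).eval τ| ≤ 2 ^ c₂ * M := by
    intro τ hτ
    rw [hq]
    have hz0 : (fun o => (p o).eval τ) none = x none := by
      show (p none).eval τ = x none
      rw [hpe, hyn, sub_self, mul_zero, zero_mul, add_zero]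
    have hz : ∀ l < r, |(fun o => (p o).eval τ) (some (c l)) - x (some (c l))| ≤ 1 / 2 ^ J' := by
      intro l hl
      show |(p (some (c l))).eval τ - x (some (c l))| ≤ 1 / 2 ^ J'
      rw [hpe, add_sub_cancel_left, abs_mul, abs_mul, abs_of_nonneg (by linarith : 0 ≤ lam),
        abs_of_nonneg hτ.1]
      have e1 : lam * (1 / 2 ^ J) = 1 / 2 ^ J' := by
        rw [hlam, mul_one_div, div_eq_div_iff (by positivity) (by positivity), one_mul, ← pow_add]
        congr 1
        omega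
      have e2 : lam * |y (some (c l)) - x (some (c l))| ≤ lam * (1 / 2 ^ J) :=
        mul_le_mul_of_nonneg_left (hy l hl) (by linarith)
      rw [e1] at e2
      calc lam * |y (some (c l)) - x (some (c l))| * τ ≤ 1 / 2 ^ J' * 1 :=
            mul_le_mul e2 hτ.2 hτ.1 (by positivity)
        _ = _ := mul_one _
    have h4 := (h₁ (J := J') (v := 0) hc hdeg hdep hpos hlip (fun i hi => by
      have := hJ' i hi
      omega) r le_rfl (fun o => (p o).eval τ) hz0 hz).1
    exact h₂ (i := r) (Q := R) (t := x none) (by omega) hc hdeg hdep hR hRd hM0 hM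
      (fun o => (p o).eval τ) (by
      have h5 : (p none).eval τ = x none := hz0
      rw [h5, sub_self, abs_zero]
      positivity) h4
  have h5 := h₃ (aeval p R) (2 ^ c₂ * M)
    ((Pool.KBX.natDegree_aeval_le R p hpd hRd)) hbd (1 / lam) 0 (by
      rw [abs_of_nonneg (by positivity)]
      have : 1 / lam ≤ 1 := by rw [div_le_one (by linarith)]; exact hlam1
      linarith) (by rw [abs_zero]; norm_num)
  have h6 : (aeval p R).eval (1 / lam) = eval y R := by
    rw [hq]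
    refine hR _ _ ?_ fun l _ => ?_
    · show (p none).eval (1 / lam) = y none
      rw [hpe]
      field_simp
      ring
    · show (p (some (c l))).eval (1 / lam) = y (some (c l))
      rw [hpe]
      field_simp
      ring
  have h7 : (aeval p R).eval 0 = eval x R := by
    rw [hq]
    refine hR _ _ ?_ fun l _ => ?_
    · show (p none).eval 0 = x none
      rw [hpe, mul_zero, add_zero]
    · show (p (some (c l))).eval 0 = x (some (c l))
      rw [hpe, mul_zero, add_zero]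
  rw [h6, h7, sub_zero, abs_of_nonneg (by positivity : 0 ≤ 1 / lam)] at h5
  refine h5.trans ?_
  have e1 : (2 : ℝ) ^ (c₁ + c₂ + c₃ + J') * M / 2 ^ J =
      2 ^ c₁ * 2 ^ c₂ * 2 ^ c₃ * M * (1 / lam) := by
    have : (2 : ℝ) ^ J = 2 ^ J' * lam := by
      rw [hlam, ← pow_add]
      congr 1
      omega
    rw [this, pow_add, pow_add, pow_add]
    field_simp
  rw [e1]
  refine mul_le_mul_of_nonneg_right ?_ (by positivity)
  have e2 : (1 : ℝ) ≤ 2 ^ c₁ := one_le_pow₀ (by norm_num)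
  calc C * (2 ^ c₂ * M) ≤ 2 ^ c₃ * (2 ^ c₂ * M) :=
        mul_le_mul_of_nonneg_right hc₃.le (by positivity)
    _ ≤ 2 ^ c₁ * (2 ^ c₃ * (2 ^ c₂ * M)) := le_mul_of_one_le_left (by positivity) e2
    _ = _ := by ring

/-- Shorter windows. -/
theorem chOK_win {F : Fam m J} {c : ℕ → Fin m} {r : ℕ} {K : ℕ → ℕ} {a w w' e : ℕ} {g : ℕ → ℕ}
    {A : F.Ω → Prop} {G : PtT F → ℕ → MvPolynomial (Option (Fin m)) ℝ}
    {H : LnT F → ℕ → MvPolynomial (Option (Fin m)) ℝ} (h : ChOK F c r K a w e g A G H)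
    (hw : w ≤ w') (hw' : w' ≤ J) :
    ChOK F c r K a w' e g A G (fun s => H (s.1, s.2.1, s.2.2 / 2 ^ (w' - w))) := by
  refine ⟨h.degG, fun s i => h.degH _ i, h.depG,
    fun s i => h.depH _ i, h.pos, fun ω hω i hi b hb => ?_, h.lip⟩
  have e := slam_coarse F hw hw' ω
  show |eval b (G (ptr F J ω) i) - eval b (H ((slam F w' ω).1, (slam F w' ω).2.1,
    (slam F w' ω).2.2 / 2 ^ (w' - w)) i)| ≤ _
  rw [← e]
  exact h.agr ω hω i hi b hb

/-! ### Visible own values -/

/-- **The own values of the labels are visible**, and the labels are small on the natural boxes of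
the thin chain. -/
theorem vis_fam (D r : ℕ) (hD : 1 ≤ D) : ∃ C : ℕ, 1 ≤ C ∧ ∀ {m J : ℕ} {F : Fam m J}
    {c : ℕ → Fin m} {s a w a₁ w₁ e e' h v : ℕ} {g g' : ℕ → ℕ} {κ κ' : ℝ} {B₀ B' : F.Ω → Prop}
    {T G' : PtT F → ℕ → MvPolynomial (Option (Fin m)) ℝ}
    {TH H' : LnT F → ℕ → MvPolynomial (Option (Fin m)) ℝ}, s ≤ r → Set.InjOn c (Set.Iio r) →
    RelvF F c r a w g D h κ B₀ T → ChOK F c r (fun _ => D) a w e g B₀ T TH → Sub B' B₀ →
    κ' * Pe F.p B₀ ≤ Pe F.p B' → κ * 2 ^ r ≤ κ' → a₁ ≤ a → w₁ ≤ w → w ≤ J →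
    (∀ i < r, e + g i + v + C * (h + 1) ≤ J) →
    ChOK F c s (fun _ => D) a₁ w₁ e' g' B' G' H' →
    ∃ B : F.Ω → Prop, Sub B B' ∧ Pe F.p B' / 2 ^ s ≤ Pe F.p B ∧
      (∀ ω, B ω → ∀ b, NBx c (T (ptr F J ω)) g a (F.t ω) r b → ∀ j < s,
        |b (some (c j)) - eval b (G' (ptr F J ω) j)| ≤ 2 ^ (C * (h + 1)) / 2 ^ g' j) ∧
      ∀ ω, B ω → ∀ j < s, |F.x ω (c j) - eval (bt F ω) (G' (ptr F J ω) j) -
        (((ptr F J ω).1 (c j) : ℝ) / 2 ^ J - eval (bho J J (ptr F J ω)) (G' (ptr F J ω) j))| ≤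
          1 / 2 / 2 ^ (g' j + v) := by
  obtain ⟨C₁, hmv⟩ := move_any D r hD
  obtain ⟨c₀, hown⟩ := own_vis r (fun _ => D)
  refine ⟨C₁ + 2 * c₀ + 2, by omega, ?_⟩
  intro m J F c s a w a₁ w₁ e e' h v g g' κ κ' B₀ B' T G' TH H' hs hc hR hT hB hP hκ ha hw hwJ hJ hL
  have hL' := chOK_win (hL.mono le_rfl (fun _ => le_rfl) ha le_rfl) hw hwJ
  obtain ⟨B, k1, k2, k3⟩ := hmv (c := c) (c' := c) (i := r) (s := s) hs
    (fun j hj => ⟨j, hj.trans_le hs, rfl⟩)
    (hc.mono fun x hx => by rw [Set.mem_Iio] at hx ⊢; omega) hR hB hP hκ hL'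
  have hC1 : C₁ * (h + 1) ≤ (C₁ + 2 * c₀ + 2) * (h + 1) := Nat.mul_le_mul_right _ (by omega)
  refine ⟨B, k1, k2, fun ω hω b hb j hj => (k3 ω hω b hb j hj).trans
    (div_le_div_of_nonneg_right (pow_le_pow_right₀ (by norm_num) hC1) (by positivity)),
    fun ω hω j hj => ?_⟩
  have hω0 := hB ω (k1 ω hω)
  rcases Nat.eq_zero_or_pos r with hr0 | hr0
  · omega
  have hJ0 := hJ 0 hr0
  have hC2 : (C₁ + 2 * c₀ + 2) * (h + 1) = C₁ * (h + 1) + 2 * c₀ * (h + 1) + 2 * (h + 1) := by ring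
  have hC3 : 2 * c₀ ≤ 2 * c₀ * (h + 1) := Nat.le_mul_of_pos_right _ (by omega)
  obtain ⟨J', hJ'⟩ : ∃ J', J' = J - (v + C₁ * (h + 1) + c₀ + 1) := ⟨_, rfl⟩
  have hJv : J' + (v + C₁ * (h + 1) + c₀ + 1) = J := by omega
  have h1 := hown (c := c) (T := T (ptr F J ω)) (g := g) (a := a) (e := e) (J := J) (J' := J')
    (M := 2 ^ (C₁ * (h + 1)) / 2 ^ g' j) (x := bt F ω)
    (y := bho J J (ptr F J ω)) (R := X (some (c j)) - G' (ptr F J ω) j) hc (hT.degG _)
    (hT.depG _) (fun l hl => hT.pos ω hω0 l hl) (fun i hi b hb l hl => hT.lip ω hω0 i hi b hb l hl)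
    (fun i hi => by
      have := hJ i hi
      omega) (by omega) (fun b b' hn hb => by
        rw [map_sub, map_sub, eval_X, eval_X, hb j (by omega),
          hL.depG _ j b b' hn fun l hl => hb l (by omega)])
    ((totalDegree_sub _ _).trans (max_le (by rw [totalDegree_X]; exact hD) (hL.degG _ j)))
    (by positivity) (fun b hb => by
      rw [map_sub, eval_X]
      exact k3 ω hω b hb j hj) rfl (fun l _ => Pool.PB.Trl.x_near F J ω (c l))
  have e1 : |F.x ω (c j) - eval (bt F ω) (G' (ptr F J ω) j) -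
      (((ptr F J ω).1 (c j) : ℝ) / 2 ^ J - eval (bho J J (ptr F J ω)) (G' (ptr F J ω) j))| =
      |eval (bho J J (ptr F J ω)) (X (some (c j)) - G' (ptr F J ω) j) -
        eval (bt F ω) (X (some (c j)) - G' (ptr F J ω) j)| := by
    rw [map_sub, map_sub, eval_X, eval_X, ← abs_neg]
    congr 1
    show -(F.x ω (c j) - eval (bt F ω) (G' (ptr F J ω) j) -
      (((ptr F J ω).1 (c j) : ℝ) / 2 ^ J - eval (bho J J (ptr F J ω)) (G' (ptr F J ω) j))) =
      (((ptr F J ω).1 (c j) : ℝ) / 2 ^ J - eval (bho J J (ptr F J ω)) (G' (ptr F J ω) j)) -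
        (F.x ω (c j) - eval (bt F ω) (G' (ptr F J ω) j))
    ring
  rw [e1]
  refine h1.trans (le_of_eq ?_)
  have e2 : (2 : ℝ) ^ J = 2 ^ (c₀ + J') * 2 ^ (C₁ * (h + 1)) * 2 ^ v * 2 := by
    rw [← pow_add, ← pow_add, ← pow_succ]
    congr 1
    omega
  rw [e2, pow_add (2 : ℝ) (g' j) v]
  field_simp

/-- **The natural box has points on both sides** of the label of `c i`. -/
theorem own_axis {c : ℕ → Fin m} {T : ℕ → MvPolynomial (Option (Fin m)) ℝ} {g : ℕ → ℕ}
    {a r i : ℕ} {t M : ℝ} {x : Option (Fin m) → ℝ} {G' : MvPolynomial (Option (Fin m)) ℝ}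
    (hi : i < r) (hc : Set.InjOn c (Set.Iio r)) (hdep : ∀ l, DepC c l (T l)) (hG : DepC c i G')
    (hM : ∀ b, NBx c T g a t r b → |b (some (c i)) - eval b G'| ≤ M) (hx : NBx c T g a t i x) :
    1 / 2 ^ g i ≤ M := by
  classical
  have key : ∀ d : ℝ, |d| ≤ 1 / 2 ^ g i → |eval x (T i) + d - eval x G'| ≤ M := by
    intro d hd
    obtain ⟨y, hy⟩ : ∃ y : Option (Fin m) → ℝ, y = Function.update x (some (c i))
        (eval x (T i) + d) := ⟨_, rfl⟩
    have hyi : y (some (c i)) = eval x (T i) + d := by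
      rw [hy]
      exact Function.update_self _ _ _
    have hyn : y none = x none := by
      rw [hy]
      exact Function.update_of_ne (by simp) _ _
    have hyl : ∀ l < i, y (some (c l)) = x (some (c l)) := by
      intro l hl
      rw [hy]
      refine Function.update_of_ne (fun he => ?_) _ _
      have := hc (Set.mem_Iio.2 (hl.trans hi)) (Set.mem_Iio.2 hi) (Option.some_injective _ he)
      omega
    have hyT : ∀ l ≤ i, eval y (T l) = eval x (T l) := fun l hl =>
      hdep l y x hyn fun j hj => hyl j (by omega)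
    have hyb : NBx c T g a t (i + 1) y := by
      refine ⟨by rw [hyn]; exact hx.1, fun l hl => ?_⟩
      rcases Nat.lt_or_ge l i with h1 | h1
      · rw [hyl l h1, hyT l h1.le]
        exact hx.2 l h1
      · have : l = i := by omega
        subst this
        rw [hyi, hyT l le_rfl, add_sub_cancel_left]
        exact hd
    obtain ⟨z, z1, z2, z3, -⟩ := Pool.ISO.nbx_ext hc hdep (show i + 1 ≤ r by omega) hyb
    have h1 := hM z z1
    rw [z3 i (by omega), hyi, hG z x (by rw [z2, hyn]) fun l hl => by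
      rw [z3 l (by omega), hyl l hl]] at h1
    exact h1
  have h0 : (0 : ℝ) ≤ 1 / 2 ^ g i := by positivity
  have h1 := key (1 / 2 ^ g i) (by rw [abs_of_nonneg h0])
  have h2 := key (-(1 / 2 ^ g i)) (by rw [abs_neg, abs_of_nonneg h0])
  rw [abs_le] at h1 h2
  linarith [h1.1, h1.2, h2.1, h2.2]

end Pool.PBL
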