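import Pool.Agent.H9.GEN.PBb

/-!
# Labels of any gradient below the thin labels: the iteration

`slope_iter`: along steps of the radius, the precisions of a chain of any gradients and sides increase
with the radius. `fam_le`: the label of `c i` is at most as precise as the thin label.
-/

set_option autoImplicit false

namespace Pool.PBL

open Finset Real MvPolynomial
open Pool.Agent.H49.Ent Pool.Agent.H32.Dense Pool.STK Pool.KA Pool.KSAT Pool.K2S Pool.PB Pool.S6C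
open Pool.GEN Pool.CHT
open Pool.FLF (Fam.sub)

/-- The family-level hypotheses: a thin chain without relations. -/
structure ThR {m J : ℕ} (F : Fam m J) (c : ℕ → Fin m) (D r a w e h v u N C : ℕ) (C₁ : ℝ)
    (g : ℕ → ℕ) (κ θ : ℝ) (B₀ : F.Ω → Prop) (T : PtT F → ℕ → MvPolynomial (Option (Fin m)) ℝ)
    (TH : LnT F → ℕ → MvPolynomial (Option (Fin m)) ℝ) : Prop where
  inj : Set.InjOn c (Set.Iio r)
  rel : RelvF F c r a w g D h κ B₀ T
  thin : ChOK F c r (fun _ => D) a w e g B₀ T TH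
  κ0 : 0 < κ
  P0 : 0 < Pe F.p B₀
  wJ : w ≤ J
  room : ∀ i < r, e + g i + v + C * (h + 1) ≤ J
  vu : r * u + 1 ≤ v
  θ0 : 0 ≤ θ
  tm : ∀ B : F.Ω → Prop, Sub B B₀ → κ * Pe F.p B₀ ≤ Pe F.p B → ∀ hB : 0 < Pe F.p B,
    (Fam.sub F B hB).Tm θ
  tw : C₁ * (θ + 1) ≤ ((J : ℝ) - w) * Real.log 2
  tu : Real.exp (C₁ * (θ + 1)) ≤ 2 ^ u

/-- **The precisions increase with the radius.** -/
theorem slope_iter (m D r : ℕ) (hD : 1 ≤ D) : ∃ (C : ℕ) (C₁ : ℝ), 1 ≤ C ∧ 1 ≤ C₁ ∧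
    ∀ {J : ℕ} {F : Fam m J} {c : ℕ → Fin m} {s a w a₁ w₁ e e' h v u N : ℕ} {g g' : ℕ → ℕ}
    {κ θ : ℝ} {B₀ B' : F.Ω → Prop} {T G' : PtT F → ℕ → MvPolynomial (Option (Fin m)) ℝ}
    {TH H' : LnT F → ℕ → MvPolynomial (Option (Fin m)) ℝ}, s ≤ r →
    ThR F c D r a w e h v u N C C₁ g κ θ B₀ T TH → Sub B' B₀ →
    κ * 2 ^ ((r + 1) * (N + 1)) * Pe F.p B₀ ≤ Pe F.p B' → w₁ ≤ a₁ → w₁ ≤ w →
    ChOK F c s (fun _ => D) a₁ w₁ e' g' B' G' H' →
    ∀ k ≤ N, a₁ + k * v ≤ a → ∃ (B : F.Ω → Prop) (e'' : ℕ)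
      (G'' : PtT F → ℕ → MvPolynomial (Option (Fin m)) ℝ)
      (H'' : LnT F → ℕ → MvPolynomial (Option (Fin m)) ℝ), Sub B B' ∧
      Pe F.p B' / 2 ^ ((r + 1) * k) ≤ Pe F.p B ∧
      ChOK F c s (fun _ => D) (a₁ + k * v) w₁ e'' (fun j => g' j + k * v - k * ((j + 1) * u)) B
        G'' H'' := by
  obtain ⟨C, hC, hvis⟩ := vis_fam D r hD
  choose C₁ c₀ hC₁ hsl using fun s : ℕ => ch_slopeV m s (fun _ => D) (fun _ => hD)
  obtain ⟨Ct, hCt⟩ : ∃ Ct : ℝ, Ct = ∑ s ∈ range (r + 1), C₁ s := ⟨_, rfl⟩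
  have hCs : ∀ s ≤ r, C₁ s ≤ Ct := fun s hs => by
    rw [hCt]
    exact Finset.single_le_sum (f := C₁) (fun i _ => by linarith [hC₁ i]) (mem_range.2 (by omega))
  refine ⟨C, Ct, hC, (hC₁ 0).trans (hCs 0 (Nat.zero_le _)), ?_⟩
  intro J F c s a w a₁ w₁ e e' h v u N g g' κ θ B₀ B' T G' TH H' hs X hB hP hwa hww hL k
  have hκ0 := X.κ0
  have hP0 := X.P0
  have hB'0 : 0 < Pe F.p B' := lt_of_lt_of_le (by positivity) hP
  induction k with
  | zero =>
    intro _ _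
    refine ⟨B', e', G', H', fun _ h => h, by simp, ?_⟩
    have e1 : (fun j => g' j + 0 * v - 0 * ((j + 1) * u)) = g' := by
      funext j
      simp
    rw [e1]
    exact hL.mono le_rfl (fun _ => le_rfl) (by simp) le_rfl
  | succ k ih =>
    intro hkN hka
    have hk1 : (k + 1) * v = k * v + v := Nat.succ_mul k v
    obtain ⟨B, e₂, G₂, H₂, k1, k2, k3⟩ := ih (by omega) (by omega)
    -- the masses
    have hexp : (r + 1) * (N + 1) = (r + 1) * k + (r + 1) * (N + 1 - k) := by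
      rw [← Nat.mul_add]
      congr 1
      omega
    have hPB : κ * 2 ^ (r + 1) * Pe F.p B₀ ≤ Pe F.p B := by
      refine le_trans ?_ k2
      rw [le_div_iff₀ (by positivity)]
      refine le_trans ?_ hP
      have h1 : (2 : ℝ) ^ (r + 1) * 2 ^ ((r + 1) * k) ≤ 2 ^ ((r + 1) * (N + 1)) := by
        rw [← pow_add]
        refine pow_le_pow_right₀ (by norm_num) ?_
        rw [hexp]
        have : r + 1 ≤ (r + 1) * (N + 1 - k) := Nat.le_mul_of_pos_right _ (by omega)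
        omega
      calc κ * 2 ^ (r + 1) * Pe F.p B₀ * 2 ^ ((r + 1) * k) =
            κ * (2 ^ (r + 1) * 2 ^ ((r + 1) * k)) * Pe F.p B₀ := by ring
        _ ≤ κ * 2 ^ ((r + 1) * (N + 1)) * Pe F.p B₀ := by
            refine mul_le_mul_of_nonneg_right ?_ hP0.le
            exact mul_le_mul_of_nonneg_left h1 hκ0.le
    obtain ⟨B₂, l1, l2, -, l3⟩ := hvis (s := s) (a₁ := a₁ + k * v) (w₁ := w₁) (v := v)
      (κ' := κ * 2 ^ (r + 1)) hs X.inj X.rel X.thin (fun ω hω => hB ω (k1 ω hω)) hPB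
      (mul_le_mul_of_nonneg_left (pow_le_pow_right₀ (by norm_num) (Nat.le_succ _)) hκ0.le)
      (by omega) hww X.wJ X.room k3
    have hPB0 : 0 < Pe F.p B := lt_of_lt_of_le (by positivity) hPB
    have hPB₂ : 0 < Pe F.p B₂ := lt_of_lt_of_le (by positivity) l2
    have hs2 : (2 : ℝ) ^ s ≤ 2 ^ r := pow_le_pow_right₀ (by norm_num) hs
    have hκ₂ : κ * Pe F.p B₀ ≤ Pe F.p B₂ := by
      refine le_trans ?_ l2
      rw [le_div_iff₀ (by positivity)]
      refine le_trans ?_ hPB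
      have h1 : (2 : ℝ) ^ r ≤ 2 ^ (r + 1) := pow_le_pow_right₀ (by norm_num) (Nat.le_succ _)
      have h2 : 0 ≤ κ * Pe F.p B₀ := by positivity
      nlinarith
    have hCθ : C₁ s * (θ + 1) ≤ Ct * (θ + 1) :=
      mul_le_mul_of_nonneg_right (hCs s hs) (by linarith [X.θ0])
    obtain ⟨B₃, m1, m2, m3⟩ := hsl s J F c (a₁ + k * v) w₁ e₂ v u _ B₂ G₂ H₂ θ hPB₂
      (X.inj.mono fun x hx => by rw [Set.mem_Iio] at hx ⊢; omega) (by omega)
      (hww.trans X.wJ) l3 (by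
        have h1 := X.vu
        have h2 : s * u ≤ r * u := Nat.mul_le_mul_right u hs
        omega) X.θ0
      (X.tm B₂ (fun ω hω => hB ω (k1 ω (l1 ω hω))) hκ₂ hPB₂) (by
        refine hCθ.trans (X.tw.trans ?_)
        refine mul_le_mul_of_nonneg_right ?_ (Real.log_nonneg (by norm_num))
        have : (w₁ : ℝ) ≤ w := by exact_mod_cast hww
        linarith) ((Real.exp_le_exp.2 hCθ).trans X.tu) (k3.sub l1)
    refine ⟨B₃, e₂ + c₀ s, fun y i => Gno (c i) J J (fun y => G₂ y i) y,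
      fun s i => Hno (c i) (fun s => H₂ s i) s, fun ω hω => k1 ω (l1 ω (m1 ω hω)), ?_, ?_⟩
    · refine le_trans ?_ m2
      refine le_trans ?_ (div_le_div_of_nonneg_right l2 (by norm_num))
      rw [le_div_iff₀ (by norm_num), le_div_iff₀ (by positivity)]
      refine le_trans ?_ k2
      rw [le_div_iff₀ (by positivity)]
      have h1 : (2 : ℝ) * 2 ^ s * 2 ^ ((r + 1) * k) ≤ 2 ^ ((r + 1) * (k + 1)) := by
        rw [← pow_succ', ← pow_add]
        refine pow_le_pow_right₀ (by norm_num) ?_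
        rw [Nat.mul_succ]
        omega
      have h2 : Pe F.p B' / 2 ^ ((r + 1) * (k + 1)) * 2 * 2 ^ s * 2 ^ ((r + 1) * k) =
          Pe F.p B' * (2 * 2 ^ s * 2 ^ ((r + 1) * k) / 2 ^ ((r + 1) * (k + 1))) := by ring
      rw [h2]
      refine mul_le_of_le_one_right hB'0.le ?_
      rw [div_le_one (by positivity)]
      exact h1
    · have h4 := m3.mono (r' := s) (a' := a₁ + (k + 1) * v) le_rfl (fun _ => le_rfl)
        (by omega) (le_refl _)
      have key : ∀ j < s, g' j + (k + 1) * v - (k + 1) * ((j + 1) * u) =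
          g' j + k * v - k * ((j + 1) * u) + v - (j + 1) * u := by
        intro j hj
        have h5 : (j + 1) * u ≤ r * u := Nat.mul_le_mul_right u (by omega)
        have h6 := X.vu
        have h7 : k * ((j + 1) * u) ≤ k * v := Nat.mul_le_mul_left k (by omega)
        have h8 : (k + 1) * ((j + 1) * u) = k * ((j + 1) * u) + (j + 1) * u := Nat.succ_mul _ _
        omega
      exact h4.last (fun j hj => key j (by omega)) fun j hj => (key j (by omega)).le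

/-- **The label of `c i` is at most as precise as the thin label**, up to small losses. -/
theorem fam_le (m D r : ℕ) (hD : 1 ≤ D) : ∃ (C : ℕ) (C₁ : ℝ), 1 ≤ C ∧ 1 ≤ C₁ ∧
    ∀ {J : ℕ} {F : Fam m J} {c : ℕ → Fin m} {i a w a₁ w₁ e e' h v u N : ℕ} {g g' : ℕ → ℕ}
    {κ θ : ℝ} {B₀ B' : F.Ω → Prop} {T G' : PtT F → ℕ → MvPolynomial (Option (Fin m)) ℝ}
    {TH H' : LnT F → ℕ → MvPolynomial (Option (Fin m)) ℝ}, i < r →
    ThR F c D r a w e h v u N C C₁ g κ θ B₀ T TH → Sub B' B₀ →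
    κ * 2 ^ ((r + 1) * (N + 1)) * Pe F.p B₀ ≤ Pe F.p B' → w₁ ≤ a₁ → w₁ ≤ w →
    ChOK F c (i + 1) (fun _ => D) a₁ w₁ e' g' B' G' H' →
    ∀ k ≤ N, a₁ + k * v ≤ a → g' i + k * v ≤ g i + k * ((i + 1) * u) + C * (h + 1) := by
  obtain ⟨C₂, hC₂, hvis⟩ := vis_fam D r hD
  obtain ⟨C₃, C₁, hC₃, hC₁, hit⟩ := slope_iter m D r hD
  refine ⟨C₂ + C₃, C₁, by omega, hC₁, ?_⟩
  intro J F c i a w a₁ w₁ e e' h v u N g g' κ θ B₀ B' T G' TH H' hi X hB hP hwa hww hL k hk hka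
  have hκ0 := X.κ0
  have hP0 := X.P0
  have e1 : (C₂ + C₃) * (h + 1) = C₂ * (h + 1) + C₃ * (h + 1) := Nat.add_mul _ _ _
  have X' : ThR F c D r a w e h v u N C₃ C₁ g κ θ B₀ T TH :=
    ⟨X.inj, X.rel, X.thin, X.κ0, X.P0, X.wJ, fun j hj => by
      have := X.room j hj
      omega, X.vu, X.θ0, X.tm, X.tw, X.tu⟩
  obtain ⟨B, e₂, G₂, H₂, k1, k2, k3⟩ := hit (s := i + 1) (by omega) X' hB hP hwa hww hL k hk hka
  have hPB : κ * 2 ^ (r + 1) * Pe F.p B₀ ≤ Pe F.p B := by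
    refine le_trans ?_ k2
    rw [le_div_iff₀ (by positivity)]
    refine le_trans ?_ hP
    have h1 : (2 : ℝ) ^ (r + 1) * 2 ^ ((r + 1) * k) ≤ 2 ^ ((r + 1) * (N + 1)) := by
      rw [← pow_add]
      refine pow_le_pow_right₀ (by norm_num) ?_
      have : (r + 1) * k ≤ (r + 1) * N := Nat.mul_le_mul_left _ hk
      rw [Nat.mul_succ]
      omega
    calc κ * 2 ^ (r + 1) * Pe F.p B₀ * 2 ^ ((r + 1) * k) =
          κ * (2 ^ (r + 1) * 2 ^ ((r + 1) * k)) * Pe F.p B₀ := by ring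
      _ ≤ κ * 2 ^ ((r + 1) * (N + 1)) * Pe F.p B₀ := by
          refine mul_le_mul_of_nonneg_right ?_ hP0.le
          exact mul_le_mul_of_nonneg_left h1 hκ0.le
  obtain ⟨B₂, l1, l2, l3, -⟩ := hvis (s := i + 1) (a₁ := a₁ + k * v) (w₁ := w₁) (v := v)
    (κ' := κ * 2 ^ (r + 1)) (by omega) X.inj X.rel X.thin (fun ω hω => hB ω (k1 ω hω)) hPB
    (mul_le_mul_of_nonneg_left (pow_le_pow_right₀ (by norm_num) (Nat.le_succ _)) hκ0.le)
    hka hww X.wJ (fun j hj => by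
      have := X.room j hj
      omega) k3
  have hPB0 : 0 < Pe F.p B := lt_of_lt_of_le (by positivity) hPB
  have hPB₂ : 0 < Pe F.p B₂ := lt_of_lt_of_le (by positivity) l2
  obtain ⟨ω, hω⟩ : ∃ ω, B₂ ω := by
    by_contra hcon
    push Not at hcon
    have : Pe F.p B₂ = 0 := by
      unfold Pe
      refine Finset.sum_eq_zero fun ω _ => ?_
      exact if_neg (by simpa using hcon ω)
    linarith
  have hω0 := hB ω (k1 ω (l1 ω hω))
  have h1 := own_axis (c := c) (T := T (ptr F J ω)) (g := g) (a := a) (t := F.t ω) (x := bt F ω)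
    (G' := G₂ (ptr F J ω) i) hi X.inj (X.thin.depG _) (k3.depG _ i)
    (fun b hb => l3 ω hω b hb i (by omega)) (X.thin.self hω0 hi.le)
  rw [div_le_div_iff₀ (by positivity) (by positivity), one_mul, ← pow_add] at h1
  have h2 : g' i + k * v - k * ((i + 1) * u) ≤ C₂ * (h + 1) + g i := by
    by_contra hcon
    push Not at hcon
    have : (2 : ℝ) ^ (C₂ * (h + 1) + g i) < 2 ^ (g' i + k * v - k * ((i + 1) * u)) :=
      pow_lt_pow_right₀ (by norm_num) hcon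
    linarith
  omega

end Pool.PBL
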