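import Pool.Agent.H9.GEN.PBc
import Pool.Agent.H77.Z3.Cls
import Pool.Agent.H60.GEN.NumT

/-!
# The thresholds over boxes are at most the thin thresholds

`thrB_le`: at a point `(a, w)` with the data of a path, the threshold of `c i` over the first `i`
coordinates for labels with any gradients over boxes is at most the threshold for natural exponents.
`ptC_of`: the data of a path without the target, from the data with the target.
-/

set_option autoImplicit false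

namespace Pool.PBL

open Finset Real MvPolynomial
open Pool.Agent.H49.Ent Pool.Agent.H32.Dense Pool.STK Pool.KA Pool.KSAT Pool.K2S Pool.PB Pool.S6C
open Pool.GEN Pool.CHT Pool.ISO
open Pool.FLF (Fam.sub)
open Pool.LBT (ThrOf bas_false)
open Pool.CHB (chsysB CtB)
open Pool.LEV (Law)
open Pool.Z3 (PtC thin_one)

variable {m : ℕ}

/-- The data of a path without the target. -/
theorem ptC_of {S : PCl m} {P : List (Fin m) × Fin m → ℝ → ℝ → ℝ} {θ : ℝ} {c : ℕ → Fin m}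
    {r : ℕ} {Pt : ℝ → ℝ → ℝ} {a w ρ : ℝ} {S₀ : ℕ} {vs e e₀ E sg : ℝ → ℝ} {Q : Set ℝ}
    (h : PtD S P θ c r Pt a w ρ S₀ vs e e₀ E sg Q) :
    PtC S P θ c r a w ρ S₀ vs e₀ (Q ∩ Set.Icc 0 ρ) where
  ρ0 := h.ρ0
  ρw := h.ρw
  wa := h.wa
  a1 := h.a1
  q0 := ⟨h.q0, le_rfl, h.ρ0.le⟩
  den x y h1 h2 h3 := by
    obtain ⟨κ, k1, k2, k3⟩ := h.den x y h1 h2 h3
    exact ⟨κ, ⟨k1, by linarith, by linarith⟩, k2, k3⟩
  vs0 κ hκ := (h.pt κ hκ.1 hκ.2.1 hκ.2.2).vs0
  pt κ hκ h1 h2 := by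
    have h3 := h.pt κ hκ.1 h1 h2
    refine ⟨h3.pts, h3.e1.trans_le h3.e2, fun l hl => ?_⟩
    have h4 := h.grw κ hκ.1 h1 h2 l hl.le
    unfold lvN at h4
    rwa [if_pos hl, if_pos hl] at h4
  sr := h.sr

/-- The chain of a label over a box. -/
theorem ctB_chN {th : Option ℝ} {β : List (Fin m) × Fin m → ℝ → ℝ → ℝ} {c : ℕ → Fin m} {i : ℕ}
    {K a w P J : ℕ} {F : Fam m J} {A : F.Ω → Prop}
    (h : CtB th β ((List.range i).map c, c i) K a w P J F A) :
    ∃ (a₁ w₁ e : ℕ) (g : ℕ → ℕ), w₁ ≤ a₁ ∧ a₁ ≤ a ∧ w₁ ≤ w ∧ P + a₁ ≤ g i + a ∧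
      ChN F c (i + 1) (fun _ => K) a₁ w₁ e g A := by
  obtain ⟨α, ω, e, g, h1, h2, h3, h4, h5, h6, h7, h8, h9, h10⟩ := h
  have hlen : ((List.range i).map c).length = i := by simp
  have hget : ∀ l < i + 1, ((List.range i).map c).getD l (c i) = c l := by
    intro l hl
    rcases Nat.lt_or_ge l i with h2 | h2
    · simp [h2]
    · have : l = i := by omega
      subst this
      simp
  refine ⟨⌊α * J⌋₊, ⌊ω * J⌋₊, e, g, ?_, h4, h5, ?_, ?_⟩
  · exact Nat.floor_le_floor (mul_le_mul_of_nonneg_right h2 (Nat.cast_nonneg J))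
  · change P + ⌊α * J⌋₊ ≤ g ((List.range i).map c).length + a at h6
    rwa [hlen] at h6
  · change ChN F (fun j => ((List.range i).map c).getD j (c i)) (((List.range i).map c).length + 1)
      (fun _ => K) ⌊α * J⌋₊ ⌊ω * J⌋₊ e g A at h10
    rw [hlen] at h10
    exact ChN.congr h10 hget fun _ _ => rfl

/-- **The thresholds over boxes are at most the thin thresholds**, at a point with the data of a
path. -/
theorem thrB_le {S : PCl m} {P PW : List (Fin m) × Fin m → ℝ → ℝ → ℝ} {θ : ℝ} {th : Option ℝ}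
    {β : List (Fin m) × Fin m → ℝ → ℝ → ℝ} {c : ℕ → Fin m} {r i S₀ : ℕ} {a w ρ : ℝ}
    {vs e₀ : ℝ → ℝ} {Q : Set ℝ} (hne : S.Ne) (hP : ThrOf (chsys m θ) S P)
    (hB : ThrOf (chsysB m th β) S PW) (hθ : 0 < θ) (hS : TmH S) (hinj : Set.InjOn c (Set.Iio r))
    (h : PtC S P θ c r a w ρ S₀ vs e₀ Q) (he : ∀ l < r, e₀ 0 + bet P c l a w < 1) (hi : i < r) :
    bet PW c i a w ≤ bet P c i a w := by
  by_contra hcon
  push Not at hcon
  obtain ⟨γ, hγ⟩ : ∃ γ, γ = bet PW c i a w - bet P c i a w := ⟨_, rfl⟩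
  have hγ0 : 0 < γ := by rw [hγ]; linarith
  have hρ0 := h.ρ0
  have hw0 : 0 < w := hρ0.trans h.ρw
  have ha0 : 0 < a := hw0.trans_le h.wa
  have ha1 := h.a1
  have hS₀ : 1 ≤ S₀ := by
    by_contra h3
    have h3 : S₀ = 0 := by omega
    have h4 := h.sr
    rw [h3, Nat.cast_zero, zero_mul] at h4
    linarith
  have hbe0 : ∀ l, 0 ≤ bet P c l a w := fun l => ha0.le.trans (hP.low _ a w hw0.le h.wa ha1.le)
  -- the room


  have hroom := he
  obtain ⟨R, hR0, hR⟩ : ∃ R : ℝ, 0 < R ∧ ∀ l < r, e₀ 0 + bet P c l a w + R ≤ 1 := by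
    have key : ∀ k ≤ r, ∃ R : ℝ, 0 < R ∧ ∀ l < k, e₀ 0 + bet P c l a w + R ≤ 1 := by
      intro k
      induction k with
      | zero => exact fun _ => ⟨1, one_pos, fun l hl => absurd hl (Nat.not_lt_zero l)⟩
      | succ k ih =>
        intro hk
        obtain ⟨R, h1, h2⟩ := ih (by omega)
        refine ⟨min R (1 - (e₀ 0 + bet P c k a w)), lt_min h1 (by linarith [hroom k (by omega)]),
          fun l hl => ?_⟩
        rcases Nat.lt_or_ge l k with h3 | h3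
        · have := h2 l h3
          have := min_le_left R (1 - (e₀ 0 + bet P c k a w))
          linarith
        · have h4 : l = k := by omega
          subst h4
          have := min_le_right R (1 - (e₀ 0 + bet P c l a w))
          linarith
    exact key r le_rfl
  -- the degree of the labels over boxes
  obtain ⟨K₀, hK⟩ := hB.att ((List.range i).map c, c i) a w (γ / 8) hw0 h.wa ha1.le
    (by linarith) (by
      have h1 := hbe0 i
      change γ / 8 < bet PW c i a w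
      linarith)
  obtain ⟨D₁, hD₁, hT⟩ := thin_one r S₀ (by omega) hS₀
  obtain ⟨D, hD⟩ : ∃ D, D = max K₀ D₁ := ⟨_, rfl⟩
  have hDK : K₀ ≤ D := by rw [hD]; exact le_max_left _ _
  have hDD : D₁ ≤ D := by rw [hD]; exact le_max_right _ _
  obtain ⟨C, C₁, hC, hC₁, hfam⟩ := fam_le m D r (hD₁.trans hDD)
  have hC0 : (1 : ℝ) ≤ C := by exact_mod_cast hC
  -- the parameters
  obtain ⟨ζ, hζ⟩ : ∃ ζ : ℝ, ζ = min (γ / 8) (min (R / 8) (1 / 2)) := ⟨_, rfl⟩
  have hζ0 : 0 < ζ := by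
    rw [hζ]
    exact lt_min (by linarith) (lt_min (by linarith) (by norm_num))
  have hζ1 : ζ ≤ γ / 8 := by rw [hζ]; exact min_le_left _ _
  have hζ2 : ζ ≤ R / 8 := by rw [hζ]; exact (min_le_right _ _).trans (min_le_left _ _)
  obtain ⟨N, hN⟩ := exists_nat_ge (2 / ζ)
  have hN0 : (0 : ℝ) < N := lt_of_lt_of_le (by positivity) hN
  obtain ⟨η, hη⟩ : ∃ η : ℝ, η = ζ / (2 * C) := ⟨_, rfl⟩
  have hη0 : 0 < η := by rw [hη]; positivity
  have hCη : C * η = ζ / 2 := by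
    rw [hη]
    field_simp
  obtain ⟨τ, hτ⟩ : ∃ τ : ℝ, τ = min (ζ / (16 * C₁ * (r + 1) * (N + 1)))
      ((1 - w) / (4 * C₁)) := ⟨_, rfl⟩
  have hC₁0 : 0 < C₁ := by linarith
  have hτ0 : 0 < τ := by
    rw [hτ]
    exact lt_min (by positivity) (div_pos (by linarith [h.wa]) (by positivity))
  have hτ1 : 16 * C₁ * (r + 1) * (N + 1) * τ ≤ ζ := by
    have h1 : τ ≤ ζ / (16 * C₁ * (r + 1) * (N + 1)) := by rw [hτ]; exact min_le_left _ _
    rw [le_div_iff₀ (by positivity)] at h1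
    linarith
  have hτ2 : 4 * C₁ * τ ≤ 1 - w := by
    have h1 : τ ≤ (1 - w) / (4 * C₁) := by rw [hτ]; exact min_le_right _ _
    rw [le_div_iff₀ (by positivity)] at h1
    linarith
  obtain ⟨K₁, dT, hK₁, hdT, bT, rT⟩ := hT hP hθ hS hinj h D η (ζ / 2) hη0 (by linarith)
  obtain ⟨κ, hκ⟩ : ∃ κ : ℝ, κ = 1 / 2 ^ ((r + 1) * (N + 1)) := ⟨_, rfl⟩
  have hκ0 : 0 < κ := by rw [hκ]; positivity
  have hrel := rT κ (1 / K₁) hκ0 (by positivity)
  have htm := bas_ev (hS.2 τ hτ0) (κ := κ / K₁) (by positivity)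
  refine bas_false hne (Φ := fun J F A => ∃ B : F.Ω → Prop, Sub B A ∧
    Pe F.p A ≤ K₁ * Pe F.p B ∧
    Chn c r (fun _ => D₁) a w (e₀ 0) (fun l => bet P c l a w - dT l) J F B) bT ?_
  -- large `J`
  obtain ⟨J₁, hJ₁⟩ := exists_nat_gt (64 * (C₁ + 1) * (r + 1) * (N + 1) * (C + 1) / (ζ * (1 - w)))
  have hpos : Bas S (fun J F A => 0 < Pe F.p A) := ⟨1, one_pos, 0, fun J _ F A hA => hS.1 _ J F A hA⟩
  refine Bas.mono (J₁ + 1) ((hrel.and hpos).and (htm.and hK)) ?_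
  rintro J hJ F A ⟨⟨hrel, hA0⟩, htm, hlab⟩ ⟨B, k1, k2, T, TH, k3⟩
  have hJ1 : 1 ≤ J := by omega
  have hJ0 : (0 : ℝ) < J := by exact_mod_cast (by omega : 0 < J)
  have hw1 : 0 < 1 - w := by linarith [h.wa]
  have hbig : 64 * (C₁ + 1) * (r + 1) * (N + 1) * (C + 1) < ζ * (1 - w) * J := by
    have h3 : 64 * (C₁ + 1) * (r + 1) * (N + 1) * (C + 1) / (ζ * (1 - w)) < J := hJ₁.trans_le (by
      exact_mod_cast (by omega : J₁ ≤ J))
    rw [div_lt_iff₀ (by positivity)] at h3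
    linarith
  have hr0 : (0 : ℝ) ≤ r := Nat.cast_nonneg r
  have hcc : 64 * (C₁ + 1) ≤ 64 * (C₁ + 1) * (r + 1) * (N + 1) * (C + 1) := by
    have e1 : (1 : ℝ) ≤ (r + 1) * (N + 1) * (C + 1) := by
      have h1 : (1 : ℝ) ≤ (r : ℝ) + 1 := by linarith
      have h2 : (1 : ℝ) ≤ (N : ℝ) + 1 := by linarith
      have h3 : (1 : ℝ) ≤ (C : ℝ) + 1 := by linarith
      calc (1 : ℝ) = 1 * 1 * 1 := by norm_num
        _ ≤ _ := by gcongr
    calc 64 * (C₁ + 1) = 64 * (C₁ + 1) * 1 := (mul_one _).symm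
      _ ≤ 64 * (C₁ + 1) * ((r + 1) * (N + 1) * (C + 1)) :=
          mul_le_mul_of_nonneg_left e1 (by positivity)
      _ = _ := by ring
  have hbigζ : 64 * (C₁ + 1) * (r + 1) * (N + 1) * (C + 1) < ζ * J := by
    have h1 : ζ * (1 - w) * J ≤ ζ * J := by
      have : ζ * J * (1 - w) ≤ ζ * J * 1 := mul_le_mul_of_nonneg_left (by linarith) (by positivity)
      linarith
    linarith
  have hbigw : 64 * (C₁ + 1) < (1 - w) * J := by
    have h1 : ζ * (1 - w) * J ≤ (1 - w) * J := by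
      have h2 : ζ ≤ 1 := by
        rw [hζ]
        exact ((min_le_right _ _).trans (min_le_right _ _)).trans (by norm_num)
      have : ζ * ((1 - w) * J) ≤ 1 * ((1 - w) * J) := mul_le_mul_of_nonneg_right h2 (by positivity)
      linarith
    linarith
  have hB0 : 0 < Pe F.p B := by
    by_contra h
    push Not at h
    have := mul_nonpos_of_nonneg_of_nonpos hK₁.le h
    linarith
  have hRf := hrel B T TH k1 (by
    rw [one_div, inv_mul_le_iff₀ hK₁]
    exact k2) k3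
  obtain ⟨a₁, w₁, e', g', p1, p2, p3, p4, G', H', p5⟩ := ctB_chN hlab
  -- the numbers
  obtain ⟨v, hv⟩ : ∃ v, v = ⌊ζ * J⌋₊ := ⟨_, rfl⟩
  have hv1 : (v : ℝ) ≤ ζ * J := by rw [hv]; exact Nat.floor_le (by positivity)
  have hv2 : ζ * J < v + 1 := by rw [hv]; exact Nat.lt_floor_add_one _
  have hlog : (1 : ℝ) / 2 ≤ Real.log 2 := by
    have := Real.log_two_gt_d9
    linarith
  have hlog0 : 0 < Real.log 2 := by linarith
  obtain ⟨u, hu⟩ : ∃ u, u = ⌈C₁ * (τ * J + 1) / Real.log 2⌉₊ := ⟨_, rfl⟩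
  have hu1 : (u : ℝ) < 2 * C₁ * (τ * J + 1) + 1 := by
    have h1 : (u : ℝ) < C₁ * (τ * J + 1) / Real.log 2 + 1 := by
      rw [hu]
      exact Nat.ceil_lt_add_one (by positivity)
    have h2 : C₁ * (τ * J + 1) / Real.log 2 ≤ 2 * C₁ * (τ * J + 1) := by
      rw [div_le_iff₀ hlog0]
      have h3 : 0 ≤ C₁ * (τ * J + 1) := by positivity
      have h4 : C₁ * (τ * J + 1) * (1 / 2) ≤ C₁ * (τ * J + 1) * Real.log 2 :=
        mul_le_mul_of_nonneg_left hlog h3
      linarith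
    linarith
  have hu2 : Real.exp (C₁ * (τ * J + 1)) ≤ 2 ^ u := by
    have h1 : C₁ * (τ * J + 1) ≤ u * Real.log 2 := by
      rw [hu, ← div_le_iff₀ hlog0]
      exact Nat.le_ceil _
    calc Real.exp (C₁ * (τ * J + 1)) ≤ Real.exp (u * Real.log 2) := Real.exp_le_exp.2 h1
      _ = 2 ^ u := by
          rw [mul_comm, Real.exp_mul, Real.exp_log (by norm_num), Real.rpow_natCast]
  -- `(r + 1) (N + 1) u` is small
  have huN : ((r : ℝ) + 1) * (N + 1) * u ≤ ζ / 4 * J := by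
    have h0 : 0 ≤ ((r : ℝ) + 1) * (N + 1) := by positivity
    have h1 : ((r : ℝ) + 1) * (N + 1) * u ≤ (r + 1) * (N + 1) * (2 * C₁ * (τ * J + 1) + 1) :=
      mul_le_mul_of_nonneg_left hu1.le h0
    have h2 : ((r : ℝ) + 1) * (N + 1) * (2 * C₁ * (τ * J + 1) + 1) =
        (16 * C₁ * (r + 1) * (N + 1) * τ) * J / 8 + (2 * C₁ + 1) * (r + 1) * (N + 1) := by ring
    have h3 : (16 * C₁ * (r + 1) * (N + 1) * τ) * J ≤ ζ * J :=
      mul_le_mul_of_nonneg_right hτ1 hJ0.le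
    have h4 : 16 * ((2 * C₁ + 1) * (r + 1) * (N + 1)) ≤
        64 * (C₁ + 1) * (r + 1) * (N + 1) * (C + 1) := by
      have e1 : 0 ≤ (C₁ + 1) * (r + 1) * (N + 1) := by positivity
      have e2 : 64 * (C₁ + 1) * (r + 1) * (N + 1) * (C + 1) =
          64 * ((C₁ + 1) * (r + 1) * (N + 1)) + 64 * ((C₁ + 1) * (r + 1) * (N + 1)) * C := by ring
      have e3 : 0 ≤ 64 * ((C₁ + 1) * (r + 1) * (N + 1)) * C := by positivity
      have e4 : (2 * C₁ + 1) * (r + 1) * (N + 1) ≤ 2 * ((C₁ + 1) * (r + 1) * (N + 1)) := by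
        have : (0 : ℝ) ≤ (r + 1) * (N + 1) := h0
        nlinarith
      linarith
    linarith
  have huN' : r * u + 1 ≤ v := by
    have h1 : ((r : ℝ)) * u ≤ (r + 1) * (N + 1) * u := by
      refine mul_le_mul_of_nonneg_right ?_ (Nat.cast_nonneg u)
      have : (0 : ℝ) ≤ (r + 1) * N := by positivity
      linarith
    have h2 : ((r * u + 1 : ℕ) : ℝ) < v + 1 := by
      push_cast
      have h3 : (64 : ℝ) * (C₁ + 1) < ζ * J := by linarith
      linarith
    have h3 : r * u + 1 < v + 1 := by exact_mod_cast h2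
    omega
  obtain ⟨hh, hhh⟩ : ∃ hh, hh = ⌊η * J⌋₊ := ⟨_, rfl⟩
  have hh1 : (hh : ℝ) ≤ η * J := by rw [hhh]; exact Nat.floor_le (by positivity)
  have hh2 : (C : ℝ) * (hh + 1) ≤ ζ * J := by
    have h1 : (C : ℝ) * (hh + 1) ≤ C * (η * J + 1) :=
      mul_le_mul_of_nonneg_left (by linarith) (by linarith)
    have h2 : C * (η * J + 1) = (C * η) * J + C := by ring
    rw [h2, hCη] at h1
    have h3 : (C : ℝ) ≤ ζ / 2 * J := by
      have e1 : 2 * (C : ℝ) ≤ 64 * (C₁ + 1) * (r + 1) * (N + 1) * (C + 1) := by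
        have e2 : (1 : ℝ) ≤ (C₁ + 1) * (r + 1) * (N + 1) := by
          have h1 : (1 : ℝ) ≤ (r : ℝ) + 1 := by linarith
          have h2 : (1 : ℝ) ≤ (N : ℝ) + 1 := by linarith
          have h3 : (1 : ℝ) ≤ C₁ + 1 := by linarith
          calc (1 : ℝ) = 1 * 1 * 1 := by norm_num
            _ ≤ _ := by gcongr
        have e3 : (C + 1 : ℝ) * 1 ≤ (C + 1) * ((C₁ + 1) * (r + 1) * (N + 1)) :=
          mul_le_mul_of_nonneg_left e2 (by linarith)
        have e4 : 64 * (C₁ + 1) * (r + 1) * (N + 1) * (C + 1) =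
            64 * ((C + 1) * ((C₁ + 1) * (r + 1) * (N + 1))) := by ring
        linarith
      linarith
    linarith
  -- the thin sides
  have hside : ∀ l, ((⌊(bet P c l a w - dT l) * (J : ℝ)⌋₊ : ℕ) : ℝ) ≤ bet P c l a w * J ∨ r ≤ l := by
    intro l
    rcases Nat.lt_or_ge l r with h1 | h1
    · left
      have h8 : ⌊(bet P c l a w - dT l) * (J : ℝ)⌋₊ ≤ ⌊bet P c l a w * (J : ℝ)⌋₊ :=
        Nat.floor_le_floor (mul_le_mul_of_nonneg_right (by linarith [(hdT l h1).1]) hJ0.le)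
      have h9 : ((⌊(bet P c l a w - dT l) * (J : ℝ)⌋₊ : ℕ) : ℝ) ≤
          ((⌊bet P c l a w * (J : ℝ)⌋₊ : ℕ) : ℝ) := by exact_mod_cast h8
      exact h9.trans (Nat.floor_le (mul_nonneg (hbe0 l) hJ0.le))
    · exact Or.inr h1
  have X : ThR F c D r ⌊a * J⌋₊ ⌊w * J⌋₊ ⌊e₀ 0 * J⌋₊ hh v u N C C₁
      (fun l => ⌊(bet P c l a w - dT l) * J⌋₊) κ (τ * J) B T TH := by
    refine ⟨hinj, by rw [hhh]; exact hRf, k3.mono le_rfl (fun _ => hDD) le_rfl le_rfl, hκ0, hB0, ?_,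
      fun l hl => ?_, huN', by positivity, fun B₂ b1 b2 b3 => ?_, ?_, hu2⟩
    · refine Nat.floor_le_of_le ?_
      calc w * (J : ℝ) ≤ 1 * J := mul_le_mul_of_nonneg_right (by linarith) hJ0.le
        _ = J := one_mul _
    · have h1 := (hside l).resolve_right (by omega)
      have h2 : ((⌊e₀ 0 * (J : ℝ)⌋₊ : ℕ) : ℝ) ≤ max 0 (e₀ 0 * J) := by
        rcases le_total 0 (e₀ 0 * (J : ℝ)) with h3 | h3
        · exact (Nat.floor_le h3).trans (le_max_right _ _)
        · rw [Nat.floor_of_nonpos h3]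
          simp
      have h3 := hR l hl
      have h4 : max 0 (e₀ 0 * (J : ℝ)) + bet P c l a w * J + R * J ≤ J := by
        rcases le_total 0 (e₀ 0 * (J : ℝ)) with h5 | h5
        · rw [max_eq_right h5]
          have := mul_le_mul_of_nonneg_right h3 hJ0.le
          linarith
        · rw [max_eq_left h5]
          have h6 : bet P c l a w + R ≤ 1 := by
            have h9 : e₀ 0 ≤ 0 := by
              by_contra h10
              push Not at h10
              have := mul_pos h10 hJ0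
              linarith
            obtain ⟨-, hcs, -⟩ := h.pt 0 h.q0 le_rfl hρ0.le
            have h11 : 0 ≤ (Csl r r : ℝ) * vs 0 := mul_nonneg (Nat.cast_nonneg _) (h.vs0 0 h.q0)
            linarith
          have := mul_le_mul_of_nonneg_right h6 hJ0.le
          linarith
      have h5 : (v : ℝ) + C * (hh + 1) ≤ R * J := by
        have := mul_le_mul_of_nonneg_right hζ2 hJ0.le
        have h6 : 0 ≤ R * J := by positivity
        linarith
      have h6 : ((⌊e₀ 0 * (J : ℝ)⌋₊ + ⌊(bet P c l a w - dT l) * (J : ℝ)⌋₊ + v + C * (hh + 1) : ℕ) : ℝ)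
          ≤ J := by
        push_cast
        linarith
      exact_mod_cast h6
    · refine htm B₂ (fun ω hω => k1 ω (b1 ω hω)) ?_ b3
      rw [div_mul_eq_mul_div, div_le_iff₀ hK₁]
      calc κ * Pe F.p A ≤ κ * (K₁ * Pe F.p B) := mul_le_mul_of_nonneg_left k2 hκ0.le
        _ = κ * Pe F.p B * K₁ := by ring
        _ ≤ _ := mul_le_mul_of_nonneg_right b2 hK₁.le
    · have h1 : ((⌊w * (J : ℝ)⌋₊ : ℕ) : ℝ) ≤ w * J := Nat.floor_le (by positivity)
      have h2 : (1 - w) * J * (1 / 2) ≤ ((J : ℝ) - (⌊w * (J : ℝ)⌋₊ : ℕ)) * Real.log 2 := by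
        refine mul_le_mul (by linarith) hlog (by norm_num) (by linarith [mul_nonneg hw1.le hJ0.le])
      refine le_trans ?_ h2
      have h3 : C₁ * (τ * J + 1) = (4 * C₁ * τ) * J / 4 + C₁ := by ring
      have h4 : (4 * C₁ * τ) * J ≤ (1 - w) * J := mul_le_mul_of_nonneg_right hτ2 hJ0.le
      linarith
  -- the number of steps
  have hv0 : 0 < v := by omega
  obtain ⟨k, hk⟩ : ∃ k, k = (⌊a * (J : ℝ)⌋₊ - a₁) / v := ⟨_, rfl⟩
  have hkv : k * v ≤ ⌊a * (J : ℝ)⌋₊ - a₁ := by rw [hk]; exact Nat.div_mul_le_self _ _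
  have hkv2 : ⌊a * (J : ℝ)⌋₊ - a₁ < k * v + v := by
    have h1 := Nat.div_add_mod (⌊a * (J : ℝ)⌋₊ - a₁) v
    have h2 := Nat.mod_lt (⌊a * (J : ℝ)⌋₊ - a₁) hv0
    rw [← hk, Nat.mul_comm] at h1
    omega
  have haJ : ((⌊a * (J : ℝ)⌋₊ : ℕ) : ℝ) ≤ J := by
    refine (Nat.floor_le (by positivity)).trans ?_
    calc a * (J : ℝ) ≤ 1 * J := mul_le_mul_of_nonneg_right ha1.le hJ0.le
      _ = J := one_mul _
  have hkN : k ≤ N := by
    by_contra hcon
    push Not at hcon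
    have h1 : (N + 1) * v ≤ k * v := Nat.mul_le_mul_right v hcon
    have h2 : (((N + 1) * v : ℕ) : ℝ) ≤ J := by
      refine le_trans ?_ haJ
      exact_mod_cast h1.trans (hkv.trans (Nat.sub_le _ _))
    push_cast at h2
    have h3 : ζ / 2 * J ≤ v := by linarith
    have h4 : 2 ≤ N * ζ := by rwa [div_le_iff₀ hζ0] at hN
    have h5 : ((N : ℝ) + 1) * (ζ / 2 * J) ≤ (N + 1) * v := mul_le_mul_of_nonneg_left h3 (by positivity)
    have h6 : ((N : ℝ) + 1) * (ζ / 2 * J) = N * ζ / 2 * J + ζ / 2 * J := by ring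
    have h7 : 1 * (J : ℝ) ≤ N * ζ / 2 * J := mul_le_mul_of_nonneg_right (by linarith) hJ0.le
    have h8 : 0 < ζ / 2 * J := by positivity
    linarith
  have hfin := hfam (i := i) (a₁ := a₁) (w₁ := w₁) (B' := B) hi X (fun _ h => h) (by
      rw [hκ, one_div, inv_mul_cancel₀ (by positivity), one_mul]) p1 p3
    ((p5.mono le_rfl (fun _ => hDK) le_rfl le_rfl).sub k1) k hkN (by omega)
  -- the contradiction
  have hga := (hside i).resolve_right (by omega)
  have h1 : ⌊(bet PW c i a w - γ / 8) * (J : ℝ)⌋₊ ≤ v +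
      (⌊(bet P c i a w - dT i) * (J : ℝ)⌋₊ + k * ((i + 1) * u) + C * (hh + 1)) := by
    have e1 : ⌊(PW ((List.range i).map c, c i) a w - γ / 8) * (J : ℝ)⌋₊ + a₁ ≤
        g' i + ⌊a * (J : ℝ)⌋₊ := p4
    change ⌊(bet PW c i a w - γ / 8) * (J : ℝ)⌋₊ + a₁ ≤ g' i + ⌊a * (J : ℝ)⌋₊ at e1
    omega
  have h2 : (((⌊(bet PW c i a w - γ / 8) * (J : ℝ)⌋₊ : ℕ)) : ℝ) ≤ v +
      ((⌊(bet P c i a w - dT i) * (J : ℝ)⌋₊ : ℕ) + k * ((i + 1) * u) + C * (hh + 1)) := by
    exact_mod_cast h1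
  have h3 := Nat.lt_floor_add_one ((bet PW c i a w - γ / 8) * (J : ℝ))
  have h4 : (k : ℝ) * ((i + 1) * u) ≤ (r + 1) * (N + 1) * u := by
    have e1 : (k : ℝ) ≤ N + 1 := by
      have : (k : ℝ) ≤ N := by exact_mod_cast hkN
      linarith
    have e2 : ((i : ℝ) + 1) ≤ r + 1 := by
      have : (i : ℝ) ≤ r := by exact_mod_cast hi.le
      linarith
    calc (k : ℝ) * ((i + 1) * u) = (i + 1) * k * u := by ring
      _ ≤ (r + 1) * (N + 1) * u := by gcongr
  have h5 : bet PW c i a w * J = bet P c i a w * J + γ * J := by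
    rw [hγ]
    ring
  have h6 : ζ * J ≤ γ / 8 * J := mul_le_mul_of_nonneg_right hζ1 hJ0.le
  have h7 : (1 : ℝ) < ζ * J := by linarith
  have h8 : 0 < γ * J := by positivity
  linarith

end Pool.PBL
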