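import Pool.Agent.H9.GEN.PkJ
import Pool.Agent.H9.GEN.DiaL

/-!
# The diagonals of the coordinates of an order at its good windows
-/

set_option autoImplicit false

namespace Pool.PKG

open MeasureTheory Set Filter Topology
open Pool.Agent.H49.Ent Pool.Agent.H32.Dense Pool.STK Pool.KA Pool.KSAT Pool.K2S Pool.PB
open Pool.GEN Pool.S6C Pool.STAT Pool.CHT Pool.GRW Pool.ONE Pool.STA
open Pool.LBT (LSys ThrOf)
open Pool.FRN (Wgd Gdy)

variable {n : ℕ} {hn : 2 ≤ n} {S : PCl n} {P : ℝ → ℝ → ℝ} {r : ℝ → ℝ}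
  {P' : ℕ → List (Fin n) × Fin n → ℝ → ℝ → ℝ} {Λ : Finset (Fin n) → Fin n → ℝ → ℝ → ℝ}
  {o : Od n} {g α Q c : ℝ}

/-- **The diagonal of a coordinate of the order**: over the list of the preceding coordinates, with
sides of any shape and gradients of any size. Both sides are the values at
`((List.range l).map (cc hn o.1.1), cc hn o.1.1 l)`. -/
theorem Fac.diagl (F : Fac hn S P r P' o g α Q c) (H : Pk hn S P r P' Λ) (hg : g ∈ Wgd (P' o.2))
    {β PB : List (Fin n) × Fin n → ℝ → ℝ → ℝ} (hβ : ∀ i, β i g g = P' o.2 i g g)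
    (hPB : ThrOf (Pool.CHB.chsysB n none β) S PB) {l : ℕ} (hl : l < n - 1) {a' : ℝ} (ha : g < a')
    (ha1 : a' ≤ 1) : min 1 (bet (P' o.2) (cc hn o.1.1) l g g + (a' - g)) ≤
      bet PB (cc hn o.1.1) l a' a' :=
  F.gdy.diagl H.ne (H.cht o.2) (tht_pos _) H.tmh F.t1 F.α1 F.c1.le F.vis F.g0 F.gα hg hβ hPB hl
    a' ha ha1

/-- The same, without the gain. -/
theorem Fac.diagl' (F : Fac hn S P r P' o g α Q c) (H : Pk hn S P r P' Λ) (hg : g ∈ Wgd (P' o.2))
    {β PB : List (Fin n) × Fin n → ℝ → ℝ → ℝ} (hβ : ∀ i, β i g g = P' o.2 i g g)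
    (hPB : ThrOf (Pool.CHB.chsysB n none β) S PB) {l : ℕ} (hl : l < n - 1) {a' : ℝ} (ha : g < a')
    (ha1 : a' ≤ 1) : bet (P' o.2) (cc hn o.1.1) l g g ≤ bet PB (cc hn o.1.1) l a' a' := by
  refine le_trans (le_min ?_ ?_) (F.diagl H hg hβ hPB hl ha ha1)
  · have h1 := F.le l hl g g F.g0 le_rfl F.gα
    have h2 := F.thc
    have h3 := tht_pos o.2
    linarith
  · linarith

end Pool.PKG
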