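import Pool.Agent.H9.GEN.Tgs0
import Pool.Agent.H9.GEN.Clo
import Pool.Agent.H2.GEN.AttG

/-!
# The target on the top of the chain of a good point

`top_fam`: a two-sided label of the target over the natural box of a chain without relations may be
put on the top of the chain, if there is no steep closed label of the target.
`pt_core`: the same in a class, at a good point.
-/

set_option autoImplicit false

namespace Pool.FRN

open Finset Real MvPolynomial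
open Pool.Agent.H49.Ent Pool.Agent.H32.Dense Pool.STK Pool.KA Pool.KSAT Pool.K2S Pool.PB Pool.S6C
open Pool.GEN

variable {m J : ℕ}

/-- **One family.** -/
theorem top_fam (r K Kc : ℕ) : ∃ K'' L : ℕ, 1 ≤ K'' ∧
    ∀ {m J : ℕ} {F : Fam m J} {c : ℕ → Fin m}
    {a w e ν Q p Qn σ h D : ℕ} {q : ℕ → ℕ} {A B₀ : F.Ω → Prop} {κ κ' ρ : ℝ}
    {G : PtT F → ℕ → MvPolynomial (Option (Fin m)) ℝ}
    {H : LnT F → ℕ → MvPolynomial (Option (Fin m)) ℝ} {k : Fin m}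
    {Gt : PtT F → MvPolynomial (Option (Fin m)) ℝ} {Ht : LnT F → MvPolynomial (Option (Fin m)) ℝ},
    Set.InjOn c (Set.Iio r) → (∀ l < r, c l ≠ k) → w ≤ a → a ≤ J → K ≤ D →
    ChOK F c r (fun _ => Kc) a w e q B₀ G H → (∀ i < r, ∀ l < i, nlp q l i ≤ ν) →
    (∀ l < r, q l ≤ Q) → Relv F c r a w q B₀ G D h κ' (1 / 2) → 0 ≤ ρ →
    κ' ≤ (1 / 2) ^ (r + 1) * ρ → Sub A B₀ → ρ * Pe F.p B₀ ≤ Pe F.p A →
    (∀ y, (Gt y).totalDegree ≤ K) → (∀ s, (Ht s).totalDegree ≤ K) →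
    (∀ y, DepC c r (Gt y)) → (∀ s, DepC c r (Ht s)) →
    (∀ ω, A ω → |F.x ω k - eval (bt F ω) (Gt (ptr F J ω))| ≤ 1 / 2 ^ p) →
    (∀ ω, A ω → ∀ b, NBx c (G (ptr F J ω)) q a (F.t ω) r b →
      |eval b (Gt (ptr F J ω)) - eval b (Ht (slam F w ω))| ≤ 1 / 2 ^ p) →
    κ * (r * K'') ≤ 1 / 2 → L ≤ p → p ≤ Qn → p + L ≤ σ → Q + L + (e + ν + 2) * r ≤ σ →
    (∀ B : F.Ω → Prop, Sub B A → κ * Pe F.p A ≤ Pe F.p B → Stp F k a Qn K'' (σ - L) B) →
    ∃ (B : F.Ω → Prop) (e' : ℕ), Sub B A ∧ (1 / 2) ^ (r + 1) * Pe F.p A ≤ Pe F.p B ∧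
      ChOK F (fun l => if l < r then c l else k) (r + 1) (fun _ => max K Kc) a w e'
        (fun l => if l < r then q l else p) B (fun y l => if l < r then G y l else Gt y)
        (fun s l => if l < r then H s l else Ht s) ∧
      ∀ l ≤ r, e' + (if l < r then q l else p) ≤
        2 * h + L + (e + ν + 2) * (r + 1) + ν + max (σ + 1) (max Q p) := by
  obtain ⟨K'', L₁, hK'', hown⟩ := own_small r (max K Kc)
  obtain ⟨L₂, hext⟩ := own_ext r K Kc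
  refine ⟨K'', L₁ + L₂, hK'', ?_⟩
  intro m J F c a w e ν Q p Qn σ h D q A B₀ κ κ' ρ G H k Gt Ht hinj hck hwa haJ hKD hch hν hQ hR
    hρ hκ' hA hPA dG dH eG eH pos agr hκ hLp hpQ hpσ hQσ hT
  have hPB := Pe_nonneg F.isLaw B₀
  obtain ⟨B₁, b1, b2, b3⟩ := hown (κ := κ) (η := 1 / 2) (Q := Q) (Qn := Qn) (σ := σ - L₂)
    hinj hck (fun _ => le_max_right K Kc) hwa haJ (hch.sub hA) hν hQ
    (fun y => (dG y).trans (le_max_left _ _)) (fun s => (dH s).trans (le_max_left _ _)) eG eH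
    pos agr (by norm_num) hκ (by omega) hpQ (by omega) (by omega) (fun B h1 h2 => by
      have h3 := hT B h1 h2
      have e1 : σ - L₂ - L₁ = σ - (L₁ + L₂) := by omega
      rw [e1]
      exact h3)
  have hB₁ : Sub B₁ B₀ := fun ω hω => hA ω (b1 ω hω)
  have hP1 : κ' * Pe F.p B₀ ≤ (1 / 2) ^ r * Pe F.p B₁ := by
    calc κ' * Pe F.p B₀ ≤ (1 / 2) ^ (r + 1) * ρ * Pe F.p B₀ :=
          mul_le_mul_of_nonneg_right hκ' hPB
      _ = (1 / 2) ^ r * (1 / 2 * (ρ * Pe F.p B₀)) := by rw [pow_succ]; ring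
      _ ≤ (1 / 2) ^ r * (1 / 2 * Pe F.p A) :=
          mul_le_mul_of_nonneg_left (mul_le_mul_of_nonneg_left hPA (by norm_num)) (by positivity)
      _ ≤ _ := mul_le_mul_of_nonneg_left (by linarith only [b2]) (by positivity)
  obtain ⟨e', he'⟩ : ∃ e', e' = h + L₂ + (e + ν + 2) * (r + 1) +
    (h + (σ - L₂ + 1) - max (q (r - 1)) p) := ⟨_, rfl⟩
  have h0 : e ≤ (e + ν + 2) * (r + 1) := by nlinarith
  obtain ⟨B, k1, k2, k3⟩ := hext (r := r) (h := h) (ν := ν) (σ := σ - L₂ + 1) (e' := e') (D := D)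
    (η := 1 / 2) (κ := (1 / 2) ^ r) le_rfl hinj (fun _ => le_rfl) hKD (by norm_num) (by norm_num)
    (by norm_num) (hch.sub hB₁) hν (hR.sub hB₁ hP1 le_rfl le_rfl le_rfl) dG dH eG eH
    (fun ω hω => pos ω (b1 ω hω)) (fun ω hω => agr ω (b1 ω hω)) b3 (by omega) (by omega)
    (by omega)
  refine ⟨B, e', fun ω hω => b1 ω (k1 ω hω), ?_, k3.mono le_rfl (fun l => ?_) le_rfl le_rfl,
    fun l hl => ?_⟩
  · calc (1 / 2) ^ (r + 1) * Pe F.p A = (1 / 2) ^ r * (1 / 2 * Pe F.p A) := by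
          rw [pow_succ]; ring
      _ ≤ (1 / 2) ^ r * Pe F.p B₁ :=
          mul_le_mul_of_nonneg_left (by linarith only [b2]) (by positivity)
      _ = (1 - 1 / 2) ^ r * Pe F.p B₁ := by norm_num
      _ ≤ _ := k2
  · show (if l < r then Kc else K) ≤ _
    split_ifs
    · exact le_max_right _ _
    · exact le_max_left _ _
  · have hql : ∀ l < r, q l ≤ q (r - 1) + ν := by
      intro l hl
      rcases Nat.lt_or_ge l (r - 1) with h2 | h2
      · have h3 := hν (r - 1) (by omega) l h2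
        have h4 := Finset.le_sup (f := q) (Finset.mem_Icc.2 ⟨le_rfl, h2.le⟩)
        unfold nlp at h3
        omega
      · have : l = r - 1 := by omega
        rw [this]
        omega
    have hM1 : q (r - 1) ≤ max (q (r - 1)) p := le_max_left _ _
    have hM2 : p ≤ max (q (r - 1)) p := le_max_right _ _
    have hX1 : σ + 1 ≤ max (σ + 1) (max Q p) := le_max_left _ _
    have hX2 : Q ≤ max (σ + 1) (max Q p) := (le_max_left _ _).trans (le_max_right _ _)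
    have hX3 : p ≤ max (σ + 1) (max Q p) := (le_max_right _ _).trans (le_max_right _ _)
    rcases Nat.lt_or_ge l r with h1 | h1
    · rw [if_pos h1, he']
      have h2 := hql l h1
      have h3 := hQ l h1
      omega
    · rw [if_neg (Nat.not_lt.2 h1), he']
      omega

/-! ### The numbers -/

theorem pow_sub_le {x P : ℕ} (h : x ≤ P) : (2 : ℝ) ^ x / 2 ^ P = 1 / 2 ^ (P - x) := by
  rw [div_eq_div_iff (by positivity) (by positivity), one_mul, ← pow_add]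
  congr 1
  omega

/-- The precisions of a sorted list. -/
theorem num_q {r J : ℕ} {q : ℕ → ℕ} {β : ℕ → ℝ} {η sg : ℝ} (hβ : ∀ l < r, β l ≤ sg)
    (hsort : ∀ i < r, ∀ l ≤ i, β l ≤ β i) (h : ∀ l < r, |(q l : ℝ) - β l * J| ≤ η * J) :
    (∀ i < r, ∀ l < i, nlp q l i ≤ ⌈2 * η * J⌉₊) ∧ ∀ l < r, q l ≤ ⌈(sg + η) * J⌉₊ := by
  have hJ0 : (0 : ℝ) ≤ J := Nat.cast_nonneg J
  have hql : ∀ l < r, (q l : ℝ) ≤ (β l + η) * J ∧ (β l - η) * J ≤ q l := by
    intro l hl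
    have h6 := abs_le.1 (h l hl)
    constructor <;> linarith only [h6.1, h6.2]
  refine ⟨fun i hi l hl => ?_, fun l hl => ?_⟩
  · unfold nlp
    rw [Nat.sub_le_iff_le_add]
    refine Finset.sup_le fun j hj => ?_
    rw [Finset.mem_Icc] at hj
    have h6 := (hql j (by omega)).1
    have h7 := (hql i hi).2
    have h8 := mul_le_mul_of_nonneg_right (hsort i hi j hj.2) hJ0
    have h10 := Nat.le_ceil (2 * η * (J : ℝ))
    have h9 : (q j : ℝ) ≤ ((⌈2 * η * J⌉₊ + q i : ℕ) : ℝ) := by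
      push_cast
      linarith only [h6, h7, h8, h10]
    exact_mod_cast h9
  · have h6 := (hql l hl).1
    have h7 := mul_le_mul_of_nonneg_right (hβ l hl) hJ0
    have h8 := Nat.le_ceil ((sg + η) * (J : ℝ))
    have h9 : (q l : ℝ) ≤ ⌈(sg + η) * J⌉₊ := by linarith only [h6, h7, h8]
    exact_mod_cast h9

/-- The numbers of `pt_core`. -/
theorem num_pt {r L₁ L J h e ν Qv σ₀ u P : ℕ} {ε lam η sg Q : ℝ} (hη0 : 0 < η)
    (hη1 : η * (8 * (3 * r + 8)) ≤ ε) (hη3 : η * (4 * (L₁ + 1)) ≤ ε)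
    (hη4 : η * (4 * (L₁ + 1)) ≤ lam) (hQ : Q ≤ sg)
    (hh : h = ⌈η * J⌉₊) (he : e = ⌊η * J⌋₊) (hν : ν = ⌈2 * η * J⌉₊) (hsg : 0 ≤ sg)
    (hQv : Qv = ⌈(sg + η) * J⌉₊) (hσ₀ : σ₀ = ⌈(sg + ε / 4) * J⌉₊)
    (b1 : 2 * (L₁ : ℝ) + L ≤ lam / 2 * J)
    (b2 : 2 * (L₁ : ℝ) + 5 + 2 * L + 3 * (r + 1) ≤ ε / 8 * J)
    (hu : (u : ℝ) ≤ η * J) (hP1 : lam * J ≤ P) (hP2 : (P : ℝ) ≤ Q * J) :
    L₁ * (h + u + 1) + L ≤ P ∧ (P : ℝ) ≤ ((P - L₁ * (h + u + 1) : ℕ) : ℝ) + ε * J ∧ P ≤ σ₀ ∧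
      Qv + L + (e + ν + 2) * r ≤ σ₀ + L ∧ Qv ≤ σ₀ + 1 ∧
      ((2 * h + L + (e + ν + 2) * (r + 1) + ν + (σ₀ + L + 1) : ℕ) : ℝ) ≤ (sg + ε) * J := by
  have hJ0 : (0 : ℝ) ≤ J := Nat.cast_nonneg J
  have hL₁0 : (0 : ℝ) ≤ L₁ := Nat.cast_nonneg _
  have hr0 : (0 : ℝ) ≤ r := Nat.cast_nonneg r
  have hLR : (0 : ℝ) ≤ L := Nat.cast_nonneg L
  have hηJ : 0 ≤ η * J := mul_nonneg hη0.le hJ0
  have hε0 : 0 < ε := lt_of_lt_of_le (by positivity) hη3
  have hεJ : (0 : ℝ) ≤ ε * J := mul_nonneg hε0.le hJ0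
  have hhJ : (h : ℝ) ≤ η * J + 1 := by
    rw [hh]
    exact (Nat.ceil_lt_add_one hηJ).le
  have heJ : (e : ℝ) ≤ η * J := by
    rw [he]
    exact Nat.floor_le hηJ
  have hνJ : (ν : ℝ) ≤ 2 * η * J + 1 := by
    rw [hν]
    exact (Nat.ceil_lt_add_one (by positivity)).le
  have hQvJ : (Qv : ℝ) ≤ (sg + η) * J + 1 := by
    rw [hQv]
    exact (Nat.ceil_lt_add_one (by positivity)).le
  have hσJ : (σ₀ : ℝ) ≤ (sg + ε / 4) * J + 1 := by
    rw [hσ₀]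
    exact (Nat.ceil_lt_add_one (by positivity)).le
  have hσJ' : (sg + ε / 4) * J ≤ σ₀ := by
    rw [hσ₀]
    exact Nat.le_ceil _
  obtain ⟨x, hx⟩ : ∃ x : ℕ, x = L₁ * (h + u + 1) := ⟨_, rfl⟩
  rw [← hx]
  have hxJ : (x : ℝ) ≤ L₁ * (2 * η * J + 2) := by
    rw [hx]
    push_cast
    exact mul_le_mul_of_nonneg_left (by linarith only [hhJ, hu]) hL₁0
  have hx1 : (L₁ : ℝ) * (2 * η * J + 2) = (η * (2 * L₁)) * J + 2 * L₁ := by ring
  have hx2 : (η * (2 * L₁)) * J ≤ ε / 2 * J :=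
    mul_le_mul_of_nonneg_right (by linarith only [hη3, hη0]) hJ0
  have hx3 : (η * (2 * L₁)) * J ≤ lam / 2 * J :=
    mul_le_mul_of_nonneg_right (by linarith only [hη4, hη0]) hJ0
  have hxP : x + L ≤ P := by
    have h6 : ((x + L : ℕ) : ℝ) ≤ P := by
      push_cast
      linarith only [hxJ, hx1, hx3, b1, hP1]
    exact_mod_cast h6
  have hηr : η * J * (3 * r + 8) ≤ ε / 8 * J := by
    have := mul_le_mul_of_nonneg_right hη1 hJ0
    linarith only [this]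
  have hrη : 0 ≤ η * J * r := mul_nonneg hηJ hr0
  have hQsg : Q * J ≤ sg * J := mul_le_mul_of_nonneg_right hQ hJ0
  refine ⟨hxP, ?_, ?_, ?_, ?_, ?_⟩
  · rw [Nat.cast_sub (by omega)]
    linarith only [hxJ, hx1, hx2, b2, hr0, hLR, hεJ]
  · have h6 : (P : ℝ) ≤ σ₀ := by linarith only [hP2, hQsg, hσJ', hεJ]
    exact_mod_cast h6
  · have h6 : ((Qv + L + (e + ν + 2) * r : ℕ) : ℝ) ≤ ((σ₀ + L : ℕ) : ℝ) := by
      push_cast
      have h7 : ((e : ℝ) + ν + 2) * r ≤ (3 * (η * J) + 3) * r :=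
        mul_le_mul_of_nonneg_right (by linarith only [heJ, hνJ]) hr0
      linarith only [h7, hQvJ, hσJ', hηr, hrη, hηJ, b2, hL₁0, hLR, hεJ]
    exact_mod_cast h6
  · have h8 : (Qv : ℝ) ≤ ((σ₀ + 1 : ℕ) : ℝ) := by
      push_cast
      linarith only [hQvJ, hσJ', hηr, hrη, hηJ, hεJ]
    exact_mod_cast h8
  · push_cast
    have h11 : ((e : ℝ) + ν + 2) * (r + 1) ≤ (3 * (η * J) + 3) * (r + 1) :=
      mul_le_mul_of_nonneg_right (by linarith only [heJ, hνJ]) (by linarith only [hr0])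
    linarith only [h11, hhJ, hνJ, hσJ, hηr, hrη, hηJ, b2, hL₁0, hLR, hεJ, hr0]

end Pool.FRN
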