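import Pool.Agent.H9.GEN.Tgs3

/-!
# The target on the top of the chains of good points: the steps

`GdP`: the data of a good point for the target `k`.
`st0`: a label of the target over any list, with larger sides, gives the target on the top of the
chain of a good point.
`st1`: from one good point to the next one, the precision increases with the radius exponent.
-/

set_option autoImplicit false

namespace Pool.FRN

open Finset Real MvPolynomial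
open Pool.Agent.H49.Ent Pool.Agent.H32.Dense Pool.STK Pool.KA Pool.KSAT Pool.K2S Pool.PB Pool.S6C
open Pool.GEN
open Pool.LBN (cof cof_lt cof_ge cof_len)
open Pool.FLF (Fam.sub)
open Pool.CHT (TmH big bas_ev chN_trivial)

variable {m J : ℕ}

/-- **The data of a good point** for the target `k`: the chain `c` runs through all the other
coordinates. -/
structure GdP (S : PCl m) (k : Fin m) (r : ℕ) (Q sg : ℝ) (c : ℕ → Fin m) (β : ℕ → ℝ) (a w : ℝ) :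
    Prop where
  win : 0 < w
  le : w ≤ a
  lt : a < 1
  inj : Set.InjOn c (Set.Iio r)
  ne : ∀ l < r, c l ≠ k
  all : ∀ i, i ≠ k → ∃ j < r, c j = i
  bd : ∀ l < r, β l ≤ sg
  sort : ∀ i < r, ∀ l ≤ i, β l ≤ β i
  pt : GPt S c r β a w
  st : StC S k a Q sg

/-- **A label of the target** over any list. -/
def MeL (F : Fam m J) (k : Fin m) (K : ℕ) (l : List (Fin m)) (a₀ w₀ e : ℕ) (g : ℕ → ℕ)
    (A : F.Ω → Prop) : Prop :=
  l.Nodup ∧ k ∉ l ∧ w₀ ≤ a₀ ∧ ChN F (cof l k) (l.length + 1) (fun _ => K) a₀ w₀ e g A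

theorem exp_le_two {x : ℝ} {u : ℕ} (h : 2 * x ≤ u) : Real.exp x ≤ 2 ^ u := by
  have h1 : (1 : ℝ) / 2 ≤ Real.log 2 := by
    have := Real.log_two_gt_d9
    linarith only [this]
  have h2 : x ≤ Real.log 2 * u := by
    have h3 : 1 / 2 * (u : ℝ) ≤ Real.log 2 * u := mul_le_mul_of_nonneg_right h1 (Nat.cast_nonneg u)
    linarith only [h, h3]
  calc Real.exp x ≤ Real.exp (Real.log 2 * u) := Real.exp_le_exp.2 h2
    _ = 2 ^ u := by rw [Real.exp_mul, Real.exp_log two_pos, Real.rpow_natCast]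

/-- **From any label of the target.** -/
theorem st0 {S : PCl m} (hS : TmH S) {k : Fin m} {c : ℕ → Fin m} {r : ℕ} {β : ℕ → ℝ}
    {a w Q sg : ℝ} (h : GdP S k r Q sg c β a w) (hQ0 : 0 < Q) (hQ : Q ≤ sg) (K : ℕ) {ε : ℝ}
    (hε : 0 < ε) : ∃ (K' : ℕ) (K₁ : ℝ), 0 < K₁ ∧
      Bas S (fun J F A => ∀ (l : List (Fin m)) (a₀ w₀ e : ℕ) (g : ℕ → ℕ), MeL F k K l a₀ w₀ e g A →
        a₀ ≤ ⌊a * J⌋₊ → w₀ ≤ ⌊w * J⌋₊ → ∃ (B : F.Ω → Prop) (p : ℕ), Sub B A ∧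
          Pe F.p A ≤ K₁ * Pe F.p B ∧
          (∀ P : ℕ, P ≤ g l.length → (P : ℝ) ≤ Q * J → (P : ℝ) ≤ p + ε * J) ∧
          OutS c r k K' a w (sg + ε) p J F B) := by
  obtain ⟨L, hL⟩ := inc_mem r K
  obtain ⟨lam, hlam⟩ : ∃ lam : ℝ, lam = min (ε / 2) (min (w / 2) (Q / 2)) := ⟨_, rfl⟩
  have hw := h.win
  have l0 : 0 < lam := by
    rw [hlam]
    exact lt_min (half_pos hε) (lt_min (half_pos hw) (half_pos hQ0))
  have l1 : lam ≤ ε / 2 := by rw [hlam]; exact min_le_left _ _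
  have l2 : lam ≤ w / 2 := by rw [hlam]; exact (min_le_right _ _).trans (min_le_left _ _)
  have l3 : lam ≤ Q / 2 := by rw [hlam]; exact (min_le_right _ _).trans (min_le_right _ _)
  have hw1 : w ≤ 1 := h.le.trans h.lt.le
  obtain ⟨K', K₁, hK₁, hb⟩ := pt_core hS h.win h.le h.lt h.inj h.ne h.bd h.sort hQ0.le hQ h.pt h.st
    (K := max K 1) (L₁ := L) (ρ := (1 / 2) ^ (r + 1)) (κ := (1 / 2) ^ (r + 1)) (by positivity)
    (by positivity) (fun J F A P => ∃ (l : List (Fin m)) (a₀ w₀ e : ℕ) (g : ℕ → ℕ),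
      MeL F k K l a₀ w₀ e g A ∧ a₀ ≤ ⌊a * J⌋₊ ∧ w₀ ≤ ⌊w * J⌋₊ ∧ P ≤ g l.length)
    (fun κ₀ εu _ hu => ⟨1, one_pos, 0, fun J _ F A _ P => by
      rintro ⟨l, a₀, w₀, e, g, ⟨h1, h2, h3, h4⟩, h5, h6, h7⟩
      refine ⟨0, by rw [Nat.cast_zero]; positivity, ?_⟩
      exact hL h.all h1 h2 h5 h6 (Pool.LBT.fl_le' hw1 J) h7 h4⟩) hε l0
  obtain ⟨J₁, hJ₁⟩ := big 3 l0
  refine ⟨K', K₁, hK₁, hb.mono J₁ ?_⟩
  intro J hJ F A hb l a₀ w₀ e g hM ha hwJ
  have b1 := hJ₁ J hJ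
  have hJ0 : (0 : ℝ) ≤ J := Nat.cast_nonneg J
  by_cases hlt : lam * J ≤ (min (g l.length) ⌊Q * J⌋₊ : ℕ)
  · obtain ⟨B, p, h1, h2, h3, h4, h5⟩ := hb (min (g l.length) ⌊Q * J⌋₊) hlt (by
      refine le_trans ?_ (Nat.floor_le (by positivity : 0 ≤ Q * (J : ℝ)))
      exact_mod_cast min_le_right _ _) ⟨l, a₀, w₀, e, g, hM, ha, hwJ, min_le_left _ _⟩
    refine ⟨B, p, h1, h2, fun P k1 k2 => ?_, h5⟩
    have k3 : P ≤ min (g l.length) ⌊Q * J⌋₊ := le_min k1 (Nat.le_floor k2)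
    have k4 : (P : ℝ) ≤ (min (g l.length) ⌊Q * J⌋₊ : ℕ) := by exact_mod_cast k3
    exact k4.trans h4
  · -- the trivial label
    have c1 := Nat.le_ceil (lam * (J : ℝ))
    have c2 := Nat.ceil_lt_add_one (show 0 ≤ lam * (J : ℝ) by positivity)
    have c3 : (⌈lam * (J : ℝ)⌉₊ : ℝ) ≤ Q * J := by
      have := mul_le_mul_of_nonneg_right l3 hJ0
      linarith only [c2, this, b1]
    have c4 : ⌈lam * (J : ℝ)⌉₊ + 1 ≤ ⌊w * J⌋₊ := by
      refine Nat.le_floor ?_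
      have := mul_le_mul_of_nonneg_right l2 hJ0
      push_cast
      linarith only [c2, this, b1]
    obtain ⟨B, p, h1, h2, h3, h4, h5⟩ := hb ⌈lam * (J : ℝ)⌉₊ c1 c3
      ⟨[], ⌊w * J⌋₊, ⌊w * J⌋₊, 0, fun _ => ⌈lam * (J : ℝ)⌉₊, ⟨List.nodup_nil, List.not_mem_nil,
        le_rfl, chN_trivial F _ _ _ _ _ c4 (Pool.LBT.fl_le' hw1 J) A⟩,
        Nat.floor_le_floor (mul_le_mul_of_nonneg_right h.le hJ0), le_rfl, le_rfl⟩
    refine ⟨B, p, h1, h2, fun P k1 k2 => ?_, h5⟩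
    have k3 : P ≤ min (g l.length) ⌊Q * J⌋₊ := le_min k1 (Nat.le_floor k2)
    have k4 : (P : ℝ) ≤ (min (g l.length) ⌊Q * J⌋₊ : ℕ) := by exact_mod_cast k3
    have k5 : lam * J ≤ ε * J := mul_le_mul_of_nonneg_right (by linarith only [l1, hε]) hJ0
    have k6 : (0 : ℝ) ≤ p := Nat.cast_nonneg p
    linarith only [k4, not_le.1 hlt, k5, k6]

/-- **From a good point to the next one.** -/
theorem st1 {S : PCl m} (hS : TmH S) {k : Fin m} {c d : ℕ → Fin m} {r : ℕ} {β : ℕ → ℝ}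
    {a w a' w' Q sg E : ℝ} (h : GdP S k r Q sg c β a' w') (hd : Set.InjOn d (Set.Iio r))
    (hdk : ∀ l < r, d l ≠ k) (hw : 0 < w) (hwa : w ≤ a) (ha : a < a') (hww : w ≤ w')
    (hQ0 : 0 < Q) (hQ : Q ≤ sg) (hE : E + (a' - a) < 1) (K : ℕ) {ε : ℝ}
    (hε : 0 < ε) : ∃ (K' : ℕ) (K₁ : ℝ), 0 < K₁ ∧
      Bas S (fun J F A => ∀ p₀ : ℕ, OutS d r k K a w E p₀ J F A →
        ∃ (B : F.Ω → Prop) (p : ℕ), Sub B A ∧ Pe F.p A ≤ K₁ * Pe F.p B ∧
          (∀ P : ℕ, P ≤ p₀ + (⌊a' * J⌋₊ - ⌊a * J⌋₊) → (P : ℝ) ≤ Q * J → (P : ℝ) ≤ p + ε * J) ∧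
          OutS c r k K' a' w' (sg + ε) p J F B) := by
  obtain ⟨C₁, c₀, L, hC₁, hL⟩ := inc_up m r K
  have ha0 : 0 < a := hw.trans_le hwa
  obtain ⟨lam, hlam⟩ : ∃ lam : ℝ, lam = min ((a' - a) / 2) (Q / 2) := ⟨_, rfl⟩
  have l0 : 0 < lam := by
    rw [hlam]
    exact lt_min (by linarith only [ha]) (half_pos hQ0)
  have l1 : lam ≤ (a' - a) / 2 := by rw [hlam]; exact min_le_left _ _
  have l2 : lam ≤ Q / 2 := by rw [hlam]; exact min_le_right _ _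
  have hw1 : w' ≤ 1 := h.le.trans h.lt.le
  have hwlt : w < 1 := hww.trans_lt (h.le.trans_lt h.lt)
  have hC0 : 0 < C₁ := lt_of_lt_of_le one_pos hC₁
  obtain ⟨K', K₁, hK₁, hb⟩ := pt_core hS h.win h.le h.lt h.inj h.ne h.bd h.sort hQ0.le hQ h.pt h.st
    (K := max K 1) (L₁ := L) (ρ := (1 / 2) ^ (r + 1)) (κ := (1 / 2) ^ (r + 1)) (by positivity)
    (by positivity) (fun J F A P => ∃ p₀ : ℕ, OutS d r k K a w E p₀ J F A ∧
      P ≤ p₀ + (⌊a' * J⌋₊ - ⌊a * J⌋₊))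
    (fun κ₀ εu hκ₀ hu => by
      obtain ⟨θ, hθ⟩ : ∃ θ : ℝ, θ = min εu (1 - w) / (4 * C₁) := ⟨_, rfl⟩
      have t0 : 0 < θ := by
        rw [hθ]
        exact div_pos (lt_min hu (by linarith only [hwlt])) (by positivity)
      have t1 : C₁ * θ ≤ min εu (1 - w) / 4 := by
        rw [hθ]
        apply le_of_eq
        field_simp
      have t2 : C₁ * θ ≤ εu / 4 := t1.trans (by
        have := min_le_left εu (1 - w)
        linarith only [this])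
      have t3 : C₁ * θ ≤ (1 - w) / 4 := t1.trans (by
        have := min_le_right εu (1 - w)
        linarith only [this])
      obtain ⟨J₁, hJ₁⟩ := big (2 * C₁ + 1) (show 0 < εu / 2 by positivity)
      obtain ⟨J₂, hJ₂⟩ := big C₁ (show 0 < (1 - w) / 4 by linarith only [hwlt])
      obtain ⟨J₃, hJ₃⟩ := big ((1 + c₀ : ℕ) : ℝ) (show 0 < 1 - (E + (a' - a)) by
        linarith only [hE])
      refine (bas_ev (hS.2 θ t0) hκ₀).mono (max J₁ (max J₂ J₃)) ?_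
      rintro J hJ F A hT P ⟨p₀, ⟨e, g, G', H', h1, h2, h3⟩, h4⟩
      have b1 := hJ₁ J ((le_max_left _ _).trans hJ)
      have b2 := hJ₂ J (((le_max_left _ _).trans (le_max_right _ _)).trans hJ)
      have b3 := hJ₃ J (((le_max_right _ _).trans (le_max_right _ _)).trans hJ)
      have hJ0 : (0 : ℝ) ≤ J := Nat.cast_nonneg J
      have f1 := mul_le_mul_of_nonneg_right t2 hJ0
      have f2 := mul_le_mul_of_nonneg_right t3 hJ0
      have c2 := Nat.ceil_lt_add_one (show 0 ≤ 2 * (C₁ * (θ * J + 1)) by positivity)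
      refine ⟨⌈2 * (C₁ * (θ * J + 1))⌉₊, ?_, ?_⟩
      · linarith only [c2, f1, b1]
      · refine hL h.all hd hdk (Nat.floor_le_floor (mul_le_mul_of_nonneg_right hwa hJ0))
          (Nat.floor_le_floor (mul_le_mul_of_nonneg_right ha.le hJ0))
          (Nat.floor_le_floor (mul_le_mul_of_nonneg_right hww hJ0)) (Pool.LBT.fl_le' hw1 J)
          (by rw [h2]; exact h4) (fun l hl => ?_) (show 0 ≤ θ * J by positivity) ?_
          (exp_le_two (Nat.le_ceil _)) (fun B hB hκB hPB => hT B hB hκB hPB) h1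
        · have k1 := h3 l hl
          have k2 := Nat.floor_le (show 0 ≤ a' * (J : ℝ) by
            have := ha0.trans ha
            positivity)
          have k3 := Nat.lt_floor_add_one (a * (J : ℝ))
          have k4 : ⌊a * (J : ℝ)⌋₊ ≤ ⌊a' * (J : ℝ)⌋₊ :=
            Nat.floor_le_floor (mul_le_mul_of_nonneg_right ha.le hJ0)
          have k5 : ((e + g l + (⌊a' * J⌋₊ - ⌊a * J⌋₊) + c₀ : ℕ) : ℝ) ≤ J := by
            push_cast at k1 b3 ⊢
            rw [Nat.cast_sub k4]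
            linarith only [k1, k2, k3, b3]
          exact_mod_cast k5
        · have k1 : (1 : ℝ) / 2 ≤ Real.log 2 := by
            have := Real.log_two_gt_d9
            linarith only [this]
          have k2 := Nat.floor_le (show 0 ≤ w * (J : ℝ) by positivity)
          have k3 : 0 ≤ (J : ℝ) - ⌊w * J⌋₊ := by
            have : w * (J : ℝ) ≤ 1 * J := mul_le_mul_of_nonneg_right hwlt.le hJ0
            linarith only [k2, this]
          have k4 : ((J : ℝ) - ⌊w * J⌋₊) * (1 / 2) ≤ ((J : ℝ) - ⌊w * J⌋₊) * Real.log 2 :=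
            mul_le_mul_of_nonneg_left k1 k3
          linarith only [k2, k4, f2, b2]) hε l0
  obtain ⟨J₁, hJ₁⟩ := big 3 l0
  refine ⟨K', K₁, hK₁, hb.mono J₁ ?_⟩
  intro J hJ F A hb p₀ hO
  have b1 := hJ₁ J hJ
  have hJ0 : (0 : ℝ) ≤ J := Nat.cast_nonneg J
  have k2 := Nat.floor_le (show 0 ≤ a * (J : ℝ) by positivity)
  have k3 := Nat.lt_floor_add_one (a' * (J : ℝ))
  have k4 : ⌊a * (J : ℝ)⌋₊ ≤ ⌊a' * (J : ℝ)⌋₊ :=
    Nat.floor_le_floor (mul_le_mul_of_nonneg_right ha.le hJ0)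
  have k5 := mul_le_mul_of_nonneg_right l1 hJ0
  have k6 := mul_le_mul_of_nonneg_right l2 hJ0
  have k7 := Nat.lt_floor_add_one (Q * (J : ℝ))
  obtain ⟨B, p, h1, h2, h3, h4, h5⟩ := hb (min (p₀ + (⌊a' * J⌋₊ - ⌊a * J⌋₊)) ⌊Q * J⌋₊) (by
    rw [Nat.cast_min, Nat.cast_add, Nat.cast_sub k4]
    refine le_min ?_ ?_
    · have : (0 : ℝ) ≤ p₀ := Nat.cast_nonneg _
      linarith only [k2, k3, k5, b1, this]
    · linarith only [k6, k7, b1]) (by
      refine le_trans ?_ (Nat.floor_le (by positivity : 0 ≤ Q * (J : ℝ)))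
      exact_mod_cast min_le_right _ _) ⟨p₀, hO, min_le_left _ _⟩
  refine ⟨B, p, h1, h2, fun P k1 k2 => ?_, h5⟩
  have k3 : P ≤ min (p₀ + (⌊a' * J⌋₊ - ⌊a * J⌋₊)) ⌊Q * J⌋₊ := le_min k1 (Nat.le_floor k2)
  have k4 : (P : ℝ) ≤ (min (p₀ + (⌊a' * J⌋₊ - ⌊a * J⌋₊)) ⌊Q * J⌋₊ : ℕ) := by exact_mod_cast k3
  exact k4.trans h4

end Pool.FRN
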