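import Pool.Agent.H9.GEN.Tgs4
import Pool.Agent.H1.GEN.One

/-!
# The target on the top of the chain of a good point: all labels

`tgs_pre`: at a good point, the target is on the top of the chain of the point, with the precision
of the threshold of the labels of the target, if the good points below are dense.
-/

set_option autoImplicit false

namespace Pool.FRN

open Finset Real MvPolynomial
open Pool.Agent.H49.Ent Pool.Agent.H32.Dense Pool.STK Pool.KA Pool.KSAT Pool.K2S Pool.PB Pool.S6C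
open Pool.GEN
open Pool.LBT (ThrOf)
open Pool.ONE (tgs)
open Pool.CHT (TmH big bas_ev)

variable {m J : ℕ}

theorem OutS.mono {c : ℕ → Fin m} {r : ℕ} {k : Fin m} {K K' : ℕ} {a w E E' : ℝ} {p : ℕ}
    {F : Fam m J} {A : F.Ω → Prop} (h : OutS c r k K a w E p J F A) (hK : K ≤ K')
    (hE : E ≤ E') : OutS c r k K' a w E' p J F A := by
  obtain ⟨e, g, G, H, h1, h2, h3⟩ := h
  exact ⟨e, g, G, H, h1.mono le_rfl (fun _ => hK) le_rfl le_rfl, h2, fun l hl =>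
    (h3 l hl).trans (mul_le_mul_of_nonneg_right hE (Nat.cast_nonneg J))⟩

/-- **All labels arrive** at the point `(a, w)`, with the loss `δ`. -/
def Arr (S : PCl m) (k : Fin m) (r K : ℕ) (Q E : ℝ) (c : ℕ → Fin m) (a w δ : ℝ) : Prop :=
  ∃ (K' : ℕ) (K₁ : ℝ), 0 < K₁ ∧ Bas S (fun J F A => ∀ (l : List (Fin m)) (a₀ w₀ e : ℕ) (g : ℕ → ℕ),
    MeL F k K l a₀ w₀ e g A → a₀ ≤ ⌊a * J⌋₊ → w₀ ≤ ⌊w * J⌋₊ → ∀ P : ℕ,
    P ≤ g l.length + (⌊a * J⌋₊ - a₀) → (P : ℝ) ≤ Q * J → ∃ (B : F.Ω → Prop) (p : ℕ), Sub B A ∧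
      Pe F.p A ≤ K₁ * Pe F.p B ∧ (P : ℝ) ≤ p + δ * J ∧ OutS c r k K' a w E p J F B)

theorem arr_zero {S : PCl m} (hS : TmH S) {k : Fin m} {c : ℕ → Fin m} {r : ℕ} {β : ℕ → ℝ}
    {a w Q sg M : ℝ} (h : GdP S k r Q sg c β a w) (hQ0 : 0 < Q) (hQ : Q ≤ sg) (hM : a ≤ M)
    (K : ℕ) {ε : ℝ} (hε : 0 < ε) : Arr S k r K Q (sg + ε) c a w (M + ε) := by
  obtain ⟨K', K₁, hK₁, hb⟩ := st0 hS h hQ0 hQ K hε
  refine ⟨K', K₁, hK₁, hb.mono 0 ?_⟩
  intro J _ F A hb l a₀ w₀ e g hM' h1 h2 P h3 h4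
  obtain ⟨B, p, k1, k2, k3, k4⟩ := hb l a₀ w₀ e g hM' h1 h2
  refine ⟨B, p, k1, k2, ?_, k4⟩
  have ha : 0 ≤ a := h.win.le.trans h.le
  have hJ0 : (0 : ℝ) ≤ J := Nat.cast_nonneg J
  have k5 := k3 (min P (g l.length)) (min_le_right _ _) (by
    refine le_trans ?_ h4
    exact_mod_cast min_le_left _ _)
  have k6 : P ≤ min P (g l.length) + ⌊a * J⌋₊ := by omega
  have k7 : (P : ℝ) ≤ ((min P (g l.length) : ℕ) : ℝ) + ⌊a * J⌋₊ := by exact_mod_cast k6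
  have k8 := Nat.floor_le (show 0 ≤ a * (J : ℝ) by positivity)
  have k9 := mul_le_mul_of_nonneg_right hM hJ0
  linarith only [k5, k7, k8, k9]

theorem arr_step {S : PCl m} (hS : TmH S) {k : Fin m} {c d : ℕ → Fin m} {r : ℕ} {β : ℕ → ℝ}
    {a a' wf Q sg E M δ : ℝ} (hwf : 0 < wf) (ha0 : 0 < a)
    (h : GdP S k r Q sg c β a' (min a' wf)) (hd : Set.InjOn d (Set.Iio r))
    (hdk : ∀ l < r, d l ≠ k) (ha : a < a') (hQ0 : 0 < Q) (hQ : Q ≤ sg) (hM : a' - a ≤ M)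
    (hδ : M ≤ δ) (hE : E + (a' - a) < 1) (K : ℕ) {ε : ℝ} (hε : 0 < ε)
    (hA : Arr S k r K Q E d a (min a wf) δ) :
    Arr S k r K Q (sg + ε) c a' (min a' wf) (δ + ε) := by
  obtain ⟨K₀, M₀, hM₀, hb₀⟩ := hA
  obtain ⟨K₁, M₁, hM₁, hb₁⟩ := st0 hS h hQ0 hQ K hε
  obtain ⟨K₂, M₂, hM₂, hb₂⟩ := st1 hS (w := min a wf) h hd hdk (lt_min ha0 hwf) (min_le_left _ _) ha
    (min_le_min_right _ ha.le) hQ0 hQ hE K₀ hε
  have hM0 : 0 ≤ M := by linarith only [ha, hM]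
  have hδ0 : 0 ≤ δ := hM0.trans hδ
  refine ⟨max K₁ K₂, max M₁ (M₀ * M₂), lt_max_of_lt_left hM₁, ?_⟩
  refine Bas.mono 0 ((hb₀.and hb₁).and (bas_ev hb₂ (κ := 1 / M₀) (by positivity))) ?_
  rintro J - F A ⟨⟨h₀, h₁⟩, h₂⟩ l a₀ w₀ e g hL h1 h2 P h3 h4
  have hJ0 : (0 : ℝ) ≤ J := Nat.cast_nonneg J
  have hfl : ⌊a * (J : ℝ)⌋₊ ≤ ⌊a' * (J : ℝ)⌋₊ :=
    Nat.floor_le_floor (mul_le_mul_of_nonneg_right ha.le hJ0)
  rcases Nat.lt_or_ge ⌊a * (J : ℝ)⌋₊ a₀ with hcase | hcase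
  · obtain ⟨B, p, k1, k2, k3, k4⟩ := h₁ l a₀ w₀ e g hL h1 h2
    refine ⟨B, p, k1, k2.trans (mul_le_mul_of_nonneg_right (le_max_left _ _)
      (Pe_nonneg F.isLaw B)), ?_, k4.mono (le_max_left _ _) le_rfl⟩
    have k5 := k3 (min P (g l.length)) (min_le_right _ _) (by
      refine le_trans ?_ h4
      exact_mod_cast min_le_left _ _)
    have k6 : P + a₀ ≤ min P (g l.length) + ⌊a' * J⌋₊ := by omega
    have k7 : (P : ℝ) + a₀ ≤ ((min P (g l.length) : ℕ) : ℝ) + ⌊a' * J⌋₊ := by exact_mod_cast k6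
    have k8 := Nat.floor_le (show 0 ≤ a' * (J : ℝ) by
      have := ha0.trans ha
      positivity)
    have k9 := Nat.lt_floor_add_one (a * (J : ℝ))
    have k10 : ((⌊a * (J : ℝ)⌋₊ + 1 : ℕ) : ℝ) ≤ a₀ := by exact_mod_cast hcase
    have k11 := mul_le_mul_of_nonneg_right (hM.trans hδ) hJ0
    push_cast at k10
    linarith only [k5, k7, k8, k9, k10, k11]
  · have hw₀ : w₀ ≤ ⌊min a wf * (J : ℝ)⌋₊ := by
      refine Nat.le_floor ?_
      rw [min_mul_of_nonneg _ _ hJ0]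
      refine le_min ?_ ?_
      · have k1 : (w₀ : ℝ) ≤ ⌊a * (J : ℝ)⌋₊ := by exact_mod_cast (hL.2.2.1).trans hcase
        exact k1.trans (Nat.floor_le (by positivity))
      · have k1 : (w₀ : ℝ) ≤ ⌊min a' wf * (J : ℝ)⌋₊ := by exact_mod_cast h2
        have k2 := Nat.floor_le (show 0 ≤ min a' wf * (J : ℝ) by
          have := lt_min (ha0.trans ha) hwf
          positivity)
        exact k1.trans (k2.trans (mul_le_mul_of_nonneg_right (min_le_right _ _) hJ0))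
    obtain ⟨D, hD⟩ : ∃ D, D = ⌊a' * (J : ℝ)⌋₊ - ⌊a * (J : ℝ)⌋₊ := ⟨_, rfl⟩
    obtain ⟨B₀, p₀, k1, k2, k3, k4⟩ := h₀ l a₀ w₀ e g hL hcase hw₀ (P - D) (by omega) (by
      refine le_trans ?_ h4
      exact_mod_cast Nat.sub_le _ _)
    have hPA := Pe_nonneg F.isLaw A
    obtain ⟨B, p, q1, q2, q3, q4⟩ := h₂ B₀ k1 (by
      rw [one_div_mul_eq_div, div_le_iff₀ hM₀]
      linarith only [k2]) p₀ k4
    refine ⟨B, p, fun ω hω => k1 ω (q1 ω hω), ?_, ?_, q4.mono (le_max_right _ _) le_rfl⟩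
    · calc Pe F.p A ≤ M₀ * Pe F.p B₀ := k2
        _ ≤ M₀ * (M₂ * Pe F.p B) := mul_le_mul_of_nonneg_left q2 hM₀.le
        _ = (M₀ * M₂) * Pe F.p B := by ring
        _ ≤ _ := mul_le_mul_of_nonneg_right (le_max_right _ _) (Pe_nonneg F.isLaw B)
    · have k5 := q3 (min P (p₀ + D)) (by rw [hD]; exact min_le_right _ _) (by
        refine le_trans ?_ h4
        exact_mod_cast min_le_left _ _)
      have k6 : (P : ℝ) ≤ ((P - D : ℕ) : ℝ) + D := by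
        have : P ≤ (P - D) + D := by omega
        exact_mod_cast this
      have hδJ : 0 ≤ δ * J := mul_nonneg hδ0 hJ0
      rcases le_total P (p₀ + D) with k7 | k7
      · rw [min_eq_left k7] at k5
        linarith only [k5, hδJ]
      · rw [min_eq_right k7] at k5
        push_cast at k5
        linarith only [k5, k6, k3]

/-- **Along a grid of good points.** -/
theorem arr_grid {S : PCl m} (hS : TmH S) {k : Fin m} {r n : ℕ} {α : ℕ → ℝ} {c : ℕ → ℕ → Fin m}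
    {β : ℕ → ℕ → ℝ} {wf Q sg M ε : ℝ} (hwf : 0 < wf)
    (h : ∀ i ≤ n, GdP S k r Q sg (c i) (β i) (α i) (min (α i) wf)) (hα : ∀ i < n, α i < α (i + 1))
    (hQ0 : 0 < Q) (hQ : Q ≤ sg) (hM0 : α 0 ≤ M) (hM : ∀ i < n, α (i + 1) - α i ≤ M)
    (hε : 0 < ε) (hE : sg + ε + M < 1) (K : ℕ) : ∀ i ≤ n,
      Arr S k r K Q (sg + ε) (c i) (α i) (min (α i) wf) (M + (i + 1) * ε) := by
  intro i
  induction i with
  | zero =>
    intro h0
    have h1 := arr_zero hS (h 0 h0) hQ0 hQ hM0 K hε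
    rw [Nat.cast_zero, zero_add, one_mul]
    exact h1
  | succ i ih =>
    intro hi
    have h1 := h i (by omega)
    have h2 := h (i + 1) hi
    have ha0 : 0 < α i := h1.win.trans_le h1.le
    have hM1 := hM i (by omega)
    have h3 := arr_step hS hwf ha0 h2 h1.inj h1.ne (hα i (by omega)) hQ0 hQ hM1
      (δ := M + (i + 1) * ε) (by
        have : 0 ≤ ((i : ℝ) + 1) * ε := by positivity
        linarith only [this]) (E := sg + ε) (by linarith only [hM1, hE]) K hε (ih (by omega))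
    have e1 : M + (i + 1) * ε + ε = M + (((i + 1 : ℕ) : ℝ) + 1) * ε := by
      push_cast
      ring
    rw [← e1]
    exact h3

/-- **The target on the top of the chain of a good point**, with the precision `Q` at most. -/
theorem tgs_cap {S : PCl m} (hS : TmH S) {k : Fin m} {P : ℝ → ℝ → ℝ}
    (hP : ThrOf (tgs k) S (fun _ => P)) {r : ℕ} {a w Q sg : ℝ} {c : ℕ → Fin m} {β : ℕ → ℝ}
    (h : GdP S k r Q sg c β a w) (hQ0 : 0 < Q) (hQ : Q ≤ sg) (hsg : sg < 1)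
    (hd : ∀ x y : ℝ, 0 ≤ x → x < y → y ≤ a → ∃ α, x < α ∧ α < y ∧ ∃ (c : ℕ → Fin m) (β : ℕ → ℝ),
      GdP S k r Q sg c β α (min α w)) {δ : ℝ} (hδ : 0 < δ) :
    ∃ (K : ℕ) (K₁ : ℝ), 0 < K₁ ∧ Bas S (fun J F A => ∃ (B : F.Ω → Prop) (p : ℕ), Sub B A ∧
      Pe F.p A ≤ K₁ * Pe F.p B ∧ (min (P a w) Q - δ) * J ≤ p ∧
      OutS c r k K a w (sg + δ) p J F B) := by
  have hw := h.win
  have ha0 : 0 < a := hw.trans_le h.le
  have ha1 : a < 1 := h.lt
  have hPa : a ≤ P a w := hP.low () a w hw.le h.le ha1.le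
  obtain ⟨δ', hδ'⟩ : ∃ δ' : ℝ, δ' = min (min δ (1 - sg)) (min a Q) := ⟨_, rfl⟩
  have d0 : 0 < δ' := by
    rw [hδ']
    exact lt_min (lt_min hδ (by linarith only [hsg])) (lt_min ha0 hQ0)
  have d1 : δ' ≤ δ := by rw [hδ']; exact (min_le_left _ _).trans (min_le_left _ _)
  have d2 : δ' ≤ 1 - sg := by rw [hδ']; exact (min_le_left _ _).trans (min_le_right _ _)
  have d3 : δ' ≤ a := by rw [hδ']; exact (min_le_right _ _).trans (min_le_left _ _)
  have d4 : δ' ≤ Q := by rw [hδ']; exact (min_le_right _ _).trans (min_le_right _ _)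
  -- the grid
  obtain ⟨N, hN⟩ := exists_nat_gt (8 * a / δ')
  rw [div_lt_iff₀ d0] at hN
  have hN0 : (0 : ℝ) < N := by
    by_contra hcon
    have h1 : (N : ℝ) * δ' ≤ 0 := mul_nonpos_of_nonpos_of_nonneg (not_lt.1 hcon) d0.le
    linarith only [hN, h1, ha0]
  obtain ⟨s, hs⟩ : ∃ s : ℝ, s = a / N := ⟨_, rfl⟩
  have s0 : 0 < s := by rw [hs]; positivity
  have s1 : N * s = a := by rw [hs]; field_simp
  have s2 : 8 * s ≤ δ' := by
    have h1 : N * (8 * s) ≤ N * δ' := by linarith only [s1, hN]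
    exact le_of_mul_le_mul_left h1 hN0
  have key : ∀ i : ℕ, ∃ (α : ℝ) (c' : ℕ → Fin m) (β' : ℕ → ℝ), (i < N → i * s < α ∧
      α < (i + 1) * s ∧ GdP S k r Q sg c' β' α (min α w)) ∧ (N ≤ i → α = a ∧ c' = c ∧ β' = β) := by
    intro i
    rcases Nat.lt_or_ge i N with hi | hi
    · obtain ⟨α, h1, h2, c', β', h3⟩ := hd (i * s) ((i + 1) * s) (by positivity)
        (by linarith only [s0]) (by
          rw [← s1]
          refine mul_le_mul_of_nonneg_right ?_ s0.le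
          exact_mod_cast hi)
      exact ⟨α, c', β', fun _ => ⟨h1, h2, h3⟩, fun h => absurd hi (Nat.not_lt.2 h)⟩
    · exact ⟨a, c, β, fun h => absurd h (Nat.not_lt.2 hi), fun _ => ⟨rfl, rfl, rfl⟩⟩
  choose α c' β' hlt hge using key
  have hNe := hge N le_rfl
  have hgd : ∀ i ≤ N, GdP S k r Q sg (c' i) (β' i) (α i) (min (α i) w) := by
    intro i hi
    rcases hi.lt_or_eq with h1 | h1
    · exact (hlt i h1).2.2
    · rw [h1, hNe.1, hNe.2.1, hNe.2.2, min_eq_right h.le]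
      exact h
  have hup : ∀ i < N, (i + 1 : ℝ) * s ≤ α (i + 1) ∧ α (i + 1) ≤ (i + 2) * s := by
    intro i hi
    rcases Nat.lt_or_ge (i + 1) N with h1 | h1
    · have h2 := hlt (i + 1) h1
      have h3 := h2.1
      have h4 := h2.2.1
      push_cast at h3 h4
      exact ⟨h3.le, by linarith only [h4]⟩
    · have h2 : i + 1 = N := by omega
      have h3 : ((i : ℝ) + 1) = N := by exact_mod_cast h2
      rw [h2, hNe.1, h3, s1]
      refine ⟨le_rfl, ?_⟩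
      have h4 : ((i : ℝ) + 2) * s = ((i : ℝ) + 1) * s + s := by ring
      rw [h4, h3, s1]
      linarith only [s0]
  have hmono : ∀ i < N, α i < α (i + 1) := fun i hi =>
    ((hlt i hi).2.1).trans_le (hup i hi).1
  have hmesh : ∀ i < N, α (i + 1) - α i ≤ δ' / 4 := by
    intro i hi
    have h1 := (hlt i hi).1
    have h2 := (hup i hi).2
    linarith only [h1, h2, s2]
  have hα0 : α 0 ≤ δ' / 4 := by
    have h1 : 0 < N := by exact_mod_cast hN0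
    have h2 := (hlt 0 h1).2.1
    rw [Nat.cast_zero, zero_add, one_mul] at h2
    linarith only [h2, s2, s0]
  obtain ⟨ε, hε⟩ : ∃ ε : ℝ, ε = δ' / (4 * (N + 1)) := ⟨_, rfl⟩
  have e0 : 0 < ε := by rw [hε]; positivity
  have e1 : (N + 1) * ε = δ' / 4 := by rw [hε]; field_simp
  have e2 : ε ≤ δ' / 4 := by
    have : 0 ≤ N * ε := by positivity
    linarith only [this, e1]
  obtain ⟨K₀, hK₀⟩ := hP.att () a w (δ' / 4) hw h.le ha1.le (by positivity)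
    (by linarith only [hPa, d3, ha0])
  obtain ⟨K, K₁, hK₁, hb⟩ := arr_grid hS hw hgd hmono hQ0 hQ hα0 hmesh e0
    (by linarith only [e2, d2, d0]) K₀ N le_rfl
  rw [hNe.1, hNe.2.1, min_eq_right h.le, e1] at hb
  obtain ⟨J₁, hJ₁⟩ := big 1 (show 0 < δ' / 4 by positivity)
  refine ⟨K, K₁, hK₁, (hb.and hK₀).mono J₁ ?_⟩
  rintro J hJ F A ⟨hb, l, hl1, hl2, a₀, w₀, e, g, h1, h2, h3, h4, h5, h6⟩
  have b1 := hJ₁ J hJ
  have hJ0 : (0 : ℝ) ≤ J := Nat.cast_nonneg J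
  have p0 : 0 ≤ min (P a w) Q - δ' / 4 := by
    have := le_min (d3.trans hPa) d4
    linarith only [this, d0]
  have k0 := Nat.floor_le (show 0 ≤ (min (P a w) Q - δ' / 4) * (J : ℝ) by positivity)
  have k1 := Nat.lt_floor_add_one ((min (P a w) Q - δ' / 4) * (J : ℝ))
  have k3 : ⌊(min (P a w) Q - δ' / 4) * (J : ℝ)⌋₊ ≤ ⌊(P a w - δ' / 4) * (J : ℝ)⌋₊ :=
    Nat.floor_le_floor (mul_le_mul_of_nonneg_right
      (by have := min_le_left (P a w) Q; linarith only [this]) hJ0)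
  obtain ⟨B, p, q1, q2, q3, q4⟩ := hb l a₀ w₀ e g ⟨hl1, hl2, h1, h6⟩ h2 h3
    ⌊(min (P a w) Q - δ' / 4) * (J : ℝ)⌋₊ (by omega) (by
      refine k0.trans (mul_le_mul_of_nonneg_right ?_ hJ0)
      have := min_le_right (P a w) Q
      linarith only [this, d0])
  refine ⟨B, p, q1, q2, ?_, q4.mono le_rfl (by linarith only [e2, d1, d0])⟩
  have k2 := mul_le_mul_of_nonneg_right d1 hJ0
  linarith only [q3, k1, k2, b1]

/-- **The target on the top of the chain of a good point.** -/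
theorem tgs_pre {S : PCl m} (hS : TmH S) {k : Fin m} {P : ℝ → ℝ → ℝ}
    (hP : ThrOf (tgs k) S (fun _ => P)) {r : ℕ} {a w Q sg : ℝ} {c : ℕ → Fin m} {β : ℕ → ℝ}
    (h : GdP S k r Q sg c β a w) (hPQ : P a w ≤ Q) (hQ : Q ≤ sg) (hsg : sg < 1)
    (hd : ∀ x y : ℝ, 0 ≤ x → x < y → y ≤ a → ∃ α, x < α ∧ α < y ∧ ∃ (c : ℕ → Fin m) (β : ℕ → ℝ),
      GdP S k r Q sg c β α (min α w)) {δ : ℝ} (hδ : 0 < δ) :
    ∃ (K : ℕ) (K₁ : ℝ), 0 < K₁ ∧ Bas S (fun J F A => ∃ (B : F.Ω → Prop) (p : ℕ), Sub B A ∧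
      Pe F.p A ≤ K₁ * Pe F.p B ∧ (P a w - δ) * J ≤ p ∧ OutS c r k K a w (sg + δ) p J F B) := by
  have hPa : a ≤ P a w := hP.low () a w h.win.le h.le h.lt.le
  have h1 := tgs_cap hS hP h ((h.win.trans_le h.le).trans_le (hPa.trans hPQ)) hQ hsg hd hδ
  rw [min_eq_left hPQ] at h1
  exact h1

end Pool.FRN
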