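import Pool.Agent.H9.GEN.Tgs4
import Pool.Agent.H27.TOP.Tps
import Pool.Agent.H63.TOP.T1n
import Pool.Agent.H2.GEN.AttK
import Pool.Agent.H2.GEN.Rlv

/-!
# The data of a good point, from the thresholds

`UpA P a w`: all the thresholds grow at most linearly along the diagonal at the point `(a, w)`.
`gdP_of`: at such a point there is a greedy order of the coordinates other than the target, and the
point has the data `GdP`.
-/

set_option autoImplicit false

namespace Pool.FRN

open Finset Real MvPolynomial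
open Pool.Agent.H49.Ent Pool.Agent.H32.Dense Pool.STK Pool.KA Pool.KSAT Pool.K2S Pool.PB Pool.S6C
open Pool.GEN
open Pool.LBT (ThrOf)
open Pool.CHT (TmH chsys bet tau Up1 Rc Pts gpt_of)
open Pool.TOP (T1c T2c t1n)

variable {m J : ℕ} {θ : ℝ} {S : PCl m} {P : List (Fin m) × Fin m → ℝ → ℝ → ℝ}

/-- **Linear growth of all the thresholds** along the diagonal. -/
def UpA (P : List (Fin m) × Fin m → ℝ → ℝ → ℝ) (a w : ℝ) : Prop := ∀ i, Up1 (P i) a w

theorem UpA.rc {a w : ℝ} (h : UpA P a w) (ha : a < 1) (c : ℕ → Fin m) (l i : ℕ) :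
    Rc (tau P c l i) a w := (h _).rc ha

theorem UpA.up {a w : ℝ} (h : UpA P a w) (c : ℕ → Fin m) (i : ℕ) : Up1 (bet P c i) a w := h _

/-- The typed statement of the steep closed labels. -/
theorem stC_of {k : Fin m} {α Q sg a : ℝ} (h : T2c S k α Q sg) (ha : a ≤ α) : StC S k a Q sg := by
  intro K ε hε
  refine (h K ε hε).mono 0 ?_
  intro J _ F A h1 p s V z z' G l hps hp hl hdeg hdep hcls hpos hst
  have hJ0 : (0 : ℝ) ≤ J := Nat.cast_nonneg J
  refine h1 ⌊a * J⌋₊ p s (Nat.floor_le_floor (mul_le_mul_of_nonneg_right ha hJ0)) hp ?_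
    ⟨V, z, z', G, ⟨hdeg, fun v b b' h0 h7 => hdep v b b' h0 fun i hi =>
      h7 i (Finset.mem_erase.2 ⟨hi, Finset.mem_univ _⟩), hcls, fun ω hω => ?_⟩, l, hl,
      fun ω hω => ?_⟩
  · refine (Nat.le_ceil _).trans ?_
    exact_mod_cast hps
  · rw [← hcls ω hω]
    exact hpos ω hω
  · rw [← hcls ω hω]
    exact hst ω hω

/-- **A greedy order** of the coordinates other than `k`. -/
theorem greedy_ex (P : List (Fin m) × Fin m → ℝ → ℝ → ℝ) (k : Fin m) (a w : ℝ) :
    ∀ r : ℕ, r + 1 ≤ m → ∃ c : ℕ → Fin m, Set.InjOn c (Set.Iio r) ∧ (∀ l < r, c l ≠ k) ∧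
      ∀ l < r, ∀ x, x ≠ k → (∀ j < l, c j ≠ x) →
        P ((List.range l).map c, c l) a w ≤ P ((List.range l).map c, x) a w := by
  classical
  intro r
  induction r with
  | zero =>
    intro _
    exact ⟨fun _ => k, fun i hi => absurd hi (Nat.not_lt_zero i),
      fun l hl => absurd hl (Nat.not_lt_zero l), fun l hl => absurd hl (Nat.not_lt_zero l)⟩
  | succ r ih =>
    intro hr
    obtain ⟨c, h1, h2, h3⟩ := ih (by omega)
    obtain ⟨R, hR⟩ : ∃ R : Finset (Fin m),
      R = Finset.univ.filter (fun x => x ≠ k ∧ ∀ j < r, c j ≠ x) := ⟨_, rfl⟩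
    have hRn : R.Nonempty := by
      by_contra hcon
      rw [Finset.not_nonempty_iff_eq_empty] at hcon
      have h4 : (Finset.univ : Finset (Fin m)) ⊆ insert k ((range r).image c) := by
        intro x _
        by_contra hx
        rw [Finset.mem_insert, not_or] at hx
        have h5 : x ∈ R := by
          rw [hR, Finset.mem_filter]
          refine ⟨Finset.mem_univ _, hx.1, fun j hj h6 => hx.2 ?_⟩
          exact Finset.mem_image.2 ⟨j, Finset.mem_range.2 hj, h6⟩
        rw [hcon] at h5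
        exact absurd h5 (Finset.notMem_empty x)
      have h6 := Finset.card_le_card h4
      have h7 : (insert k ((range r).image c)).card ≤ r + 1 :=
        (Finset.card_insert_le _ _).trans (Nat.add_le_add_right
          (Finset.card_image_le.trans (card_range r).le) 1)
      rw [Finset.card_univ, Fintype.card_fin] at h6
      omega
    obtain ⟨x₀, hx₀, hmin⟩ := Finset.exists_min_image R
      (fun x => P ((List.range r).map c, x) a w) hRn
    rw [hR, Finset.mem_filter] at hx₀
    obtain ⟨c', hc'⟩ : ∃ c' : ℕ → Fin m, c' = fun l => if l < r then c l else x₀ := ⟨_, rfl⟩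
    have e1 : ∀ l < r, c' l = c l := fun l hl => by rw [hc']; exact if_pos hl
    have e2 : c' r = x₀ := by rw [hc']; exact if_neg (lt_irrefl r)
    have e3 : ∀ l ≤ r, (List.range l).map c' = (List.range l).map c := by
      intro l hl
      refine List.map_congr_left fun j hj => ?_
      rw [List.mem_range] at hj
      exact e1 j (by omega)
    refine ⟨c', ?_, fun l hl => ?_, fun l hl x hx hxl => ?_⟩
    · intro i hi j hj hij
      have hi' : i < r + 1 := hi
      have hj' : j < r + 1 := hj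
      rcases Nat.lt_or_ge i r with k1 | k1 <;> rcases Nat.lt_or_ge j r with k2 | k2
      · rw [e1 i k1, e1 j k2] at hij
        exact h1 k1 k2 hij
      · have : j = r := by omega
        subst this
        rw [e1 i k1, e2] at hij
        exact absurd hij (hx₀.2.2 i k1)
      · have : i = r := by omega
        subst this
        rw [e2, e1 j k2] at hij
        exact absurd hij.symm (hx₀.2.2 j k2)
      · omega
    · rcases Nat.lt_or_ge l r with k1 | k1
      · rw [e1 l k1]
        exact h2 l k1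
      · have : l = r := by omega
        subst this
        rw [e2]
        exact hx₀.2.1
    · rcases Nat.lt_or_ge l r with k1 | k1
      · rw [e1 l k1, e3 l k1.le]
        exact h3 l k1 x hx fun j hj => by
          rw [← e1 j (by omega)]
          exact hxl j hj
      · have : l = r := by omega
        subst this
        rw [e2, e3 l le_rfl]
        refine hmin x ?_
        rw [hR, Finset.mem_filter]
        exact ⟨Finset.mem_univ _, hx, fun j hj => by
          rw [← e1 j hj]
          exact hxl j hj⟩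

/-- All the coordinates are in the list. -/
theorem all_of {c : ℕ → Fin m} {k : Fin m} (hc : Set.InjOn c (Set.Iio (m - 1)))
    (hk : ∀ l < m - 1, c l ≠ k) : ∀ i, i ≠ k → ∃ j < m - 1, c j = i := by
  classical
  intro i hi
  have h1 : (range (m - 1)).image c ⊆ Finset.univ.erase k := by
    intro x hx
    obtain ⟨j, hj, rfl⟩ := Finset.mem_image.1 hx
    exact Finset.mem_erase.2 ⟨hk j (Finset.mem_range.1 hj), Finset.mem_univ _⟩
  have h2 : ((range (m - 1)).image c).card = m - 1 := by
    rw [Finset.card_image_of_injOn, card_range]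
    intro x hx y hy h
    rw [Finset.mem_coe, Finset.mem_range] at hx hy
    exact hc hx hy h
  have h3 : (Finset.univ.erase k : Finset (Fin m)).card = m - 1 := by
    rw [Finset.card_erase_of_mem (Finset.mem_univ _), Finset.card_univ, Fintype.card_fin]
  have h4 := Finset.eq_of_subset_of_card_le h1 (by rw [h2, h3])
  have h5 : i ∈ (range (m - 1)).image c := by
    rw [h4]
    exact Finset.mem_erase.2 ⟨hi, Finset.mem_univ _⟩
  obtain ⟨j, hj, h6⟩ := Finset.mem_image.1 h5
  exact ⟨j, Finset.mem_range.1 hj, h6⟩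

/-- **Greedy orders** of all the coordinates other than `k`, at the point `(a, w)`. -/
structure Gdy (P : List (Fin m) × Fin m → ℝ → ℝ → ℝ) (k : Fin m) (a w : ℝ) (c : ℕ → Fin m) :
    Prop where
  inj : Set.InjOn c (Set.Iio (m - 1))
  ne : ∀ l < m - 1, c l ≠ k
  top : c (m - 1) = k
  gre : ∀ l < m - 1, ∀ x, x ≠ k → (∀ j < l, c j ≠ x) →
    P ((List.range l).map c, c l) a w ≤ P ((List.range l).map c, x) a w

theorem gdy_ex (P : List (Fin m) × Fin m → ℝ → ℝ → ℝ) (k : Fin m) (a w : ℝ) :
    ∃ c : ℕ → Fin m, Gdy P k a w c := by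
  have hm : 1 ≤ m := k.pos
  obtain ⟨c, h1, h2, h3⟩ := greedy_ex P k a w (m - 1) (by omega)
  obtain ⟨c', hc'⟩ : ∃ c' : ℕ → Fin m, c' = fun l => if l < m - 1 then c l else k := ⟨_, rfl⟩
  have e1 : ∀ l < m - 1, c' l = c l := fun l hl => by rw [hc']; exact if_pos hl
  have e3 : ∀ l ≤ m - 1, (List.range l).map c' = (List.range l).map c := by
    intro l hl
    refine List.map_congr_left fun j hj => ?_
    rw [List.mem_range] at hj
    exact e1 j (by omega)
  refine ⟨c', fun i hi j hj hij => ?_, fun l hl => ?_, ?_, fun l hl x hx hxl => ?_⟩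
  · rw [e1 i hi, e1 j hj] at hij
    exact h1 hi hj hij
  · rw [e1 l hl]
    exact h2 l hl
  · rw [hc']
    exact if_neg (lt_irrefl _)
  · rw [e1 l hl, e3 l hl.le]
    exact h3 l hl x hx fun j hj => by
      rw [← e1 j (by omega)]
      exact hxl j hj

theorem Gdy.all {k : Fin m} {a w : ℝ} {c : ℕ → Fin m} (h : Gdy P k a w c) :
    ∀ i, i ≠ k → ∃ j < m - 1, c j = i := all_of h.inj h.ne

/-- The order is greedy along the list. -/
theorem Gdy.tau {k : Fin m} {a w : ℝ} {c : ℕ → Fin m} (h : Gdy P k a w c) {i l : ℕ}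
    (hi : i < m - 1) (hl : l < i) : bet P c l a w ≤ Pool.CHT.tau P c l i a w := by
  refine h.gre l (by omega) (c i) (h.ne i hi) fun j hj hij => ?_
  have := h.inj (show j < m - 1 by omega) hi hij
  omega

/-- The thresholds of the chains without the target. -/
theorem Gdy.bd {k : Fin m} {a w : ℝ} {c : ℕ → Fin m} (h : Gdy P k a w c) (hne : S.Ne)
    (hP : ThrOf (chsys m θ) S P) (hθ : 0 < θ) (hS : TmH S) {α sg : ℝ} (hT1 : T1c S k α sg)
    (hα : α ≤ 1) (hsg : 0 ≤ sg) (hsgθ : sg + θ < 1) (hw : 0 < w) (hwa : w ≤ a) (ha : a < α) :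
    ∀ l < m - 1, bet P c l a w ≤ sg := fun l hl =>
  t1n hT1 hne hP hθ hS hα hsg hsgθ l (h.inj.mono fun x (hx : x < l + 1) => by
    show x < m - 1
    omega) (fun j hj => h.ne j (by omega)) a w hw hwa ha

/-- **The data of a good point**, in its greedy order. -/
theorem Gdy.gdP {k : Fin m} {a w : ℝ} {c : ℕ → Fin m} (h : Gdy P k a w c) (hne : S.Ne)
    (hP : ThrOf (chsys m θ) S P) (hθ : 0 < θ) (hS : TmH S) {α Q sg : ℝ} (hT1 : T1c S k α sg)
    (hT2 : T2c S k α Q sg) (hα : α ≤ 1) (hsg : 0 ≤ sg) (hsgθ : sg + θ < 1) (hw : 0 < w)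
    (hwa : w ≤ a) (ha : a < α) (hup : UpA P a w) :
    GdP S k (m - 1) Q sg c (fun l => bet P c l a w) a w := by
  have ha1 : a < 1 := ha.trans_le hα
  have hbd := h.bd hne hP hθ hS hT1 hα hsg hsgθ hw hwa ha
  have hθw : 0 < θ * w := mul_pos hθ hw
  have hpts : Pts S P θ c (m - 1) 1 (fun _ => a) (fun _ => w) 0 (θ * w / 2) := by
    refine Pts.of_up hne hP hθ hS h.inj le_rfl (by positivity) (fun _ _ => hw) (fun _ _ => hwa)
      (fun _ _ => ha1) (fun _ _ => ?_) (fun _ _ i _ l _ => hup.rc ha1 c l i)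
      (fun _ _ i _ => hup.up c i) (fun _ _ i hi => ?_) fun _ _ i hi l hl => ?_
    · linarith only [hθw]
    · have h4 := hbd i hi
      have h5 : θ * w ≤ θ * 1 := mul_le_mul_of_nonneg_left (hwa.trans ha1.le) hθ.le
      linarith only [h4, h5, hsgθ]
    · rw [add_zero]
      exact h.tau hi hl
  refine ⟨hw, hwa, ha1, h.inj, h.ne, h.all, hbd, fun i hi l hl => ?_,
    gpt_of hP hθ hS h.inj (by positivity : 0 < θ * w / 2) hpts, stC_of hT2 ha.le⟩
  rcases hl.eq_or_lt with rfl | hl
  · exact le_rfl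
  · have h4 := hpts.srt 0 one_pos i hi l hl
    linarith only [h4]

/-- **The data of a good point**, in some order. -/
theorem gdP_of (hne : S.Ne) (hP : ThrOf (chsys m θ) S P) (hθ : 0 < θ) (hS : TmH S) {k : Fin m}
    {α Q sg : ℝ} (hT1 : T1c S k α sg) (hT2 : T2c S k α Q sg) (hα : α ≤ 1) (hsg : 0 ≤ sg)
    (hsgθ : sg + θ < 1) {a w : ℝ} (hw : 0 < w) (hwa : w ≤ a) (ha : a < α) (hup : UpA P a w) :
    ∃ c : ℕ → Fin m, GdP S k (m - 1) Q sg c (fun l => bet P c l a w) a w := by
  obtain ⟨c, hc⟩ := gdy_ex P k a w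
  exact ⟨c, hc.gdP hne hP hθ hS hT1 hT2 hα hsg hsgθ hw hwa ha hup⟩

end Pool.FRN
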