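import Pool.Agent.H9.GEN.Tgs5
import Pool.Agent.H9.GEN.Tgs6
import Pool.Agent.H62.GEN.JatB
import Pool.Agent.H20.GEN.Upd

/-!
# The labels of the target at almost every point

`Wgd P`: the good windows; almost every window is good (`wgd_ae`).
`tgP_of`: at the points of linear growth with a good window, the labels of the target are over
the other coordinates, with the precision of the threshold, and visible (`Pool.JTN.TgP`).
-/

set_option autoImplicit false

namespace Pool.FRN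

open Finset Real MvPolynomial MeasureTheory
open Pool.Agent.H49.Ent Pool.Agent.H32.Dense Pool.STK Pool.KA Pool.KSAT Pool.K2S Pool.PB Pool.S6C
open Pool.GEN
open Pool.LBT (ThrOf)
open Pool.ONE (tgs)
open Pool.CHT (TmH chsys bet tau Up1 Rc Pts gpt_of)
open Pool.TOP (T1c T2c t1n)
open Pool.JTN (TgP)

variable {m J : ℕ} {θ : ℝ} {S : PCl m} {P : List (Fin m) × Fin m → ℝ → ℝ → ℝ}

/-- **The good windows.** -/
def Wgd (P : List (Fin m) × Fin m → ℝ → ℝ → ℝ) : Set ℝ :=
  {w : ℝ | ∀ d : ℚ, (0 : ℝ) ≤ d → w + d < 1 → UpA P (w + d) w}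

theorem Wgd.self {w : ℝ} (h : w ∈ Wgd P) (hw : w < 1) : UpA P w w := by
  have h1 := h 0 (by norm_num) (by rw [Rat.cast_zero, add_zero]; exact hw)
  rw [Rat.cast_zero, add_zero] at h1
  exact h1

theorem law_diag (hP : ThrOf (chsys m θ) S P) (i : List (Fin m) × Fin m) {d : ℝ} (hd : 0 ≤ d) :
    MonotoneOn (fun t => P i (d + t) (0 + t)) (Set.Icc 0 (1 - d)) := by
  intro x hx y hy hxy
  exact (hP.law i).mono (by linarith [hx.1]) (by linarith) (by linarith) (by linarith)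
    (by linarith) (by linarith [hy.2])

/-- **Almost every window is good.** -/
theorem wgd_ae (hP : ThrOf (chsys m θ) S P) :
    ∀ᵐ w ∂(volume.restrict (Set.Ioo (0 : ℝ) 1)), w ∈ Wgd P := by
  have h1 : ∀ d : ℚ, ∀ᵐ (w : ℝ) ∂(volume.restrict (Set.Ioo (0 : ℝ) 1)),
      (0 : ℝ) ≤ (d : ℝ) → w + (d : ℝ) < 1 → UpA P (w + (d : ℝ)) w := by
    intro d
    by_cases hd : (0 : ℝ) ≤ d
    · have h2 := Upd.dia (κ := Unit) P (fun _ => (d : ℝ)) (fun _ => 0) (1 - d)
        fun i _ => law_diag hP i hd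
      rw [ae_restrict_iff' measurableSet_Ioo] at h2 ⊢
      filter_upwards [h2] with w h3 hw _ hw1
      intro i
      have h4 := h3 ⟨hw.1, by linarith⟩ i ()
      obtain ⟨V, o₀, k1, k2, k3⟩ := h4
      refine ⟨V, o₀, k1, k2, fun o ho ho' => ?_⟩
      have h5 := k3 o ho ho'
      have e1 : (d : ℝ) + w + o = w + d + o := by ring
      have e2 : (0 : ℝ) + w + o = w + o := by ring
      have e3 : (d : ℝ) + w = w + d := by ring
      have e4 : (0 : ℝ) + w = w := by ring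
      rw [e1, e2, e3, e4] at h5
      exact h5
    · exact Filter.Eventually.of_forall fun w h => absurd h hd
  exact ae_all_iff.2 h1

/-- The good windows are dense. -/
theorem wgd_dense (hP : ThrOf (chsys m θ) S P) {x y : ℝ} (hx : 0 ≤ x) (hxy : x < y)
    (hy : y ≤ 1) : ∃ v, x < v ∧ v < y ∧ v ∈ Wgd P := by
  by_contra hcon
  push Not at hcon
  have h1 := wgd_ae hP
  rw [ae_restrict_iff' measurableSet_Ioo] at h1
  have h2 : volume (Set.Ioo x y) = 0 := by
    refine measure_mono_null (fun v hv => ?_) (ae_iff.1 h1)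
    intro h3
    exact hcon v hv.1 hv.2 (h3 ⟨hx.trans_lt hv.1, hv.2.trans_le hy⟩)
  rw [Real.volume_Ioo, ENNReal.ofReal_eq_zero] at h2
  linarith

/-- **The labels of the target.** -/
theorem tgP_of (hne : S.Ne) (hP : ThrOf (chsys m θ) S P) (hθ : 0 < θ) (hS : TmH S)
    {c : ℕ → Fin m} {r : ℕ} (hall : ∀ i, i ≠ c r → ∃ j < r, c j = i) {Pt : ℝ → ℝ → ℝ}
    (hPt : ThrOf (tgs (c r)) S (fun _ => Pt)) {α Q sg : ℝ} (hT1 : T1c S (c r) α sg)
    (hT2 : T2c S (c r) α Q sg) (hα : α ≤ 1) (hsgθ : sg + θ < 1) (hQ0 : 0 < Q) (hQ : Q ≤ sg)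
    {a w : ℝ} (hw : 0 < w) (hwa : w ≤ a) (ha : a < α) (hup : UpA P a w) (hwd : w ∈ Wgd P) :
    TgP S c r (min (Pt a w) Q) a w sg := by
  have hsg : 0 ≤ sg := hQ0.le.trans hQ
  have hsg1 : sg < 1 := by linarith
  have ha1 : a < 1 := ha.trans_le hα
  obtain ⟨c₀, h₀⟩ := gdP_of hne hP hθ hS hT1 hT2 hα hsg hsgθ hw hwa ha hup
  have hm1 : m - 1 ≤ r := by
    have h1 := length_le (l := (Finset.univ.erase (c r)).toList) hall (Finset.nodup_toList _)
      (by rw [Finset.mem_toList]; exact Finset.notMem_erase _ _)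
    rw [Finset.length_toList, Finset.card_erase_of_mem (Finset.mem_univ _), Finset.card_univ,
      Fintype.card_fin] at h1
    exact h1
  intro ε hε
  obtain ⟨K, K₁, hK₁, hb⟩ := tgs_cap hS hPt h₀ hQ0 hQ hsg1 (fun x y hx hxy hy => by
    rcases le_or_gt y w with h1 | h1
    · obtain ⟨v, v1, v2, v3⟩ := wgd_dense hP hx hxy (by linarith)
      have v4 : v < w := by linarith
      obtain ⟨c', h'⟩ := gdP_of hne hP hθ hS hT1 hT2 hα hsg hsgθ (hx.trans_lt v1) le_rfl
        (by linarith) (Wgd.self v3 (by linarith))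
      refine ⟨v, v1, v2, c', fun l => bet P c' l v v, ?_⟩
      rw [min_eq_left v4.le]
      exact h'
    · obtain ⟨d, d1, d2⟩ := exists_rat_btwn (show max x w - w < y - w by
        have := max_lt hxy h1
        linarith)
      have d3 : (0 : ℝ) ≤ d := by
        have := le_max_right x w
        linarith
      have d4 := le_max_left x w
      obtain ⟨c', h'⟩ := gdP_of hne hP hθ hS hT1 hT2 hα hsg hsgθ hw (show w ≤ w + d by linarith)
        (by linarith) (hwd d d3 (by linarith))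
      refine ⟨w + d, by linarith, by linarith, c', fun l => bet P c' l (w + d) w, ?_⟩
      rw [min_eq_right (by linarith : w ≤ w + d)]
      exact h') hε
  refine ⟨K, K₁, hK₁, hb.mono 0 ?_⟩
  rintro J - F A ⟨B, p, h1, h2, h3, e, g, G, H, h4, h5, h6⟩
  refine ⟨B, fun l => if l < m - 1 then c₀ l else c r, m - 1, e, g, h1, h2, hm1, ?_, ?_, ?_,
    ⟨G, H, h4⟩, ?_, h6⟩
  · refine (top_inj h₀.inj h₀.ne).mono fun l (hl : l < m - 1) => ?_
    show l < m - 1 + 1
    omega
  · intro l hl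
    obtain ⟨j, hj, h7⟩ := hall (c₀ l) (h₀.ne l hl)
    exact ⟨j, hj, by simp only [if_pos hl]; exact h7.symm⟩
  · exact if_neg (lt_irrefl (m - 1))
  · rw [h5]
    exact h3

/-- The same below the row `Q`. -/
theorem tgP_of' (hne : S.Ne) (hP : ThrOf (chsys m θ) S P) (hθ : 0 < θ) (hS : TmH S)
    {c : ℕ → Fin m} {r : ℕ} (hall : ∀ i, i ≠ c r → ∃ j < r, c j = i) {Pt : ℝ → ℝ → ℝ}
    (hPt : ThrOf (tgs (c r)) S (fun _ => Pt)) {α Q sg : ℝ} (hT1 : T1c S (c r) α sg)
    (hT2 : T2c S (c r) α Q sg) (hα : α ≤ 1) (hsgθ : sg + θ < 1) (hQ : Q ≤ sg)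
    {a w : ℝ} (hw : 0 < w) (hwa : w ≤ a) (ha : a < α) (hPQ : Pt a w ≤ Q) (hup : UpA P a w)
    (hwd : w ∈ Wgd P) : TgP S c r (Pt a w) a w sg := by
  have hPa : a ≤ Pt a w := hPt.low () a w hw.le hwa (ha.le.trans hα)
  have h1 := tgP_of hne hP hθ hS hall hPt hT1 hT2 hα hsgθ (by linarith) hQ hw hwa ha hup hwd
  rw [min_eq_left hPQ] at h1
  exact h1

end Pool.FRN
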